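import Mathlib

/-! # Autocorrelation of a function and its averages over dilations -/

set_option autoImplicit false

namespace Pool.Agent.K7.H77.WG

open MeasureTheory Set Filter

/-- continuous with bounded support -/
structure CB (f : ℝ → ℝ) : Prop where
  cont : Continuous f
  supp : ∃ R : ℝ, 0 ≤ R ∧ ∀ x, R < |x| → f x = 0

theorem CB.hcs {f : ℝ → ℝ} (h : CB f) : HasCompactSupport f := by
  obtain ⟨R, _, hR⟩ := h.supp
  refine HasCompactSupport.of_support_subset_isCompact (isCompact_Icc (a := -R) (b := R)) ?_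
  intro x hx
  by_contra hc
  apply hx
  apply hR
  by_contra h2
  apply hc
  rw [mem_Icc, ← abs_le]
  linarith

theorem CB.integrable {f : ℝ → ℝ} (h : CB f) : Integrable f :=
  h.cont.integrable_of_hasCompactSupport h.hcs

theorem CB.sq {f : ℝ → ℝ} (h : CB f) : CB (fun x => f x ^ 2) := by
  refine ⟨h.cont.pow 2, ?_⟩
  obtain ⟨R, hR0, hR⟩ := h.supp
  exact ⟨R, hR0, fun x hx => by simp [hR x hx]⟩

/-- autocorrelation -/
noncomputable def ac (f : ℝ → ℝ) (u : ℝ) : ℝ := ∫ x, f x * f (x + u)

theorem integrable_mul_shift {f : ℝ → ℝ} (h : CB f) (u : ℝ) :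
    Integrable (fun x => f x * f (x + u)) := by
  have h1 : CB (fun x => f x * f (x + u)) := by
    refine ⟨h.cont.mul (h.cont.comp (continuous_id.add continuous_const)), ?_⟩
    obtain ⟨R, hR0, hR⟩ := h.supp
    exact ⟨R, hR0, fun x hx => by simp [hR x hx]⟩
  exact h1.integrable

theorem abs_ac_le {f : ℝ → ℝ} (h : CB f) (u : ℝ) : |ac f u| ≤ ∫ x, f x ^ 2 := by
  have h2 : Integrable (fun x => f x ^ 2) := h.sq.integrable
  have h3 : Integrable (fun x => f (x + u) ^ 2) := h2.comp_add_right u
  have h4 : ∫ x, f (x + u) ^ 2 = ∫ x, f x ^ 2 :=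
    integral_add_right_eq_self (fun x => f x ^ 2) u
  calc |ac f u| ≤ ∫ x, |f x * f (x + u)| := abs_integral_le_integral_abs
    _ ≤ ∫ x, (1/2) * (f x ^ 2 + f (x + u) ^ 2) := by
        apply integral_mono (integrable_mul_shift h u).abs ((h2.add h3).const_mul _)
        intro x
        simp only [abs_mul]
        show |f x| * |f (x + u)| ≤ 1 / 2 * (f x ^ 2 + f (x + u) ^ 2)
        nlinarith [sq_nonneg (|f x| - |f (x + u)|), sq_abs (f x), sq_abs (f (x + u))]
    _ = ∫ x, f x ^ 2 := by
        rw [integral_const_mul, integral_add h2 h3, h4]; ring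

theorem ac_cont {f : ℝ → ℝ} (h : CB f) : Continuous (ac f) := by
  obtain ⟨R, hR0, hR⟩ := h.supp
  have h1 : ac f = fun u => ∫ x in Icc (-R) R, f x * f (x + u) := by
    funext u
    unfold ac
    rw [setIntegral_eq_integral_of_forall_compl_eq_zero]
    intro x hx
    have : R < |x| := by
      by_contra h2
      apply hx
      rw [mem_Icc, ← abs_le]; linarith
    simp [hR x this]
  rw [h1]
  apply continuous_parametric_integral_of_continuous _ isCompact_Icc
  show Continuous (fun p : ℝ × ℝ => f p.2 * f (p.2 + p.1))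
  exact (h.cont.comp continuous_snd).mul (h.cont.comp (continuous_snd.add continuous_fst))

/-- average of the autocorrelation over dilations -/
noncomputable def ph (f : ℝ → ℝ) (z : ℝ) : ℝ := ∫ t in (1:ℝ)..2, ac f (t * z)

theorem abs_ph_le {f : ℝ → ℝ} (h : CB f) (z : ℝ) : |ph f z| ≤ ∫ x, f x ^ 2 := by
  unfold ph
  have := intervalIntegral.norm_integral_le_of_norm_le_const (a := (1:ℝ)) (b := 2)
    (f := fun t => ac f (t * z)) (C := ∫ x, f x ^ 2) (fun t _ => by
      rw [Real.norm_eq_abs]; exact abs_ac_le h _)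
  rw [Real.norm_eq_abs] at this
  norm_num at this
  exact this

theorem mul_ph {f : ℝ → ℝ} (z : ℝ) : z * ph f z = ∫ u in z..(2*z), ac f u := by
  unfold ph
  rw [intervalIntegral.mul_integral_comp_mul_right, one_mul]

theorem ph_lip {f : ℝ → ℝ} (h : CB f) {p q : ℝ} (hq : 0 < q) (hqp : q ≤ p) :
    |ph f p - ph f q| ≤ 4 * (∫ x, f x ^ 2) * (p - q) / q := by
  set A := ∫ x, f x ^ 2 with hA
  have hA0 : 0 ≤ A := integral_nonneg (fun x => sq_nonneg _)
  have hc : Continuous (ac f) := ac_cont h
  have hi : ∀ a b, IntervalIntegrable (ac f) volume a b := fun a b => hc.intervalIntegrable a b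
  have hb : ∀ a b, |∫ u in a..b, ac f u| ≤ A * |b - a| := by
    intro a b
    have := intervalIntegral.norm_integral_le_of_norm_le_const (a := a) (b := b)
      (f := ac f) (C := A) (fun t _ => by rw [Real.norm_eq_abs]; exact abs_ac_le h _)
    rwa [Real.norm_eq_abs] at this
  have h1 : p * ph f p - q * ph f q = (∫ u in (2*q)..(2*p), ac f u) - ∫ u in q..p, ac f u := by
    rw [mul_ph, mul_ph]
    have e1 : (∫ u in p..(2*p), ac f u) = (∫ u in p..q, ac f u) + (∫ u in q..(2*q), ac f u)
        + ∫ u in (2*q)..(2*p), ac f u := by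
      rw [intervalIntegral.integral_add_adjacent_intervals (hi _ _) (hi _ _),
        intervalIntegral.integral_add_adjacent_intervals (hi _ _) (hi _ _)]
    rw [e1, intervalIntegral.integral_symm q p]
    ring
  have h2 : |p * ph f p - q * ph f q| ≤ 3 * A * (p - q) := by
    rw [h1]
    have b1 := hb (2*q) (2*p)
    have b2 := hb q p
    rw [abs_of_nonneg (by linarith : 0 ≤ 2*p - 2*q)] at b1
    rw [abs_of_nonneg (by linarith : 0 ≤ p - q)] at b2
    calc _ ≤ |∫ u in (2*q)..(2*p), ac f u| + |∫ u in q..p, ac f u| := abs_sub _ _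
      _ ≤ 3 * A * (p - q) := by linarith
  have h3 : |q * (ph f p - ph f q)| ≤ 4 * A * (p - q) := by
    have e : q * (ph f p - ph f q) = (p * ph f p - q * ph f q) - (p - q) * ph f p := by ring
    rw [e]
    have h4 : |(p - q) * ph f p| ≤ (p - q) * A := by
      rw [abs_mul, abs_of_nonneg (by linarith : 0 ≤ p - q)]
      exact mul_le_mul_of_nonneg_left (abs_ph_le h p) (by linarith)
    calc _ ≤ |p * ph f p - q * ph f q| + |(p - q) * ph f p| := abs_sub _ _
      _ ≤ 4 * A * (p - q) := by linarith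
  rw [abs_mul, abs_of_pos hq] at h3
  rw [le_div_iff₀ hq]
  linarith

theorem ph_lip' {f : ℝ → ℝ} (h : CB f) {p q m : ℝ} (hm : 0 < m) (hp : m ≤ p) (hq : m ≤ q) :
    |ph f p - ph f q| ≤ 4 * (∫ x, f x ^ 2) * |p - q| / m := by
  set A := ∫ x, f x ^ 2 with hA
  have hA0 : 0 ≤ A := integral_nonneg (fun x => sq_nonneg _)
  have key : ∀ p q : ℝ, m ≤ p → m ≤ q → q ≤ p →
      |ph f p - ph f q| ≤ 4 * A * |p - q| / m := by
    intro p q hp hq hqp
    have := ph_lip h (lt_of_lt_of_le hm hq) hqp
    rw [abs_of_nonneg (by linarith : 0 ≤ p - q)]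
    refine this.trans ?_
    apply div_le_div_of_nonneg_left _ hm hq
    have : 0 ≤ p - q := by linarith
    positivity
  rcases le_total q p with h1 | h1
  · exact key p q hp hq h1
  · have := key q p hq hp h1
    rwa [abs_sub_comm, abs_sub_comm p q]

/-- the Gram kernel -/
theorem gram {f : ℝ → ℝ} (a b t : ℝ) :
    ∫ x, f (x - t * a) * f (x - t * b) = ac f (t * (a - b)) := by
  unfold ac
  rw [← integral_add_right_eq_self (fun x => f (x - t * a) * f (x - t * b)) (t * a)]
  congr 1
  funext x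
  congr 2 <;> ring_nf

end Pool.Agent.K7.H77.WG
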