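import Pool.Agent.K7.H77.WG.Seq

/-! # Asymptotics of the blocks -/

set_option autoImplicit false

namespace Pool.Agent.K7.H77.WG

open MeasureTheory Set Filter Topology

/-- the first index of the block at the scale `X` -/
noncomputable def PX (c l X : ℝ) : ℕ := ⌈(X / l) ^ (1 / c)⌉₊

theorem PX_tendsto {c l : ℝ} (hc : 1 ≤ c) (hl : 0 < l) :
    Tendsto (fun X => (PX c l X : ℝ)) atTop atTop := by
  have h1 : Tendsto (fun X : ℝ => (X / l) ^ (1 / c)) atTop atTop := by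
    apply (tendsto_rpow_atTop (by positivity : 0 < 1 / c)).comp
    exact tendsto_id.atTop_div_const hl
  refine tendsto_atTop_mono (fun X => ?_) h1
  exact Nat.le_ceil _

theorem PX_ratio {c l : ℝ} (hc : 1 ≤ c) (hl : 0 < l) :
    Tendsto (fun X => l * (PX c l X : ℝ) ^ c / X) atTop (𝓝 1) := by
  have hc0 : (0:ℝ) < c := by linarith
  have h1 : Tendsto (fun X : ℝ => (X / l) ^ (1 / c)) atTop atTop := by
    apply (tendsto_rpow_atTop (by positivity : 0 < 1 / c)).comp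
    exact tendsto_id.atTop_div_const hl
  have h2 := (tendsto_nat_ceil_div_atTop (R := ℝ)).comp h1
  have h3 := h2.rpow_const (p := c) (Or.inl one_ne_zero)
  rw [Real.one_rpow] at h3
  refine h3.congr' ?_
  filter_upwards [eventually_gt_atTop 0] with X hX
  simp only [Function.comp]
  have hXl : 0 < X / l := by positivity
  rw [Real.div_rpow (by positivity) (by positivity), ← Real.rpow_mul hXl.le, one_div,
    inv_mul_cancel₀ hc0.ne', Real.rpow_one]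
  unfold PX
  rw [one_div]
  field_simp

theorem PX_low {c l : ℝ} (hc : 1 ≤ c) (hl : 0 < l) {X : ℝ} (hX : 0 < X) :
    X ≤ l * (PX c l X : ℝ) ^ c := by
  have hc0 : (0:ℝ) < c := by linarith
  have h := Nat.le_ceil ((X / l) ^ (1 / c))
  have h2 := Real.rpow_le_rpow (by positivity) h hc0.le
  rw [← Real.rpow_mul (by positivity), one_div, inv_mul_cancel₀ hc0.ne', Real.rpow_one,
    div_le_iff₀ hl] at h2
  unfold PX
  rw [one_div]
  linarith

theorem PX_up {c l : ℝ} (hc : 1 ≤ c) (hl : 0 < l) {δ : ℝ} (hδ : 0 < δ) :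
    ∀ᶠ X in atTop, l * (PX c l X : ℝ) ^ c ≤ (1 + δ) * X := by
  have h := (PX_ratio hc hl).eventually (gt_mem_nhds (show (1:ℝ) < 1 + δ by linarith))
  filter_upwards [h, eventually_gt_atTop 0] with X hX hX0
  rw [div_lt_iff₀ hX0] at hX
  exact hX.le

/-- `P ≤ C X^{1/c}` -/
theorem PX_le {c l : ℝ} (hc : 1 ≤ c) (hl : 0 < l) :
    ∀ᶠ X in atTop, (PX c l X : ℝ) ≤ (2 / l * X) ^ (1 / c) := by
  have hc0 : (0:ℝ) < c := by linarith
  filter_upwards [PX_up hc hl (δ := 1) one_pos, eventually_gt_atTop 0] with X h h0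
  have h1 : (PX c l X : ℝ) ^ c ≤ 2 / l * X := by
    rw [div_mul_eq_mul_div, le_div_iff₀ hl]; linarith
  have h2 := Real.rpow_le_rpow (z := 1 / c) (by positivity) h1 (by positivity)
  rwa [← Real.rpow_mul (by positivity), mul_one_div_cancel hc0.ne', Real.rpow_one] at h2

/-- a power of `P` -/
theorem PX_pow_le {c l q : ℝ} (hc : 1 ≤ c) (hl : 0 < l) (hq : 0 ≤ q) :
    ∀ᶠ X in atTop, (PX c l X : ℝ) ^ q ≤ (2 / l) ^ (q / c) * X ^ (q / c) := by
  filter_upwards [PX_le hc hl, eventually_gt_atTop 0] with X h h0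
  have h2 := Real.rpow_le_rpow (z := q) (by positivity) h hq
  rwa [← Real.rpow_mul (by positivity), Real.mul_rpow (by positivity) h0.le, one_div_mul_eq_div]
    at h2

theorem PX_ge {c l : ℝ} (hc : 1 ≤ c) (hl : 0 < l) (K : ℝ) :
    ∀ᶠ X in atTop, K ≤ (PX c l X : ℝ) := (PX_tendsto hc hl).eventually_ge_atTop K

theorem const_le {C e : ℝ} (he : 0 < e) : ∀ᶠ X : ℝ in atTop, C ≤ X ^ e :=
  (tendsto_rpow_atTop he).eventually_ge_atTop C

section

variable {c l : ℝ} {b : ℕ → ℝ} (hc : 1 ≤ c) (hl : 0 < l)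
  (hb : ∀ y : ℕ, l * (y:ℝ) ^ c ≤ b y ∧ b y ≤ l * ((y:ℝ) + 1) ^ c)

include hc hl in
theorem PX_pos {X : ℝ} (hX : 0 < X) : 1 ≤ PX c l X := by
  have h := PX_low hc hl hX
  rcases Nat.eq_zero_or_pos (PX c l X) with h0 | h0
  · rw [h0, Nat.cast_zero, Real.zero_rpow (by linarith), mul_zero] at h
    linarith
  · exact h0

/-- the block at the scale `X` -/
noncomputable def XB (X : ℝ) (hX : 0 < X) : Blk := pblk c l b hc hl hb (PX c l X) (PX_pos hc hl hX)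

theorem G_le : ∃ C : ℝ, 0 < C ∧ ∀ᶠ X in atTop, ∀ hX : 0 < X,
    (XB hc hl hb X hX).G ≤ C * X ^ (1 - 1 / c) := by
  have hc0 : (0:ℝ) < c := by linarith
  refine ⟨l * (c * 2 ^ (c - 1)) * (2 / l) ^ ((c - 1) / c), by positivity, ?_⟩
  filter_upwards [PX_pow_le (q := c - 1) hc hl (by linarith)] with X h hX
  show l * (c * (2 * (PX c l X : ℝ)) ^ (c - 1)) ≤ _
  rw [Real.mul_rpow (by norm_num) (Nat.cast_nonneg _)]
  have e : (c - 1) / c = 1 - 1 / c := by field_simp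
  calc l * (c * (2 ^ (c - 1) * (PX c l X : ℝ) ^ (c - 1)))
      = l * (c * 2 ^ (c - 1)) * (PX c l X : ℝ) ^ (c - 1) := by ring
    _ ≤ l * (c * 2 ^ (c - 1)) * ((2 / l) ^ ((c - 1) / c) * X ^ ((c - 1) / c)) := by gcongr
    _ = _ := by rw [e]; ring

theorem Q_le {e : ℝ} (he : 0 < e) : ∀ᶠ X in atTop, ∀ hX : 0 < X,
    (XB hc hl hb X hX).Q ≤ X ^ (2 - 1 / c + e) := by
  have hc0 : (0:ℝ) < c := by linarith
  set e' : ℝ := c * e / 2 with he'
  have he'0 : 0 < e' := by positivity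
  set q : ℝ := 2 * c - 1 + e' with hq
  have hq0 : 0 ≤ q := by linarith
  set A : ℝ := 48 * (l ^ 2 * c ^ 2 * (2 ^ (c - 1)) ^ 3) * (1 + 1 / e') with hA
  have hA0 : 0 < A := by positivity
  filter_upwards [PX_pow_le (q := q) hc hl hq0, PX_ge hc hl 1,
    const_le (C := A * (2 / l) ^ (q / c)) (e := e / 2) (by positivity)] with X h hP hX2 hX
  set P : ℝ := (PX c l X : ℝ) with hPdef
  have hP0 : 0 < P := by linarith
  show 48 * ((l * (c * (2 * P) ^ (c - 1))) ^ 3 / (l * (c * P ^ (c - 1)))) * P * (1 + Real.log P) ≤ _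
  rw [Real.mul_rpow (by norm_num) hP0.le]
  have hPc : 0 < P ^ (c - 1) := Real.rpow_pos_of_pos hP0 _
  have e1 : (l * (c * (2 ^ (c - 1) * P ^ (c - 1)))) ^ 3 / (l * (c * P ^ (c - 1))) =
      l ^ 2 * c ^ 2 * (2 ^ (c - 1)) ^ 3 * (P ^ (c - 1)) ^ 2 := by
    field_simp
  rw [e1]
  have e2 : (P ^ (c - 1)) ^ 2 * P * P ^ e' = P ^ q := by
    rw [← Real.rpow_natCast (P ^ (c - 1)) 2, ← Real.rpow_mul hP0.le, ← Real.rpow_add_one hP0.ne',
      ← Real.rpow_add hP0]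
    congr 1
    push_cast
    ring
  have hlog : 1 + Real.log P ≤ (1 + 1 / e') * P ^ e' := by
    have h1 := Real.log_le_rpow_div hP0.le he'0
    have h2 : 1 ≤ P ^ e' := Real.one_le_rpow hP he'0.le
    calc 1 + Real.log P ≤ P ^ e' + P ^ e' / e' := add_le_add h2 h1
      _ = _ := by ring
  have e3 : X ^ (2 - 1 / c + e) = X ^ (e / 2) * X ^ (q / c) := by
    rw [← Real.rpow_add hX]
    congr 1
    rw [hq, he']
    field_simp
    ring
  calc 48 * (l ^ 2 * c ^ 2 * (2 ^ (c - 1)) ^ 3 * (P ^ (c - 1)) ^ 2) * P * (1 + Real.log P)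
      ≤ 48 * (l ^ 2 * c ^ 2 * (2 ^ (c - 1)) ^ 3 * (P ^ (c - 1)) ^ 2) * P *
        ((1 + 1 / e') * P ^ e') := by gcongr
    _ = A * ((P ^ (c - 1)) ^ 2 * P * P ^ e') := by rw [hA]; ring
    _ = A * P ^ q := by rw [e2]
    _ ≤ A * ((2 / l) ^ (q / c) * X ^ (q / c)) := by gcongr
    _ = A * (2 / l) ^ (q / c) * X ^ (q / c) := by ring
    _ ≤ X ^ (e / 2) * X ^ (q / c) := by gcongr
    _ = _ := e3.symm

/-- the values at the ends of the pieces -/
theorem a_bounds {δ K : ℝ} (hδ : 0 < δ) (hδ1 : δ ≤ 1) (hK : c + 1 ≤ K) :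
    ∀ᶠ X in atTop, ∀ hX : 0 < X,
      X ≤ (XB hc hl hb X hX).a 0 ∧
      (XB hc hl hb X hX).a 0 ≤ (1 + δ) ^ K * X ∧
      (XB hc hl hb X hX).a ⌊δ * (PX c l X : ℝ)⌋₊ ≤ (1 + δ) ^ K * X ∧
      δ / 2 * X ≤ (XB hc hl hb X hX).a ⌊δ * (PX c l X : ℝ)⌋₊ - (XB hc hl hb X hX).a 0 ∧
      2 * X ≤ (XB hc hl hb X hX).a (XB hc hl hb X hX).n ∧
      (XB hc hl hb X hX).a (XB hc hl hb X hX).n ≤ 2 ^ K * X ∧
      ⌊δ * (PX c l X : ℝ)⌋₊ ≤ (XB hc hl hb X hX).n := by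
  have hc0 : (0:ℝ) < c := by linarith
  filter_upwards [PX_up hc hl hδ, PX_up hc hl (δ := 1) one_pos, PX_ge hc hl (2 / δ)] with
    X h1 h2 h3 hX
  have hlow := PX_low hc hl hX
  have hPge := PX_pos hc hl hX
  set P : ℝ := (PX c l X : ℝ) with hPdef
  have hP0 : 0 < P := by rw [hPdef]; exact_mod_cast hPge
  have hPc : 0 < P ^ c := Real.rpow_pos_of_pos hP0 _
  have ea : ∀ y : ℕ, (XB hc hl hb X hX).a y = l * (P + y) ^ c := fun y => rfl
  have en : ((XB hc hl hb X hX).n : ℝ) = P := rfl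
  have h1δ : 1 ≤ 1 + δ := by linarith
  have ha0 : (XB hc hl hb X hX).a 0 = l * P ^ c := by rw [ea]; simp
  have hKpow : (1 + δ) ^ c * (1 + δ) ≤ (1 + δ) ^ K := by
    rw [← Real.rpow_add_one (by linarith)]
    exact Real.rpow_le_rpow_of_exponent_le h1δ hK
  have hcpow : 1 ≤ (1 + δ) ^ c := Real.one_le_rpow h1δ hc0.le
  have hfl : (⌊δ * P⌋₊ : ℝ) ≤ δ * P := Nat.floor_le (by positivity)
  have hfl2 : δ * P / 2 ≤ (⌊δ * P⌋₊ : ℝ) := by
    have := Nat.sub_one_lt_floor (δ * P)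
    have h4 : 2 ≤ δ * P := by
      rw [div_le_iff₀ hδ] at h3; linarith
    linarith
  have han' : (XB hc hl hb X hX).a ⌊δ * P⌋₊ ≤ (1 + δ) ^ K * X := by
    rw [ea]
    calc l * (P + (⌊δ * P⌋₊ : ℝ)) ^ c ≤ l * ((1 + δ) * P) ^ c := by
          gcongr
          linarith
      _ = (1 + δ) ^ c * (l * P ^ c) := by rw [Real.mul_rpow (by linarith) hP0.le]; ring
      _ ≤ (1 + δ) ^ c * ((1 + δ) * X) := by gcongr
      _ = (1 + δ) ^ c * (1 + δ) * X := by ring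
      _ ≤ _ := by gcongr
  refine ⟨by rw [ha0]; exact hlow, ?_, han', ?_, ?_, ?_, ?_⟩
  · rw [ha0]
    calc l * P ^ c ≤ (1 + δ) * X := h1
      _ ≤ (1 + δ) ^ c * (1 + δ) * X := by
        have : (1 + δ) * X ≤ (1 + δ) ^ c * ((1 + δ) * X) := by
          apply le_mul_of_one_le_left (by positivity) hcpow
        linarith
      _ ≤ _ := by gcongr
  · rw [ha0, ea]
    have h5 := rpow_lower hc (x := P) (y := P + (⌊δ * P⌋₊ : ℝ)) hP0 (by linarith [(Nat.cast_nonneg ⌊δ * P⌋₊ : (0:ℝ) ≤ _)])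
    have e5 : P + (⌊δ * P⌋₊ : ℝ) - P = (⌊δ * P⌋₊ : ℝ) := by ring
    rw [e5] at h5
    have e6 : P ^ c = P ^ (c - 1) * P := by rw [← Real.rpow_add_one hP0.ne']; congr 1; ring
    have hPc1 : 0 < P ^ (c - 1) := Real.rpow_pos_of_pos hP0 _
    calc δ / 2 * X ≤ δ / 2 * (l * P ^ c) := by gcongr
      _ = l * (1 * P ^ (c - 1) * (δ * P / 2)) := by rw [e6]; ring
      _ ≤ l * (c * P ^ (c - 1) * (⌊δ * P⌋₊ : ℝ)) := by gcongr
      _ ≤ l * ((P + (⌊δ * P⌋₊ : ℝ)) ^ c - P ^ c) := by gcongr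
      _ = _ := by ring
  · rw [ea, en]
    have e7 : P + P = 2 * P := by ring
    rw [e7, Real.mul_rpow (by norm_num) hP0.le]
    have h8 : (2:ℝ) ≤ 2 ^ c := by
      calc (2:ℝ) = 2 ^ (1:ℝ) := (Real.rpow_one 2).symm
        _ ≤ 2 ^ c := Real.rpow_le_rpow_of_exponent_le (by norm_num) hc
    calc 2 * X ≤ 2 * (l * P ^ c) := by gcongr
      _ ≤ 2 ^ c * (l * P ^ c) := by gcongr
      _ = _ := by ring
  · rw [ea, en]
    have e7 : P + P = 2 * P := by ring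
    rw [e7, Real.mul_rpow (by norm_num) hP0.le]
    have h8 : (2:ℝ) ^ c * 2 ≤ 2 ^ K := by
      rw [← Real.rpow_add_one (by norm_num)]
      exact Real.rpow_le_rpow_of_exponent_le (by norm_num) hK
    calc l * (2 ^ c * P ^ c) = 2 ^ c * (l * P ^ c) := by ring
      _ ≤ 2 ^ c * ((1 + 1) * X) := by gcongr
      _ = 2 ^ c * 2 * X := by ring
      _ ≤ _ := by gcongr
  · have : (⌊δ * P⌋₊ : ℝ) ≤ ((XB hc hl hb X hX).n : ℝ) := by
      rw [en]
      calc (⌊δ * P⌋₊ : ℝ) ≤ δ * P := hfl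
        _ ≤ 1 * P := by gcongr
        _ = P := one_mul P
    exact_mod_cast this

end

end Pool.Agent.K7.H77.WG
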