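import Pool.Agent.K7.H77.WG.Asy

/-! # The bad dilations at one scale -/

set_option autoImplicit false

namespace Pool.Agent.K7.H77.WG

open MeasureTheory Set Filter Topology

theorem exists_delta {K θ : ℝ} (hK : 1 ≤ K) (hθ : 0 < θ) (hθ1 : θ ≤ 1) :
    ∃ δ : ℝ, 0 < δ ∧ δ ≤ 1 ∧ (1 + δ) ^ K ≤ 1 + θ := by
  have hlog := Real.log_pos (by linarith : 1 < 1 + θ)
  refine ⟨Real.log (1 + θ) / K, by positivity, ?_, ?_⟩
  · have := Real.log_le_sub_one_of_pos (by linarith : 0 < 1 + θ)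
    rw [div_le_one (by linarith)]; linarith
  · have h1 : 1 + Real.log (1 + θ) / K ≤ Real.exp (Real.log (1 + θ) / K) := by
      linarith [Real.add_one_le_exp (Real.log (1 + θ) / K)]
    calc (1 + Real.log (1 + θ) / K) ^ K ≤ (Real.exp (Real.log (1 + θ) / K)) ^ K :=
          Real.rpow_le_rpow (by positivity) h1 (by linarith)
      _ = 1 + θ := by
        rw [← Real.exp_mul, div_mul_cancel₀ _ (by linarith), Real.exp_log (by linarith)]

/-- the dilations for which some number in the window at the scale `X` is far from all sums -/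
def Bad {s : ℕ} (b : Fin s → ℕ → ℝ) (η X : ℝ) : Set (Fin s → ℝ) :=
  {α | (∀ i, α i ∈ Icc (1:ℝ) 2) ∧ ∃ N : ℝ, X * ((∑ i, α i) + 1 / 2) ≤ N ∧
    N ≤ X * ((∑ i, α i) + 3 / 4) ∧
    ∀ x : Fin s → ℕ, 2 * X ^ (-η) ≤ |N - ∑ i, α i * b i (x i)|}

variable {s : ℕ} {c l : Fin (s+1) → ℝ} {b : Fin (s+1) → ℕ → ℝ}
  (hc : ∀ i, 1 ≤ c i) (hl : ∀ i, 0 < l i)
  (hb : ∀ i, ∀ y : ℕ, l i * (y:ℝ) ^ c i ≤ b i y ∧ b i y ≤ l i * ((y:ℝ) + 1) ^ c i)

/-- all that is needed of the blocks at the scale `X` -/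
theorem scale (θ e : ℝ) (hθ : 0 < θ) (hθ1 : θ ≤ 1) (he : 0 < e) :
    ∃ δ K : ℝ, 0 < δ ∧ 1 ≤ K ∧ ∀ᶠ X in atTop, ∀ hX : 0 < X,
      let B : Fin (s+1) → Blk := fun i => XB (hc i) (hl i) (hb i) X hX
      let n' : Fin (s+1) → ℕ := fun i => ⌊δ * (PX (c i) (l i) X : ℝ)⌋₊
      (∀ i, X ≤ (B i).a 0) ∧ (∀ i, (B i).a 0 ≤ (1 + θ) * X) ∧
      (∀ i, (B i).a (n' i) ≤ (1 + θ) * X) ∧
      (∀ i, δ / 2 * X ≤ (B i).a (n' i) - (B i).a 0) ∧
      (∀ i, 2 * X ≤ (B i).a (B i).n) ∧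
      (∀ i, (B i).len ≤ 2 ^ K * X) ∧
      (∀ i, n' i ≤ (B i).n) ∧
      (∀ i, 0 < (B i).n) ∧
      (∀ i, (B i).Q ≤ X ^ (2 - 1 / c i + e)) ∧
      s * (2 * (2 ^ K * X)) ^ s * (B 0).G / (2 ^ K * X) ≤ (δ / 2 * X) ^ s / 4 := by
  set K : ℝ := 1 + ∑ i, c i with hKdef
  have hcK : ∀ i, c i + 1 ≤ K := by
    intro i
    have := Finset.single_le_sum (f := c) (fun j _ => by linarith [hc j]) (Finset.mem_univ i)
    rw [hKdef]; linarith
  have hK1 : 1 ≤ K := by linarith [hcK 0, hc 0]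
  obtain ⟨δ, hδ, hδ1, hδK⟩ := exists_delta hK1 hθ hθ1
  refine ⟨δ, K, hδ, hK1, ?_⟩
  obtain ⟨C, hC, hG⟩ := G_le (hc 0) (hl 0) (hb 0)
  have h1 : ∀ᶠ X in atTop, ∀ i, ∀ hX : 0 < X,
      X ≤ (XB (hc i) (hl i) (hb i) X hX).a 0 ∧
      (XB (hc i) (hl i) (hb i) X hX).a 0 ≤ (1 + δ) ^ K * X ∧
      (XB (hc i) (hl i) (hb i) X hX).a ⌊δ * (PX (c i) (l i) X : ℝ)⌋₊ ≤ (1 + δ) ^ K * X ∧
      δ / 2 * X ≤ (XB (hc i) (hl i) (hb i) X hX).a ⌊δ * (PX (c i) (l i) X : ℝ)⌋₊ -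
        (XB (hc i) (hl i) (hb i) X hX).a 0 ∧
      2 * X ≤ (XB (hc i) (hl i) (hb i) X hX).a (XB (hc i) (hl i) (hb i) X hX).n ∧
      (XB (hc i) (hl i) (hb i) X hX).a (XB (hc i) (hl i) (hb i) X hX).n ≤ 2 ^ K * X ∧
      ⌊δ * (PX (c i) (l i) X : ℝ)⌋₊ ≤ (XB (hc i) (hl i) (hb i) X hX).n :=
    eventually_all.mpr (fun i => a_bounds (hc i) (hl i) (hb i) hδ hδ1 (hcK i))
  have h2 : ∀ᶠ X in atTop, ∀ i, ∀ hX : 0 < X,
      (XB (hc i) (hl i) (hb i) X hX).Q ≤ X ^ (2 - 1 / c i + e) :=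
    eventually_all.mpr (fun i => Q_le (hc i) (hl i) (hb i) he)
  have hc0 : 0 < c 0 := by linarith [hc 0]
  have h2K : (0:ℝ) < 2 ^ K := by positivity
  filter_upwards [h1, h2, hG, const_le (C := s * (2 * 2 ^ K) ^ s * C / 2 ^ K * (4 / (δ / 2) ^ s))
    (e := 1 / c 0) (by positivity)] with X g1 g2 g3 g4 hX
  refine ⟨fun i => (g1 i hX).1, fun i => (g1 i hX).2.1.trans (by gcongr),
    fun i => (g1 i hX).2.2.1.trans (by gcongr), fun i => (g1 i hX).2.2.2.1,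
    fun i => (g1 i hX).2.2.2.2.1, fun i => ?_, fun i => (g1 i hX).2.2.2.2.2.2,
    fun i => PX_pos (hc i) (hl i) hX, fun i => g2 i hX, ?_⟩
  · have h5 := (g1 i hX).2.2.2.2.2.1
    have h6 := (g1 i hX).1
    show (XB (hc i) (hl i) (hb i) X hX).a (XB (hc i) (hl i) (hb i) X hX).n -
        (XB (hc i) (hl i) (hb i) X hX).a 0 ≤ 2 ^ K * X
    linarith
  · show s * (2 * (2 ^ K * X)) ^ s * (XB (hc 0) (hl 0) (hb 0) X hX).G / (2 ^ K * X) ≤
      (δ / 2 * X) ^ s / 4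
    have hs0 : (0:ℝ) ≤ s := Nat.cast_nonneg s
    have e1 : X ^ (1 - 1 / c 0) * X ^ (1 / c 0) = X := by
      rw [← Real.rpow_add hX]; simp
    have hXp : 0 < X ^ (1 / c 0) := Real.rpow_pos_of_pos hX _
    have hXq : 0 < X ^ (1 - 1 / c 0) := Real.rpow_pos_of_pos hX _
    have hδs : 0 < (δ / 2) ^ s := by positivity
    calc s * (2 * (2 ^ K * X)) ^ s * (XB (hc 0) (hl 0) (hb 0) X hX).G / (2 ^ K * X)
        ≤ s * (2 * (2 ^ K * X)) ^ s * (C * X ^ (1 - 1 / c 0)) / (2 ^ K * X) := by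
          gcongr
          exact g3 hX
      _ = (s * (2 * 2 ^ K) ^ s * C / 2 ^ K * (4 / (δ / 2) ^ s)) *
            ((δ / 2) ^ s / 4 * X ^ s * X ^ (1 - 1 / c 0) / X) := by
          rw [show 2 * (2 ^ K * X) = (2 * 2 ^ K) * X by ring, mul_pow (2 * 2 ^ K) X s]
          field_simp
      _ ≤ X ^ (1 / c 0) * ((δ / 2) ^ s / 4 * X ^ s * X ^ (1 - 1 / c 0) / X) := by gcongr
      _ = (δ / 2) ^ s / 4 * X ^ s * (X ^ (1 - 1 / c 0) * X ^ (1 / c 0)) / X := by ring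
      _ = (δ / 2) ^ s / 4 * X ^ s := by rw [e1]; field_simp
      _ = _ := by rw [mul_pow]; ring

include hc hl hb in
theorem bad_le {η : ℝ} (hη : 0 ≤ η) (hs : 2 + 2 * η < ∑ i, 1 / c i) :
    ∃ C : ℝ, ∀ᶠ X in atTop, box (s+1) (Bad b η X) ≤
      ENNReal.ofReal (C * X ^ (-(((∑ i, 1 / c i) - 2 - 2 * η) / 2))) := by
  set E : ℝ := (∑ i, 1 / c i) - 2 - 2 * η with hE
  have hE0 : 0 < E := by linarith
  have hs1 : (0:ℝ) < s + 1 := by positivity
  set θ : ℝ := 1 / (8 * (s + 1)) with hθ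
  have hθ0 : 0 < θ := by positivity
  have hθ1 : θ ≤ 1 := by
    rw [hθ, div_le_one (by positivity)]
    have : (0:ℝ) ≤ s := Nat.cast_nonneg s
    linarith
  set e : ℝ := E / (2 * (s + 1)) with he
  have he0 : 0 < e := by positivity
  obtain ⟨δ, K, hδ, hK, hev⟩ := scale hc hl hb θ e hθ0 hθ1 he0
  set κ₀ : ℝ := (δ / 2) ^ s / 4 with hκ₀
  have hκ0 : 0 < κ₀ := by positivity
  refine ⟨4 / κ₀ ^ 2, ?_⟩
  filter_upwards [hev, eventually_ge_atTop 8] with X hX8 hXge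
  have hX0 : 0 < X := by linarith
  obtain ⟨g1, g2, g3, g4, g5, g6, g7, g8, g9, g10⟩ := hX8 hX0
  set B : Fin (s+1) → Blk := fun i => XB (hc i) (hl i) (hb i) X hX0 with hB
  set n' : Fin (s+1) → ℕ := fun i => ⌊δ * (PX (c i) (l i) X : ℝ)⌋₊ with hn'
  set ε : ℝ := X ^ (-η) with hε
  have hε0 : 0 < ε := Real.rpow_pos_of_pos hX0 _
  have hε1 : ε ≤ 1 := Real.rpow_le_one_of_one_le_of_nonpos (by linarith) (by linarith)
  have hfix := fixed B (fun i => n' i.succ) (fun i => g7 i.succ) (g8 0) (H := 2 ^ K * X)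
    (ε := ε) (κ := κ₀ * X ^ s) hε0 (by positivity) g6 (by positivity) (by
      have hprod : (δ / 2 * X) ^ s ≤ ∏ i : Fin s, ((B i.succ).a (n' i.succ) - (B i.succ).a 0) := by
        calc (δ / 2 * X) ^ s = ∏ _i : Fin s, (δ / 2 * X) := by simp
          _ ≤ _ := Finset.prod_le_prod (fun _ _ => by positivity) (fun i _ => g4 i.succ)
      have h11 : κ₀ * X ^ s = (δ / 2 * X) ^ s / 4 := by rw [hκ₀, mul_pow]; ring
      rw [h11]
      linarith)
  refine (measure_mono ?_).trans (hfix.trans (ENNReal.ofReal_le_ofReal ?_))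
  · rintro α ⟨hα, N, hN1, hN2, hN3⟩
    refine ⟨hα, N, ?_, ?_, ?_⟩
    · have hσ : ∑ i, α i ≤ 2 * (s + 1) := by
        calc ∑ i, α i ≤ ∑ _i : Fin (s+1), (2:ℝ) := Finset.sum_le_sum (fun i _ => (hα i).2)
          _ = _ := by simp; ring
      have h1 : α 0 * (B 0).a 0 + ∑ i : Fin s, α i.succ * (B i.succ).a (n' i.succ) ≤
          (∑ i, α i) * ((1 + θ) * X) := by
        rw [Fin.sum_univ_succ, add_mul, Finset.sum_mul]
        apply add_le_add
        · exact mul_le_mul_of_nonneg_left (g2 0) (by linarith [(hα 0).1])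
        · exact Finset.sum_le_sum (fun i _ =>
            mul_le_mul_of_nonneg_left (g3 i.succ) (by linarith [(hα i.succ).1]))
      have h2 : (∑ i, α i) * (θ * X) ≤ X / 4 := by
        calc (∑ i, α i) * (θ * X) ≤ (2 * (s + 1)) * (θ * X) := by gcongr
          _ = X / 4 := by rw [hθ]; field_simp; ring
      nlinarith [h1, h2]
    · have h1 : (∑ i, α i) * X + X ≤
          α 0 * (B 0).a (B 0).n + ∑ i : Fin s, α i.succ * (B i.succ).a 0 := by
        rw [Fin.sum_univ_succ, add_mul, Finset.sum_mul]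
        have h2 : ∑ i : Fin s, α i.succ * X ≤ ∑ i : Fin s, α i.succ * (B i.succ).a 0 :=
          Finset.sum_le_sum (fun i _ =>
            mul_le_mul_of_nonneg_left (g1 i.succ) (by linarith [(hα i.succ).1]))
        have h3 : α 0 * (2 * X) ≤ α 0 * (B 0).a (B 0).n :=
          mul_le_mul_of_nonneg_left (g5 0) (by linarith [(hα 0).1])
        have h4 : X ≤ α 0 * X := le_mul_of_one_le_left hX0.le (hα 0).1
        linarith
      nlinarith [h1]
    · intro y _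
      exact hN3 (fun i => PX (c i) (l i) X + y i)
  · have hQ0 : ∀ i, 0 ≤ (B i).Q := by
      intro i
      have hn1 : (1:ℝ) ≤ (B i).n := by exact_mod_cast g8 i
      have hlog : 0 ≤ Real.log (B i).n := Real.log_nonneg hn1
      have hg := (B i).g_pos
      have hG : 0 ≤ (B i).G := by
        show 0 ≤ l i * (c i * (2 * (PX (c i) (l i) X : ℝ)) ^ (c i - 1))
        have := hl i
        have := hc i
        positivity
      unfold Blk.Q
      positivity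
    have hprod : ∏ i, (B i).Q ≤ X ^ (2 * (s + 1) - (∑ i, 1 / c i) + (s + 1) * e) := by
      calc ∏ i, (B i).Q ≤ ∏ i, X ^ (2 - 1 / c i + e) :=
            Finset.prod_le_prod (fun i _ => hQ0 i) (fun i _ => g9 i)
        _ = X ^ (∑ i, (2 - 1 / c i + e)) := (Real.rpow_sum_of_pos hX0 _ _).symm
        _ = _ := by
          congr 1
          rw [Finset.sum_add_distrib, Finset.sum_sub_distrib]
          simp
          ring
    have e5 : X ^ (2 * (s + 1) - (∑ i, 1 / c i) + (s + 1) * e) =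
        X ^ (-(E / 2)) * (ε ^ 2 * (X ^ s) ^ 2) := by
      rw [hε, ← Real.rpow_natCast (X ^ (-η)) 2, ← Real.rpow_natCast X s,
        ← Real.rpow_natCast (X ^ (s:ℝ)) 2, ← Real.rpow_mul hX0.le, ← Real.rpow_mul hX0.le,
        ← Real.rpow_add hX0, ← Real.rpow_add hX0]
      congr 1
      rw [he, hE]
      push_cast
      field_simp
      ring
    rw [div_le_iff₀ (by positivity)]
    calc 4 * ∏ i, (B i).Q ≤ 4 * (X ^ (-(E / 2)) * (ε ^ 2 * (X ^ s) ^ 2)) := by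
          rw [← e5]; gcongr
      _ = _ := by field_simp

end Pool.Agent.K7.H77.WG
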