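import Pool.Agent.K7.H77.WG.Exc

/-! # Dyadic form of the exceptional set estimate -/

set_option autoImplicit false

namespace Pool.Agent.K7.H77.WG

open MeasureTheory Set Filter Topology

/-- the exceptional set -/
def U {s : ℕ} (b : Fin s → ℕ → ℝ) (η : ℝ) (α : Fin s → ℝ) : Set ℝ :=
  {t | 1 ≤ t ∧ ∀ x : Fin s → ℕ, t ^ (-η) ≤ |∑ i, α i * b i (x i) - t|}

/-- the measure of the set in dyadic intervals is small -/
def Small (V : Set ℝ) (δ : ℝ) : Prop :=
  ∀ᶠ m : ℕ in atTop, volume (V ∩ Icc ((2:ℝ) ^ m) (2 ^ (m + 1))) ≤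
    ENNReal.ofReal (((2:ℝ) ^ m) ^ (1 - δ))

theorem const_le2 {C e : ℝ} (he : 0 < e) : ∀ᶠ m : ℕ in atTop, C ≤ ((2:ℝ) ^ m) ^ e :=
  (tendsto_pow_atTop_atTop_of_one_lt (one_lt_two (α := ℝ))).eventually (const_le he)

theorem small_of_scales {s : ℕ} {b : Fin s → ℕ → ℝ} {η η' δ δ' : ℝ} (hη : 0 ≤ η) (hη' : η < η')
    (hδ : δ < δ') {α : Fin s → ℝ} (hα : ∀ i, α i ∈ Icc (1:ℝ) 2)
    (h : ∀ r : ℕ, ∀ᶠ m : ℕ in atTop,
      α ∉ BadE b η' δ' ((1 / (2 * (s:ℝ) + 1) * (1 + 1 / (8 * (s:ℝ) + 2)) ^ r) * 2 ^ m)) :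
    Small (U b η α) δ := by
  have hs0 : (0:ℝ) ≤ s := Nat.cast_nonneg s
  set ρ : ℝ := 1 + 1 / (8 * (s:ℝ) + 2) with hρ
  set τ : ℝ := 1 / (2 * (s:ℝ) + 1) with hτ
  have hτ0 : 0 < τ := by positivity
  have hρ1 : 1 < ρ := by
    have : 0 < 1 / (8 * (s:ℝ) + 2) := by positivity
    linarith
  have hρ0 : 0 < ρ := by linarith
  have hη0 : 0 < η' := by linarith
  set σ : ℝ := ∑ i, α i with hσ
  have hσ0 : 0 ≤ σ := Finset.sum_nonneg (fun i _ => by linarith [(hα i).1])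
  have hσ1 : σ ≤ 2 * s := by
    calc σ ≤ ∑ _i : Fin s, (2:ℝ) := Finset.sum_le_sum (fun i _ => (hα i).2)
      _ = _ := by simp; ring
  have hρσ : ρ * (σ + 1 / 2) ≤ σ + 3 / 4 := by
    have h1 : 1 / (8 * (s:ℝ) + 2) * (σ + 1 / 2) ≤ 1 / 4 := by
      rw [div_mul_eq_mul_div, div_le_div_iff₀ (by positivity) (by norm_num)]
      linarith
    rw [hρ, add_mul]
    linarith
  obtain ⟨K, hK⟩ := pow_unbounded_of_one_lt (4 / τ) hρ1
  have hall : ∀ᶠ m : ℕ in atTop, ∀ r ∈ Finset.range K, α ∉ BadE b η' δ' ((τ * ρ ^ r) * 2 ^ m) :=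
    (Finset.eventually_all _).mpr (fun r _ => h r)
  -- the constants
  set M : ℝ := 2 * s + 1 with hM
  have hM0 : 0 < M := by positivity
  set A : ℝ := ∑ r ∈ Finset.range K, (τ * ρ ^ r) ^ (1 - δ') with hA
  have hη'' : ∀ᶠ m : ℕ in atTop, ∀ r ∈ Finset.range K, (1:ℝ) ≤ (τ * ρ ^ r) * 2 ^ m ∧
      (M ^ η ≤ ((τ * ρ ^ r) * 2 ^ m) ^ (η' - η)) := by
    refine (Finset.eventually_all _).mpr (fun r _ => ?_)
    have ht : Tendsto (fun m : ℕ => (τ * ρ ^ r) * (2:ℝ) ^ m) atTop atTop :=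
      (tendsto_pow_atTop_atTop_of_one_lt (one_lt_two (α := ℝ))).const_mul_atTop (by positivity)
    exact (ht.eventually_ge_atTop 1).and (ht.eventually (const_le (by linarith)))
  filter_upwards [hall, hη'', const_le2 (C := A) (e := δ' - δ) (by linarith)] with m h1 h2 h3
  have h2m : (0:ℝ) < 2 ^ m := by positivity
  have hcov : U b η α ∩ Icc ((2:ℝ) ^ m) (2 ^ (m + 1)) ⊆
      ⋃ r ∈ Finset.range K, EX b η' ((τ * ρ ^ r) * 2 ^ m) α := by
    rintro t ⟨⟨ht1, ht2⟩, ht3, ht4⟩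
    have ht0 : 0 < t := by linarith
    -- the scale
    have hz : 1 ≤ t / 2 ^ m / (τ * (σ + 1 / 2)) := by
      rw [one_le_div (by positivity)]
      have h4 : 1 ≤ t / 2 ^ m := by rw [one_le_div h2m]; exact ht3
      refine le_trans ?_ h4
      rw [hτ, div_mul_eq_mul_div, div_le_one (by positivity)]
      linarith
    obtain ⟨r, hr, hr'⟩ := exists_nat_pow_near hz hρ1
    have hrK : r < K := by
      by_contra hcon
      push Not at hcon
      have h5 : ρ ^ K ≤ ρ ^ r := pow_le_pow_right₀ hρ1.le hcon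
      have h6 : 4 / τ < t / 2 ^ m / (τ * (σ + 1 / 2)) := by linarith
      have h7 : t / 2 ^ m ≤ 2 := by
        rw [div_le_iff₀ h2m]
        rw [pow_succ] at ht4; linarith
      have h8 : t / 2 ^ m / (τ * (σ + 1 / 2)) ≤ 4 / τ := by
        rw [div_le_div_iff₀ (by positivity) hτ0]
        have : 2 * τ ≤ 4 * (τ * (σ + 1 / 2)) := by nlinarith
        nlinarith
      linarith
    refine mem_biUnion (Finset.mem_coe.mpr (Finset.mem_range.mpr hrK)) ?_
    set X : ℝ := (τ * ρ ^ r) * 2 ^ m with hX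
    have hX0 : 0 < X := by positivity
    obtain ⟨hX1, hX2⟩ := h2 r (Finset.mem_range.mpr hrK)
    rw [le_div_iff₀ (by positivity), le_div_iff₀ h2m] at hr
    rw [div_lt_iff₀ (by positivity), div_lt_iff₀ h2m, pow_succ] at hr'
    have ht5 : t ≤ X * (σ + 3 / 4) := by
      calc t ≤ ρ ^ r * ρ * (τ * (σ + 1 / 2)) * 2 ^ m := hr'.le
        _ = X * (ρ * (σ + 1 / 2)) := by rw [hX]; ring
        _ ≤ _ := by gcongr
    refine ⟨?_, ht5, ?_⟩
    · calc X * (σ + 1 / 2) = ρ ^ r * (τ * (σ + 1 / 2)) * 2 ^ m := by rw [hX]; ring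
        _ ≤ t := hr
    · intro y
      rw [abs_sub_comm]
      refine le_trans ?_ (ht2 y)
      have ht6 : t ≤ M * X := by
        calc t ≤ X * (σ + 3 / 4) := ht5
          _ ≤ X * M := by
            apply mul_le_mul_of_nonneg_left _ hX0.le
            linarith
          _ = _ := mul_comm _ _
      have h9 : M ^ η * t ^ (-η) * X ^ η ≥ 1 := by
        have h10 : t ^ η ≤ M ^ η * X ^ η := by
          rw [← Real.mul_rpow hM0.le hX0.le]
          exact Real.rpow_le_rpow ht0.le ht6 hη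
        rw [Real.rpow_neg ht0.le]
        have h11 : 0 < t ^ η := Real.rpow_pos_of_pos ht0 _
        have e : M ^ η * (t ^ η)⁻¹ * X ^ η = (M ^ η * X ^ η) / t ^ η := by
          field_simp
        rw [e, ge_iff_le, one_le_div h11]
        exact h10
      have hXη : 0 < X ^ η := Real.rpow_pos_of_pos hX0 _
      have htη : 0 < t ^ (-η) := Real.rpow_pos_of_pos ht0 _
      have hXη' : 0 < X ^ (-η') := Real.rpow_pos_of_pos hX0 _
      calc X ^ (-η') ≤ X ^ (-η') * (M ^ η * t ^ (-η) * X ^ η) := le_mul_of_one_le_right hXη'.le h9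
        _ = M ^ η * (t ^ (-η) * (X ^ η * X ^ (-η'))) := by ring
        _ ≤ X ^ (η' - η) * (t ^ (-η) * (X ^ η * X ^ (-η'))) := by
          gcongr
        _ = t ^ (-η) * (X ^ (η' - η) * (X ^ η * X ^ (-η'))) := by ring
        _ = t ^ (-η) := by
          rw [← Real.rpow_add hX0, ← Real.rpow_add hX0]
          have : η' - η + (η + -η') = 0 := by ring
          rw [this, Real.rpow_zero, mul_one]
  refine (measure_mono hcov).trans ?_
  refine (measure_biUnion_finset_le _ _).trans ?_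
  calc ∑ r ∈ Finset.range K, volume (EX b η' ((τ * ρ ^ r) * 2 ^ m) α)
      ≤ ∑ r ∈ Finset.range K, ENNReal.ofReal (((τ * ρ ^ r) * 2 ^ m) ^ (1 - δ')) := by
        apply Finset.sum_le_sum
        intro r hr
        have h4 := h1 r hr
        by_contra hcon
        push Not at hcon
        exact h4 ⟨hα, hcon.le⟩
    _ = ENNReal.ofReal (∑ r ∈ Finset.range K, ((τ * ρ ^ r) * 2 ^ m) ^ (1 - δ')) := by
        rw [ENNReal.ofReal_sum_of_nonneg]
        intro r _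
        positivity
    _ ≤ _ := by
        apply ENNReal.ofReal_le_ofReal
        have e1 : ∑ r ∈ Finset.range K, ((τ * ρ ^ r) * 2 ^ m) ^ (1 - δ') =
            A * (2 ^ m) ^ (1 - δ') := by
          rw [hA, Finset.sum_mul]
          apply Finset.sum_congr rfl
          intro r _
          rw [Real.mul_rpow (by positivity) h2m.le]
        rw [e1]
        calc A * ((2:ℝ) ^ m) ^ (1 - δ') ≤ ((2:ℝ) ^ m) ^ (δ' - δ) * ((2:ℝ) ^ m) ^ (1 - δ') := by gcongr
          _ = _ := by rw [← Real.rpow_add h2m]; congr 1; ring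

theorem box_small {s : ℕ} {c l : Fin (s+1) → ℝ} {b : Fin (s+1) → ℕ → ℝ}
    (hc : ∀ i, 1 ≤ c i) (hl : ∀ i, 0 < l i)
    (hb : ∀ i, ∀ y : ℕ, l i * (y:ℝ) ^ c i ≤ b i y ∧ b i y ≤ l i * ((y:ℝ) + 1) ^ c i)
    {η δ : ℝ} (hη : 0 ≤ η) (hs : δ < (∑ i, 1 / c i) - 1 - η) :
    ∀ᵐ α ∂(box (s+1)), Small (U b η α) δ := by
  set g : ℝ := ((∑ i, 1 / c i) - 1 - η - δ) / 4 with hg
  have hg0 : 0 < g := by rw [hg]; linarith
  have h1 : η < η + g := by linarith
  have h2 : δ < δ + g := by linarith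
  have h3 : δ + g < (∑ i, 1 / c i) - 1 - (η + g) := by
    have : (∑ i, 1 / c i) - 1 - η - δ = 4 * g := by rw [hg]; ring
    linarith
  obtain ⟨C, hC⟩ := badE_le hc hl hb (by linarith : 0 ≤ η + g) h3
  have hq : 0 < ((∑ i, 1 / c i) - 1 - (η + g) - (δ + g)) / 2 := by linarith
  have hr : ∀ r : ℕ, ∀ᵐ α ∂(box (s+1)), ∀ᶠ m : ℕ in atTop,
      α ∉ BadE b (η + g) (δ + g)
        ((1 / (2 * ((s+1 : ℕ):ℝ) + 1) * (1 + 1 / (8 * ((s+1 : ℕ):ℝ) + 2)) ^ r) * 2 ^ m) := by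
    intro r
    set τ : ℝ := 1 / (2 * ((s+1 : ℕ):ℝ) + 1) * (1 + 1 / (8 * ((s+1 : ℕ):ℝ) + 2)) ^ r with hτ
    have hτ0 : 0 < τ := by positivity
    refine bc (box (s+1)) (fun X => BadE b (η + g) (δ + g) (τ * X)) (C := C * τ ^
      (-(((∑ i, 1 / c i) - 1 - (η + g) - (δ + g)) / 2))) hq one_lt_two ?_
    have ht : Tendsto (fun X : ℝ => τ * X) atTop atTop := tendsto_id.const_mul_atTop hτ0
    filter_upwards [ht.eventually hC, eventually_gt_atTop 0] with X hX hX0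
    refine hX.trans (le_of_eq ?_)
    rw [Real.mul_rpow hτ0.le hX0.le]
    congr 1; ring
  filter_upwards [ae_all_iff.mpr hr, box_mem (s+1)] with α hα1 hα2
  exact small_of_scales hη h1 h2 hα2 hα1

/-- **The exceptional set.** -/
theorem base {s : ℕ} {c : Fin s → ℝ} {b : Fin s → ℕ → ℝ}
    (hc : ∀ i, 1 ≤ c i)
    (hb : ∀ i, ∀ y : ℕ, (y:ℝ) ^ c i ≤ b i y ∧ b i y ≤ ((y:ℝ) + 1) ^ c i)
    {η δ : ℝ} (hη : 0 ≤ η) (hs : δ < (∑ i, 1 / c i) - 1 - η) :
    ∀ᵐ α : Fin s → ℝ, (∀ i, 0 < α i) → Small (U b η α) δ := by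
  rcases s with _ | s
  · refine Eventually.of_forall (fun α _ => Eventually.of_forall (fun m => ?_))
    simp only [Finset.univ_eq_empty, Finset.sum_empty] at hs
    refine (measure_mono inter_subset_right).trans ?_
    rw [Real.volume_Icc]
    apply ENNReal.ofReal_le_ofReal
    have h1 : (1:ℝ) ≤ 2 ^ m := one_le_pow₀ (by norm_num)
    calc (2:ℝ) ^ (m + 1) - 2 ^ m = ((2:ℝ) ^ m) ^ (1:ℝ) := by rw [Real.rpow_one]; ring
      _ ≤ _ := Real.rpow_le_rpow_of_exponent_le h1 (by linarith)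
  refine transfer (R := fun b α => Small (U b η α) δ) ?_ ?_
  · intro l α h
    have e : U (fun i y => l i * b i y) η α = U b η (fun i => l i * α i) := by
      ext t
      simp only [U, mem_ofPred_eq]
      have e2 : ∀ x : Fin (s+1) → ℕ, ∑ i, α i * (l i * b i (x i)) =
          ∑ i, l i * α i * b i (x i) :=
        fun x => Finset.sum_congr rfl (fun i _ => by ring)
      simp only [e2]
    show Small (U b η (fun i => l i * α i)) δ
    rw [← e]
    exact h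
  · intro l hl
    refine box_small (c := c) (l := l) hc hl (fun i y => ?_) hη hs
    have h1 := hb i y
    have h2 := (hl i).le
    exact ⟨mul_le_mul_of_nonneg_left h1.1 h2, mul_le_mul_of_nonneg_left h1.2 h2⟩

end Pool.Agent.K7.H77.WG
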