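import Pool.Agent.K7.H77.WG.Main

/-! # The measure of the exceptional set -/

set_option autoImplicit false

namespace Pool.Agent.K7.H77.WG

open MeasureTheory Set Filter Topology

/-- the exceptional set of one scale -/
def Wset {s : ℕ} (B : Fin (s+1) → Blk) (n' : Fin s → ℕ) (ε : ℝ) (α : Fin (s+1) → ℝ) : Set ℝ :=
  {x | α 0 * (B 0).a 0 + (∑ i : Fin s, α i.succ * (B i.succ).a (n' i)) + ε ≤ x ∧
      x + ε ≤ α 0 * (B 0).a (B 0).n + (∑ i : Fin s, α i.succ * (B i.succ).a 0) ∧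
      ∀ y : Fin (s+1) → ℕ, (∀ i, y i < (B i).n) → ε ≤ |x - ∑ i, α i * (B i).b (y i)|}

/-- **One scale.** The measure of the dilations with a large exceptional set. -/
theorem fixedE {s : ℕ} (B : Fin (s+1) → Blk) (n' : Fin s → ℕ) (hn' : ∀ i, n' i ≤ (B i.succ).n)
    (hn0 : 0 < (B 0).n) {H ε κ lam : ℝ} (hε : 0 < ε) (hH : 0 < H) (hB : ∀ i, (B i).len ≤ H)
    (hκ : 0 < κ) (hlam : 0 < lam)
    (hκ' : κ + s * (2 * H) ^ s * (B 0).G / H ≤
      (∏ i, ((B i.succ).a (n' i) - (B i.succ).a 0)) / 2) :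
    box (s+1) {α | (∀ i, α i ∈ Icc (1:ℝ) 2) ∧ ENNReal.ofReal lam ≤ volume (Wset B n' ε α)} ≤
    ENNReal.ofReal (8 * (∏ i, (B i).Q) / (ε * κ ^ 2 * lam)) := by
  have hm := mass_ge hε
  have hm0 : 0 < mass ε := by linarith
  have hmk : 0 < mass ε * κ := mul_pos hm0 hκ
  set c : ENNReal := ENNReal.ofReal ((mass ε * κ) ^ 2) * ENNReal.ofReal lam with hc
  have hsub : {α | (∀ i, α i ∈ Icc (1:ℝ) 2) ∧ ENNReal.ofReal lam ≤ volume (Wset B n' ε α)} ⊆
      {α | c ≤ nsq (TD (s+1) B α (hat ε))} := by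
    rintro α ⟨hα, hvol⟩
    show c ≤ nsq (TD (s+1) B α (hat ε))
    have hpt : ∀ x ∈ Wset B n' ε α, mass ε * κ ≤ |TD (s+1) B α (hat ε) x| := by
      rintro x ⟨hx1, hx2, hx3⟩
      have hz : SS (s+1) B α (hat ε) x = 0 := by
        apply SS_zero
        intro y hy
        exact hat_zero hε (hx3 y hy)
      simp only [SS] at hz
      have e : (B 0).S (α 0) (hat ε) =
          fun x => (B 0).D (α 0) (hat ε) x + (B 0).I (α 0) (hat ε) x := by
        funext x; exact (B 0).S_eq (hat_cont ε) _ _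
      rw [e, SS_add] at hz
      have hmain := SS_lower s (fun i => B i.succ) n' hn' (fun i => α i.succ) (fun i => hα i.succ)
        (p := α 0 * (B 0).a 0 + ε) (q := α 0 * (B 0).a (B 0).n - ε) (c := mass ε / 2)
        (by linarith) (h := (B 0).I (α 0) (hat ε)) (fun x => I_hat_nonneg (B 0) (hα 0) x)
        (fun x hx => I_hat_lower (B 0) hε (hα 0) hx) x
        ⟨by linarith [hx1], by linarith [hx2]⟩
      have herr := SS_TD s (fun i => B i.succ) (fun i => α i.succ) (fun i => hα i.succ)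
        (C := 2 * (B 0).G * mass ε) hH.le (fun i => hB i.succ) (g := (B 0).D (α 0) (hat ε))
        ((B 0).D_cont' (hat_cont ε) _) (fun i u hu x => by
          rw [(B 0).comm (B i.succ) (hat_cont ε)]
          exact D_I_hat (B 0) (B i.succ) hn0 hε (by linarith [(hα 0).1]) hu.1 x) x
      have herr' : |SS s (fun i => B i.succ) (fun i => α i.succ) ((B 0).D (α 0) (hat ε)) x -
          TD s (fun i => B i.succ) (fun i => α i.succ) ((B 0).D (α 0) (hat ε)) x| ≤
          mass ε * (s * (2 * H) ^ s * (B 0).G / H) := by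
        have : mass ε * (s * (2 * H) ^ s * (B 0).G / H) =
            (s * (2 * H) ^ s * (2 * (B 0).G * mass ε)) / (2 * H) := by
          field_simp
        rw [this, le_div_iff₀ (by linarith)]
        exact herr
      have hTD : TD (s+1) B α (hat ε) x =
          TD s (fun i => B i.succ) (fun i => α i.succ) ((B 0).D (α 0) (hat ε)) x := rfl
      rw [hTD]
      rw [abs_le] at herr'
      have h5 := mul_le_mul_of_nonneg_left hκ' hm0.le
      rw [mul_add] at h5
      have h6 : mass ε * ((∏ i, ((B i.succ).a (n' i) - (B i.succ).a 0)) / 2) =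
        (∏ i, ((B i.succ).a (n' i) - (B i.succ).a 0)) * (mass ε / 2) := by ring
      rw [h6] at h5
      rw [abs_of_nonpos] <;> linarith [herr'.1, herr'.2]
    have hcont : Continuous (TD (s+1) B α (hat ε)) :=
      TD_cont (s+1) B (Γ := Unit) (F := fun _ => hat ε) ((hat_cont ε).comp continuous_snd)
        (τ := fun _ => α) continuous_const |>.comp (by fun_prop : Continuous (fun x : ℝ => ((), x)))
    have hmeas : Measurable (fun x => ENNReal.ofReal (TD (s+1) B α (hat ε) x ^ 2)) :=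
      (ENNReal.continuous_ofReal.comp (hcont.pow 2)).measurable
    unfold nsq
    calc c ≤ ENNReal.ofReal ((mass ε * κ) ^ 2) * volume (Wset B n' ε α) := by
          rw [hc]; gcongr
      _ ≤ ENNReal.ofReal ((mass ε * κ) ^ 2) *
          volume {x | ENNReal.ofReal ((mass ε * κ) ^ 2) ≤
            ENNReal.ofReal (TD (s+1) B α (hat ε) x ^ 2)} := by
          gcongr
          intro x hx
          apply ENNReal.ofReal_le_ofReal
          rw [← sq_abs (TD (s+1) B α (hat ε) x)]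
          exact pow_le_pow_left₀ hmk.le (hpt x hx) 2
      _ ≤ ∫⁻ x, ENNReal.ofReal (TD (s+1) B α (hat ε) x ^ 2) :=
          mul_meas_ge_le_lintegral hmeas _
  have hc0 : c ≠ 0 := by
    rw [hc]
    exact mul_ne_zero (ENNReal.ofReal_pos.mpr (by positivity)).ne'
      (ENNReal.ofReal_pos.mpr (by positivity)).ne'
  have hct : c ≠ ⊤ := ENNReal.mul_ne_top ENNReal.ofReal_ne_top ENNReal.ofReal_ne_top
  refine (measure_mono hsub).trans ?_
  refine (meas_ge_le_lintegral_div (TD_meas (s+1) B (hat_CB hε)).aemeasurable hc0 hct).trans ?_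
  rw [ENNReal.div_le_iff hc0 hct]
  refine (TD_mean (s+1) B (hat_CB hε)).trans ?_
  have hQ : ∀ i, 0 ≤ (B i).Q := by
    intro i
    unfold Blk.Q
    have hg := (B i).g_pos
    rcases Nat.eq_zero_or_pos (B i).n with h0 | h0
    · rw [h0]; simp
    · have hG := (B i).G_pos h0
      have hl : 0 ≤ Real.log (B i).n := Real.log_natCast_nonneg _
      positivity
  have hP : 0 ≤ ∏ i, (B i).Q := Finset.prod_nonneg (fun i _ => hQ i)
  calc (∏ i, ENNReal.ofReal (B i).Q) * nsq (hat ε)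
      ≤ (∏ i, ENNReal.ofReal (B i).Q) * ENNReal.ofReal (2 * ε) := by
        gcongr; exact nsq_hat hε
    _ = ENNReal.ofReal ((∏ i, (B i).Q) * (2 * ε)) := by
        rw [ENNReal.ofReal_mul (Finset.prod_nonneg (fun i _ => hQ i)),
          ENNReal.ofReal_prod_of_nonneg (fun i _ => hQ i)]
    _ ≤ ENNReal.ofReal (8 * (∏ i, (B i).Q) / (ε * κ ^ 2 * lam) * ((mass ε * κ) ^ 2 * lam)) := by
        apply ENNReal.ofReal_le_ofReal
        have e : 8 * (∏ i, (B i).Q) / (ε * κ ^ 2 * lam) * ((mass ε * κ) ^ 2 * lam) =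
            (∏ i, (B i).Q) * (2 * ε) * (4 * mass ε ^ 2 / ε ^ 2) := by
          field_simp
          ring
        rw [e]
        have h7 : 1 ≤ 4 * mass ε ^ 2 / ε ^ 2 := by
          rw [one_le_div (by positivity)]
          nlinarith
        have h8 : 0 ≤ (∏ i, (B i).Q) * (2 * ε) := by positivity
        nlinarith
    _ = _ := by
        rw [ENNReal.ofReal_mul (by positivity), ENNReal.ofReal_mul (by positivity), hc]

/-- the numbers in the window at the scale `X` at distance at least `X ^ (-η)` from all sums -/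
def EX {s : ℕ} (b : Fin s → ℕ → ℝ) (η X : ℝ) (α : Fin s → ℝ) : Set ℝ :=
  {x | X * ((∑ i, α i) + 1 / 2) ≤ x ∧ x ≤ X * ((∑ i, α i) + 3 / 4) ∧
    ∀ y : Fin s → ℕ, X ^ (-η) ≤ |x - ∑ i, α i * b i (y i)|}

/-- the dilations for which the exceptional set is large -/
def BadE {s : ℕ} (b : Fin s → ℕ → ℝ) (η δ X : ℝ) : Set (Fin s → ℝ) :=
  {α | (∀ i, α i ∈ Icc (1:ℝ) 2) ∧ ENNReal.ofReal (X ^ (1 - δ)) ≤ volume (EX b η X α)}

theorem badE_le {s : ℕ} {c l : Fin (s+1) → ℝ} {b : Fin (s+1) → ℕ → ℝ}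
    (hc : ∀ i, 1 ≤ c i) (hl : ∀ i, 0 < l i)
    (hb : ∀ i, ∀ y : ℕ, l i * (y:ℝ) ^ c i ≤ b i y ∧ b i y ≤ l i * ((y:ℝ) + 1) ^ c i)
    {η δ : ℝ} (hη : 0 ≤ η) (hs : δ < (∑ i, 1 / c i) - 1 - η) :
    ∃ C : ℝ, ∀ᶠ X in atTop, box (s+1) (BadE b η δ X) ≤
      ENNReal.ofReal (C * X ^ (-(((∑ i, 1 / c i) - 1 - η - δ) / 2))) := by
  set E : ℝ := (∑ i, 1 / c i) - 1 - η - δ with hE
  have hE0 : 0 < E := by linarith
  have hs1 : (0:ℝ) < s + 1 := by positivity
  set θ : ℝ := 1 / (8 * (s + 1)) with hθ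
  have hθ0 : 0 < θ := by positivity
  have hθ1 : θ ≤ 1 := by
    rw [hθ, div_le_one (by positivity)]
    have : (0:ℝ) ≤ s := Nat.cast_nonneg s
    linarith
  set e : ℝ := E / (2 * (s + 1)) with he
  have he0 : 0 < e := by positivity
  obtain ⟨δ', K, hδ', hK, hev⟩ := scale hc hl hb θ e hθ0 hθ1 he0
  set κ₀ : ℝ := (δ' / 2) ^ s / 4 with hκ₀
  have hκ0 : 0 < κ₀ := by positivity
  refine ⟨8 / κ₀ ^ 2, ?_⟩
  filter_upwards [hev, eventually_ge_atTop 8] with X hX8 hXge
  have hX0 : 0 < X := by linarith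
  obtain ⟨g1, g2, g3, g4, g5, g6, g7, g8, g9, g10⟩ := hX8 hX0
  set B : Fin (s+1) → Blk := fun i => XB (hc i) (hl i) (hb i) X hX0 with hB
  set n' : Fin (s+1) → ℕ := fun i => ⌊δ' * (PX (c i) (l i) X : ℝ)⌋₊ with hn'
  set ε : ℝ := X ^ (-η) with hε
  have hε0 : 0 < ε := Real.rpow_pos_of_pos hX0 _
  have hε1 : ε ≤ 1 := Real.rpow_le_one_of_one_le_of_nonpos (by linarith) (by linarith)
  set lam : ℝ := X ^ (1 - δ) with hlam
  have hlam0 : 0 < lam := Real.rpow_pos_of_pos hX0 _
  have hfix := fixedE B (fun i => n' i.succ) (fun i => g7 i.succ) (g8 0) (H := 2 ^ K * X)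
    (ε := ε) (κ := κ₀ * X ^ s) (lam := lam) hε0 (by positivity) g6 (by positivity) hlam0 (by
      have hprod : (δ' / 2 * X) ^ s ≤ ∏ i : Fin s, ((B i.succ).a (n' i.succ) - (B i.succ).a 0) := by
        calc (δ' / 2 * X) ^ s = ∏ _i : Fin s, (δ' / 2 * X) := by simp
          _ ≤ _ := Finset.prod_le_prod (fun _ _ => by positivity) (fun i _ => g4 i.succ)
      have h11 : κ₀ * X ^ s = (δ' / 2 * X) ^ s / 4 := by rw [hκ₀, mul_pow]; ring
      rw [h11]
      linarith)
  refine (measure_mono ?_).trans (hfix.trans (ENNReal.ofReal_le_ofReal ?_))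
  · rintro α ⟨hα, hvol⟩
    refine ⟨hα, hvol.trans (measure_mono ?_)⟩
    rintro x ⟨hN1, hN2, hN3⟩
    refine ⟨?_, ?_, ?_⟩
    · have hσ : ∑ i, α i ≤ 2 * (s + 1) := by
        calc ∑ i, α i ≤ ∑ _i : Fin (s+1), (2:ℝ) := Finset.sum_le_sum (fun i _ => (hα i).2)
          _ = _ := by simp; ring
      have h1 : α 0 * (B 0).a 0 + ∑ i : Fin s, α i.succ * (B i.succ).a (n' i.succ) ≤
          (∑ i, α i) * ((1 + θ) * X) := by
        rw [Fin.sum_univ_succ, add_mul, Finset.sum_mul]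
        apply add_le_add
        · exact mul_le_mul_of_nonneg_left (g2 0) (by linarith [(hα 0).1])
        · exact Finset.sum_le_sum (fun i _ =>
            mul_le_mul_of_nonneg_left (g3 i.succ) (by linarith [(hα i.succ).1]))
      have h2 : (∑ i, α i) * (θ * X) ≤ X / 4 := by
        calc (∑ i, α i) * (θ * X) ≤ (2 * (s + 1)) * (θ * X) := by gcongr
          _ = X / 4 := by rw [hθ]; field_simp; ring
      nlinarith [h1, h2]
    · have h1 : (∑ i, α i) * X + X ≤
          α 0 * (B 0).a (B 0).n + ∑ i : Fin s, α i.succ * (B i.succ).a 0 := by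
        rw [Fin.sum_univ_succ, add_mul, Finset.sum_mul]
        have h2 : ∑ i : Fin s, α i.succ * X ≤ ∑ i : Fin s, α i.succ * (B i.succ).a 0 :=
          Finset.sum_le_sum (fun i _ =>
            mul_le_mul_of_nonneg_left (g1 i.succ) (by linarith [(hα i.succ).1]))
        have h3 : α 0 * (2 * X) ≤ α 0 * (B 0).a (B 0).n :=
          mul_le_mul_of_nonneg_left (g5 0) (by linarith [(hα 0).1])
        have h4 : X ≤ α 0 * X := le_mul_of_one_le_left hX0.le (hα 0).1
        linarith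
      nlinarith [h1]
    · intro y _
      exact hN3 (fun i => PX (c i) (l i) X + y i)
  · have hQ0 : ∀ i, 0 ≤ (B i).Q := by
      intro i
      have hn1 : (1:ℝ) ≤ (B i).n := by exact_mod_cast g8 i
      have hlog : 0 ≤ Real.log (B i).n := Real.log_nonneg hn1
      have hg := (B i).g_pos
      have hG : 0 ≤ (B i).G := by
        show 0 ≤ l i * (c i * (2 * (PX (c i) (l i) X : ℝ)) ^ (c i - 1))
        have := hl i
        have := hc i
        positivity
      unfold Blk.Q
      positivity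
    have hprod : ∏ i, (B i).Q ≤ X ^ (2 * (s + 1) - (∑ i, 1 / c i) + (s + 1) * e) := by
      calc ∏ i, (B i).Q ≤ ∏ i, X ^ (2 - 1 / c i + e) :=
            Finset.prod_le_prod (fun i _ => hQ0 i) (fun i _ => g9 i)
        _ = X ^ (∑ i, (2 - 1 / c i + e)) := (Real.rpow_sum_of_pos hX0 _ _).symm
        _ = _ := by
          congr 1
          rw [Finset.sum_add_distrib, Finset.sum_sub_distrib]
          simp
          ring
    have e5 : X ^ (2 * (s + 1) - (∑ i, 1 / c i) + (s + 1) * e) =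
        X ^ (-(E / 2)) * (ε * (X ^ s) ^ 2 * lam) := by
      rw [hε, hlam, ← Real.rpow_natCast X s,
        ← Real.rpow_natCast (X ^ (s:ℝ)) 2, ← Real.rpow_mul hX0.le,
        ← Real.rpow_add hX0, ← Real.rpow_add hX0, ← Real.rpow_add hX0]
      congr 1
      rw [he, hE]
      push_cast
      field_simp
      ring
    rw [div_le_iff₀ (by positivity)]
    calc 8 * ∏ i, (B i).Q ≤ 8 * (X ^ (-(E / 2)) * (ε * (X ^ s) ^ 2 * lam)) := by
          rw [← e5]; gcongr
      _ = _ := by field_simp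

end Pool.Agent.K7.H77.WG
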