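import Pool.Agent.K7.H77.WG.Pw

/-! # Dilations for which the sums leave a gap, at one scale -/

set_option autoImplicit false

namespace Pool.Agent.K7.H77.WG

open MeasureTheory Set Filter

/-- hat function -/
noncomputable def hat (ε x : ℝ) : ℝ := max 0 (1 - |x| / ε)

theorem hat_cont (ε : ℝ) : Continuous (hat ε) := by
  unfold hat; fun_prop

theorem hat_nonneg (ε x : ℝ) : 0 ≤ hat ε x := le_max_left _ _

theorem hat_le_one {ε : ℝ} (hε : 0 < ε) (x : ℝ) : hat ε x ≤ 1 := by
  unfold hat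
  apply max_le (by norm_num)
  have : 0 ≤ |x| / ε := by positivity
  linarith

theorem hat_zero {ε : ℝ} (hε : 0 < ε) {x : ℝ} (hx : ε ≤ |x|) : hat ε x = 0 := by
  unfold hat
  apply max_eq_left
  have : 1 ≤ |x| / ε := by rwa [one_le_div hε]
  linarith

theorem hat_half {ε : ℝ} (hε : 0 < ε) {x : ℝ} (hx : |x| ≤ ε / 2) : 1 / 2 ≤ hat ε x := by
  unfold hat
  apply le_max_of_le_right
  have : |x| / ε ≤ 1 / 2 := by rw [div_le_iff₀ hε]; linarith
  linarith

theorem hat_CB {ε : ℝ} (hε : 0 < ε) : CB (hat ε) :=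
  ⟨hat_cont ε, ε, hε.le, fun _ hx => hat_zero hε hx.le⟩

/-- primitive of the hat function -/
noncomputable def Wh (ε x : ℝ) : ℝ := ∫ u in (-ε)..x, hat ε u

theorem hat_ii (ε a b : ℝ) : IntervalIntegrable (hat ε) volume a b :=
  (hat_cont ε).intervalIntegrable _ _

theorem Wh_sub (ε a b : ℝ) : Wh ε b - Wh ε a = ∫ u in a..b, hat ε u := by
  unfold Wh
  rw [intervalIntegral.integral_interval_sub_left (hat_ii _ _ _) (hat_ii _ _ _)]

theorem Wh_mono (ε : ℝ) : Monotone (Wh ε) := by
  intro a b hab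
  have := Wh_sub ε a b
  have h2 : 0 ≤ ∫ u in a..b, hat ε u :=
    intervalIntegral.integral_nonneg hab (fun u _ => hat_nonneg ε u)
  linarith

theorem Wh_left {ε : ℝ} (hε : 0 < ε) {x : ℝ} (hx : x ≤ -ε) : Wh ε x = 0 := by
  unfold Wh
  rw [intervalIntegral.integral_congr (g := fun _ => (0:ℝ))]
  · simp
  · intro u hu
    rw [uIcc_of_ge hx] at hu
    apply hat_zero hε
    rw [abs_of_nonpos (by linarith [hu.2])]
    linarith [hu.2]

/-- the mass of the hat function -/
noncomputable def mass (ε : ℝ) : ℝ := Wh ε ε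

theorem Wh_right {ε : ℝ} (hε : 0 < ε) {x : ℝ} (hx : ε ≤ x) : Wh ε x = mass ε := by
  have := Wh_sub ε ε x
  have h2 : ∫ u in ε..x, hat ε u = 0 := by
    rw [intervalIntegral.integral_congr (g := fun _ => (0:ℝ))]
    · simp
    · intro u hu
      rw [uIcc_of_le hx] at hu
      apply hat_zero hε
      rw [abs_of_nonneg (by linarith [hu.1])]
      exact hu.1
  unfold mass
  linarith

theorem Wh_nonneg {ε : ℝ} (hε : 0 < ε) (x : ℝ) : 0 ≤ Wh ε x := by
  have h1 := Wh_mono ε (min_le_left x (-ε))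
  rwa [Wh_left hε (min_le_right x (-ε))] at h1

theorem Wh_le {ε : ℝ} (hε : 0 < ε) (x : ℝ) : Wh ε x ≤ mass ε := by
  have h1 := Wh_mono ε (le_max_left x ε)
  rwa [Wh_right hε (le_max_right x ε)] at h1

theorem mass_ge {ε : ℝ} (hε : 0 < ε) : ε / 2 ≤ mass ε := by
  have h1 := Wh_sub ε (-(ε/2)) (ε/2)
  have h2 : ∫ u in (-(ε/2))..(ε/2), (1/2 : ℝ) ≤ ∫ u in (-(ε/2))..(ε/2), hat ε u := by
    apply intervalIntegral.integral_mono_on (by linarith) intervalIntegrable_const (hat_ii _ _ _)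
    intro u hu
    apply hat_half hε
    rw [abs_le]; exact ⟨by linarith [hu.1], hu.2⟩
  rw [intervalIntegral.integral_const, smul_eq_mul] at h2
  have h3 := Wh_le hε (ε/2)
  have h4 := Wh_nonneg hε (-(ε/2))
  linarith

theorem nsq_hat {ε : ℝ} (hε : 0 < ε) : nsq (hat ε) ≤ ENNReal.ofReal (2 * ε) := by
  rw [nsq_eq (hat_CB hε), int_eq_interval hε.le (fun x hx => by rw [hat_zero hε hx.le]; norm_num)]
  apply ENNReal.ofReal_le_ofReal
  calc _ ≤ ∫ x in (-ε)..ε, (1:ℝ) := by
        apply intervalIntegral.integral_mono_on (by linarith)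
          (((hat_cont ε).pow 2).intervalIntegrable _ _) intervalIntegrable_const
        intro u _
        have h1 := hat_nonneg ε u
        have h2 := hat_le_one hε u
        show hat ε u ^ 2 ≤ 1
        nlinarith
    _ = 2 * ε := by rw [intervalIntegral.integral_const, smul_eq_mul]; ring

theorem I_hat (B : Blk) {ε t : ℝ} (ht : 1 ≤ t) (x : ℝ) :
    B.I t (hat ε) x = t⁻¹ * (Wh ε (x - t * B.a 0) - Wh ε (x - t * B.a B.n)) := by
  unfold Blk.I
  rw [intervalIntegral.integral_comp_sub_mul _ (by linarith), Wh_sub, smul_eq_mul]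

theorem I_hat_lower (B : Blk) {ε t : ℝ} (hε : 0 < ε) (ht : t ∈ Icc (1:ℝ) 2) {x : ℝ}
    (hx : x ∈ Icc (t * B.a 0 + ε) (t * B.a B.n - ε)) : mass ε / 2 ≤ B.I t (hat ε) x := by
  rw [I_hat B ht.1, Wh_right hε (by linarith [hx.1]), Wh_left hε (by linarith [hx.2]), sub_zero]
  have hm := mass_ge hε
  have : (1:ℝ)/2 ≤ t⁻¹ := by
    rw [one_div]
    exact inv_anti₀ (by linarith [ht.1]) ht.2
  nlinarith

theorem I_hat_nonneg (B : Blk) {ε t : ℝ} (ht : t ∈ Icc (1:ℝ) 2) (x : ℝ) :
    0 ≤ B.I t (hat ε) x := by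
  rw [I_hat B ht.1]
  have h1 : Wh ε (x - t * B.a B.n) ≤ Wh ε (x - t * B.a 0) := by
    apply Wh_mono
    have := B.mono (Nat.zero_le B.n) le_rfl
    have : t * B.a 0 ≤ t * B.a B.n := mul_le_mul_of_nonneg_left this (by linarith [ht.1])
    linarith
  have : 0 ≤ t⁻¹ := by have := ht.1; positivity
  apply mul_nonneg this; linarith

/-- **The error of the smooth function is small everywhere.** -/
theorem D_I_hat (B B' : Blk) (h0 : 0 < B.n) {ε t u : ℝ} (hε : 0 < ε) (ht : 0 ≤ t) (hu : 1 ≤ u) (x : ℝ) :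
    |B.D t (B'.I u (hat ε)) x| ≤ 2 * B.G * mass ε := by
  set P : ℝ → ℝ := fun z => Wh ε (z - u * B'.a 0) + Wh ε (z - u * B'.a B'.n) with hP
  have hPm : Monotone P := by
    intro a b hab
    exact add_le_add (Wh_mono ε (by linarith)) (Wh_mono ε (by linarith))
  have hP0 : ∀ z, 0 ≤ P z := fun z => add_nonneg (Wh_nonneg hε _) (Wh_nonneg hε _)
  have hP1 : ∀ z, P z ≤ 2 * mass ε := fun z => by
    have h1 := Wh_le hε (z - u * B'.a 0)
    have h2 := Wh_le hε (z - u * B'.a B'.n)
    simp only [hP]; linarith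
  have hu' : u⁻¹ ≤ 1 := inv_le_one_of_one_le₀ hu
  have hu0 : 0 ≤ u⁻¹ := by positivity
  have key : ∀ z z', z ≤ z' →
      |B'.I u (hat ε) z - B'.I u (hat ε) z'| ≤ P z' - P z := by
    intro z z' hz
    rw [I_hat B' hu, I_hat B' hu, ← mul_sub, abs_mul, abs_of_nonneg hu0]
    have h1 := Wh_mono ε (show z - u * B'.a 0 ≤ z' - u * B'.a 0 by linarith)
    have h2 := Wh_mono ε (show z - u * B'.a B'.n ≤ z' - u * B'.a B'.n by linarith)
    have h3 : |Wh ε (z - u * B'.a 0) - Wh ε (z - u * B'.a B'.n) -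
        (Wh ε (z' - u * B'.a 0) - Wh ε (z' - u * B'.a B'.n))| ≤ P z' - P z := by
      rw [abs_le]; simp only [hP]; constructor <;> linarith
    calc _ ≤ 1 * |Wh ε (z - u * B'.a 0) - Wh ε (z - u * B'.a B'.n) -
        (Wh ε (z' - u * B'.a 0) - Wh ε (z' - u * B'.a B'.n))| := by gcongr
      _ ≤ _ := by linarith
  have cell : ∀ y ∈ Finset.range B.n, |B.Dc t (B'.I u (hat ε)) y x| ≤
      B.G * (P (x - t * B.a y) - P (x - t * B.a (y+1))) := by
    intro y hy
    have hyn := Finset.mem_range.mp hy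
    have hst := B.step_nonneg hyn
    have htag := B.tag y hyn
    have hgap := B.gap y hyn
    have hΔ : 0 ≤ P (x - t * B.a y) - P (x - t * B.a (y+1)) := by
      have : t * B.a y ≤ t * B.a (y+1) := mul_le_mul_of_nonneg_left (by linarith) ht
      have := hPm (show x - t * B.a (y+1) ≤ x - t * B.a y by linarith)
      linarith
    unfold Blk.Dc
    have := intervalIntegral.norm_integral_le_of_norm_le_const (a := B.a y) (b := B.a (y+1))
      (f := fun v => B'.I u (hat ε) (x - t * B.b y) - B'.I u (hat ε) (x - t * v))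
      (C := P (x - t * B.a y) - P (x - t * B.a (y+1))) (fun v hv => by
        rw [uIoc_of_le (by linarith)] at hv
        rw [Real.norm_eq_abs]
        have e1 : t * B.a y ≤ t * B.b y := mul_le_mul_of_nonneg_left htag.1 ht
        have e2 : t * B.b y ≤ t * B.a (y+1) := mul_le_mul_of_nonneg_left htag.2 ht
        have e3 : t * B.a y ≤ t * v := mul_le_mul_of_nonneg_left hv.1.le ht
        have e4 : t * v ≤ t * B.a (y+1) := mul_le_mul_of_nonneg_left hv.2 ht
        have m1 := hPm (show x - t * B.b y ≤ x - t * B.a y by linarith)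
        have m2 := hPm (show x - t * B.a (y+1) ≤ x - t * B.b y by linarith)
        have m3 := hPm (show x - t * v ≤ x - t * B.a y by linarith)
        have m4 := hPm (show x - t * B.a (y+1) ≤ x - t * v by linarith)
        rcases le_total (x - t * B.b y) (x - t * v) with h | h
        · refine (key _ _ h).trans ?_; linarith
        · rw [abs_sub_comm]; refine (key _ _ h).trans ?_; linarith)
    rw [Real.norm_eq_abs, abs_of_nonneg hst] at this
    calc _ ≤ _ := this
      _ ≤ (P (x - t * B.a y) - P (x - t * B.a (y+1))) * B.G := by gcongr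
      _ = _ := by ring
  unfold Blk.D
  refine (Finset.abs_sum_le_sum_abs _ _).trans ((Finset.sum_le_sum cell).trans ?_)
  rw [← Finset.mul_sum, Finset.sum_range_sub' (fun y => P (x - t * B.a y))]
  have hG := B.G_pos h0
  have h1 := hP1 (x - t * B.a 0)
  have h2 := hP0 (x - t * B.a B.n)
  calc B.G * (P (x - t * B.a 0) - P (x - t * B.a B.n)) ≤ B.G * (2 * mass ε) := by
          gcongr; linarith
      _ = _ := by ring

theorem TD_meas (s : ℕ) (B : Fin s → Blk) {f : ℝ → ℝ} (hf : CB f) :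
    Measurable (fun α => nsq (TD s B α f)) := by
  unfold nsq
  apply Measurable.lintegral_prod_right'
    (f := fun q : (Fin s → ℝ) × ℝ => ENNReal.ofReal (TD s B q.1 f q.2 ^ 2))
  apply ENNReal.measurable_ofReal.comp
  apply Continuous.measurable
  apply Continuous.pow
  exact TD_cont s B (Γ := Fin s → ℝ) (F := fun _ => f) (hf.cont.comp continuous_snd)
    (τ := fun γ => γ) continuous_id

/-- **One scale.** The measure of the dilations for which some number in the window is at distance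
at least `2 ε` from all the sums. -/
theorem fixed {s : ℕ} (B : Fin (s+1) → Blk) (n' : Fin s → ℕ) (hn' : ∀ i, n' i ≤ (B i.succ).n)
    (hn0 : 0 < (B 0).n) {H ε κ : ℝ} (hε : 0 < ε) (hH : 0 < H) (hB : ∀ i, (B i).len ≤ H)
    (hκ : 0 < κ)
    (hκ' : κ + s * (2 * H) ^ s * (B 0).G / H ≤
      (∏ i, ((B i.succ).a (n' i) - (B i.succ).a 0)) / 2) :
    box (s+1) {α | (∀ i, α i ∈ Icc (1:ℝ) 2) ∧ ∃ N : ℝ,
      α 0 * (B 0).a 0 + (∑ i : Fin s, α i.succ * (B i.succ).a (n' i)) + 2 * ε ≤ N ∧
      N + 2 * ε ≤ α 0 * (B 0).a (B 0).n + (∑ i : Fin s, α i.succ * (B i.succ).a 0) ∧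
      ∀ y : Fin (s+1) → ℕ, (∀ i, y i < (B i).n) → 2 * ε ≤ |N - ∑ i, α i * (B i).b (y i)|} ≤
    ENNReal.ofReal (4 * (∏ i, (B i).Q) / (ε ^ 2 * κ ^ 2)) := by
  have hm := mass_ge hε
  have hm0 : 0 < mass ε := by linarith
  have hmk : 0 < mass ε * κ := mul_pos hm0 hκ
  set c : ENNReal := ENNReal.ofReal ((mass ε * κ) ^ 2) * ENNReal.ofReal (2 * ε) with hc
  have hsub : {α | (∀ i, α i ∈ Icc (1:ℝ) 2) ∧ ∃ N : ℝ,
      α 0 * (B 0).a 0 + (∑ i : Fin s, α i.succ * (B i.succ).a (n' i)) + 2 * ε ≤ N ∧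
      N + 2 * ε ≤ α 0 * (B 0).a (B 0).n + (∑ i : Fin s, α i.succ * (B i.succ).a 0) ∧
      ∀ y : Fin (s+1) → ℕ, (∀ i, y i < (B i).n) → 2 * ε ≤ |N - ∑ i, α i * (B i).b (y i)|} ⊆
      {α | c ≤ nsq (TD (s+1) B α (hat ε))} := by
    rintro α ⟨hα, N, hN1, hN2, hN3⟩
    show c ≤ nsq (TD (s+1) B α (hat ε))
    have hpt : ∀ x ∈ Ioo (N - ε) (N + ε), mass ε * κ ≤ |TD (s+1) B α (hat ε) x| := by
      intro x hx
      have hz : SS (s+1) B α (hat ε) x = 0 := by
        apply SS_zero
        intro y hy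
        apply hat_zero hε
        have h1 := hN3 y hy
        have h2 : |N - x| ≤ ε := by rw [abs_le]; constructor <;> linarith [hx.1, hx.2]
        have h3 : |N - ∑ i, α i * (B i).b (y i)| ≤ |N - x| + |x - ∑ i, α i * (B i).b (y i)| := by
          have e : N - ∑ i, α i * (B i).b (y i) = (N - x) + (x - ∑ i, α i * (B i).b (y i)) := by
            ring
          rw [e]; exact abs_add_le _ _
        linarith
      simp only [SS] at hz
      have e : (B 0).S (α 0) (hat ε) =
          fun x => (B 0).D (α 0) (hat ε) x + (B 0).I (α 0) (hat ε) x := by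
        funext x; exact (B 0).S_eq (hat_cont ε) _ _
      rw [e, SS_add] at hz
      have hmain := SS_lower s (fun i => B i.succ) n' hn' (fun i => α i.succ) (fun i => hα i.succ)
        (p := α 0 * (B 0).a 0 + ε) (q := α 0 * (B 0).a (B 0).n - ε) (c := mass ε / 2)
        (by linarith) (h := (B 0).I (α 0) (hat ε)) (fun x => I_hat_nonneg (B 0) (hα 0) x)
        (fun x hx => I_hat_lower (B 0) hε (hα 0) hx) x
        ⟨by linarith [hx.1], by linarith [hx.2]⟩
      have herr := SS_TD s (fun i => B i.succ) (fun i => α i.succ) (fun i => hα i.succ)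
        (C := 2 * (B 0).G * mass ε) hH.le (fun i => hB i.succ) (g := (B 0).D (α 0) (hat ε))
        ((B 0).D_cont' (hat_cont ε) _) (fun i u hu x => by
          rw [(B 0).comm (B i.succ) (hat_cont ε)]
          exact D_I_hat (B 0) (B i.succ) hn0 hε (by linarith [(hα 0).1]) hu.1 x) x
      have herr' : |SS s (fun i => B i.succ) (fun i => α i.succ) ((B 0).D (α 0) (hat ε)) x -
          TD s (fun i => B i.succ) (fun i => α i.succ) ((B 0).D (α 0) (hat ε)) x| ≤
          mass ε * (s * (2 * H) ^ s * (B 0).G / H) := by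
        have : mass ε * (s * (2 * H) ^ s * (B 0).G / H) =
            (s * (2 * H) ^ s * (2 * (B 0).G * mass ε)) / (2 * H) := by
          field_simp
        rw [this, le_div_iff₀ (by linarith)]
        exact herr
      have hTD : TD (s+1) B α (hat ε) x =
          TD s (fun i => B i.succ) (fun i => α i.succ) ((B 0).D (α 0) (hat ε)) x := rfl
      rw [hTD]
      rw [abs_le] at herr'
      have h5 := mul_le_mul_of_nonneg_left hκ' hm0.le
      rw [mul_add] at h5
      have h6 : mass ε * ((∏ i, ((B i.succ).a (n' i) - (B i.succ).a 0)) / 2) =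
        (∏ i, ((B i.succ).a (n' i) - (B i.succ).a 0)) * (mass ε / 2) := by ring
      rw [h6] at h5
      rw [abs_of_nonpos] <;> linarith [herr'.1, herr'.2]
    unfold nsq
    calc c = ∫⁻ x in Ioo (N - ε) (N + ε), ENNReal.ofReal ((mass ε * κ) ^ 2) := by
          rw [setLIntegral_const, Real.volume_Ioo, hc]
          congr 2; ring
      _ ≤ ∫⁻ x in Ioo (N - ε) (N + ε), ENNReal.ofReal (TD (s+1) B α (hat ε) x ^ 2) := by
          apply setLIntegral_mono_ae' measurableSet_Ioo
          refine Eventually.of_forall (fun x hx => ENNReal.ofReal_le_ofReal ?_)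
          rw [← sq_abs (TD (s+1) B α (hat ε) x)]
          exact pow_le_pow_left₀ hmk.le (hpt x hx) 2
      _ ≤ _ := setLIntegral_le_lintegral _ _
  have hc0 : c ≠ 0 := by
    rw [hc]
    exact mul_ne_zero (ENNReal.ofReal_pos.mpr (by positivity)).ne'
      (ENNReal.ofReal_pos.mpr (by positivity)).ne'
  have hct : c ≠ ⊤ := ENNReal.mul_ne_top ENNReal.ofReal_ne_top ENNReal.ofReal_ne_top
  refine (measure_mono hsub).trans ?_
  refine (meas_ge_le_lintegral_div (TD_meas (s+1) B (hat_CB hε)).aemeasurable hc0 hct).trans ?_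
  rw [ENNReal.div_le_iff hc0 hct]
  refine (TD_mean (s+1) B (hat_CB hε)).trans ?_
  have hQ : ∀ i, 0 ≤ (B i).Q := by
    intro i
    unfold Blk.Q
    have hg := (B i).g_pos
    rcases Nat.eq_zero_or_pos (B i).n with h0 | h0
    · rw [h0]; simp
    · have hG := (B i).G_pos h0
      have hl : 0 ≤ Real.log (B i).n := Real.log_natCast_nonneg _
      positivity
  have hP : 0 ≤ ∏ i, (B i).Q := Finset.prod_nonneg (fun i _ => hQ i)
  calc (∏ i, ENNReal.ofReal (B i).Q) * nsq (hat ε)
      ≤ (∏ i, ENNReal.ofReal (B i).Q) * ENNReal.ofReal (2 * ε) := by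
        gcongr; exact nsq_hat hε
    _ = ENNReal.ofReal ((∏ i, (B i).Q) * (2 * ε)) := by
        rw [ENNReal.ofReal_mul (Finset.prod_nonneg (fun i _ => hQ i)),
          ENNReal.ofReal_prod_of_nonneg (fun i _ => hQ i)]
    _ ≤ ENNReal.ofReal (4 * (∏ i, (B i).Q) / (ε ^ 2 * κ ^ 2) * ((mass ε * κ) ^ 2 * (2 * ε))) := by
        apply ENNReal.ofReal_le_ofReal
        have e : 4 * (∏ i, (B i).Q) / (ε ^ 2 * κ ^ 2) * ((mass ε * κ) ^ 2 * (2 * ε)) =
            (∏ i, (B i).Q) * (2 * ε) * (4 * mass ε ^ 2 / ε ^ 2) := by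
          field_simp
        rw [e]
        have h7 : 1 ≤ 4 * mass ε ^ 2 / ε ^ 2 := by
          rw [one_le_div (by positivity)]
          nlinarith
        have h8 : 0 ≤ (∏ i, (B i).Q) * (2 * ε) := by positivity
        nlinarith
    _ = _ := by
        rw [ENNReal.ofReal_mul (by positivity), ENNReal.ofReal_mul (by positivity), hc]

end Pool.Agent.K7.H77.WG
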