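import Pool.Agent.K7.H77.WG.Step

/-! # The induction on the number of variables -/

set_option autoImplicit false

namespace Pool.Agent.K7.H77.WG

open MeasureTheory Set Filter Topology

theorem U_meas2 {s : ℕ} (b : Fin s → ℕ → ℝ) (η : ℝ) :
    MeasurableSet {p : (Fin s → ℝ) × ℝ | p.2 ∈ U b η p.1} := by
  have e : {p : (Fin s → ℝ) × ℝ | p.2 ∈ U b η p.1} =
      {p | 1 ≤ p.2} ∩ ⋂ x : Fin s → ℕ, {p | p.2 ^ (-η) ≤ |∑ i, p.1 i * b i (x i) - p.2|} := by
    ext p
    simp [U]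
  rw [e]
  refine (measurableSet_le measurable_const measurable_snd).inter
    (MeasurableSet.iInter (fun x => measurableSet_le (measurable_snd.pow_const _) ?_))
  fun_prop

theorem U_meas {s : ℕ} (b : Fin s → ℕ → ℝ) (η : ℝ) (α : Fin s → ℝ) : MeasurableSet (U b η α) := by
  have h := U_meas2 b η
  exact (measurable_prodMk_left (x := α)) h

theorem Small_meas {s : ℕ} (b : Fin s → ℕ → ℝ) (η δ : ℝ) :
    MeasurableSet {α : Fin s → ℝ | Small (U b η α) δ} := by
  have e : {α : Fin s → ℝ | Small (U b η α) δ} = ⋃ m0 : ℕ, ⋂ m : ℕ, ⋂ (_ : m0 ≤ m),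
      {α | volume (U b η α ∩ Icc ((2:ℝ) ^ m) (2 ^ (m + 1))) ≤
        ENNReal.ofReal (((2:ℝ) ^ m) ^ (1 - δ))} := by
    ext α
    simp [Small, eventually_atTop]
  rw [e]
  refine MeasurableSet.iUnion (fun m0 => MeasurableSet.iInter (fun m => MeasurableSet.iInter
    (fun _ => measurableSet_le ?_ measurable_const)))
  have h : MeasurableSet ({p : (Fin s → ℝ) × ℝ | p.2 ∈ U b η p.1} ∩
      {p | p.2 ∈ Icc ((2:ℝ) ^ m) (2 ^ (m + 1))}) :=
    (U_meas2 b η).inter (measurable_snd measurableSet_Icc)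
  exact measurable_measure_prodMk_left h

theorem Small_mono {V W : Set ℝ} {δ t₀ : ℝ} (h : ∀ t, t₀ ≤ t → t ∈ V → t ∈ W) (hW : Small W δ) :
    Small V δ := by
  have ht : ∀ᶠ m : ℕ in atTop, t₀ ≤ (2:ℝ) ^ m :=
    (tendsto_pow_atTop_atTop_of_one_lt (one_lt_two (α := ℝ))).eventually_ge_atTop t₀
  filter_upwards [hW, ht] with m h1 h2
  refine (measure_mono ?_).trans h1
  rintro t ⟨ht1, ht2⟩
  exact ⟨h t (h2.trans ht2.1) ht1, ht2⟩

/-- **One more variable.** -/
theorem step {s : ℕ} {b : Fin (s+1) → ℕ → ℝ} {C : ℝ}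
    (hC : ∀ᶠ X : ℝ in atTop, ∃ y, X ≤ b (Fin.last s) y ∧ b (Fin.last s) y ≤ C * X)
    {A κ : ℝ} (hκ : 0 ≤ κ)
    (h : ∀ η δ : ℝ, 0 ≤ η → δ < A - κ * η → ∀ᵐ α : Fin s → ℝ, (∀ i, 0 < α i) →
      Small (U (fun i => b i.castSucc) η α) δ) :
    ∀ η δ : ℝ, 0 ≤ η → δ < 2 * A - 2 * κ * η → ∀ᵐ α : Fin (s+1) → ℝ, (∀ i, 0 < α i) →
      Small (U b η α) δ := by
  intro η δ hη hδ
  set g : ℝ := A - κ * η - δ / 2 with hg
  have hg0 : 0 < g := by rw [hg]; linarith
  set η' : ℝ := η + g / (2 * (κ + 1)) with hη'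
  set δ' : ℝ := δ / 2 + g / 4 with hδ'
  have h1 : η < η' := by rw [hη']; have : 0 < g / (2 * (κ + 1)) := by positivity
                         linarith
  have h2 : δ < 2 * δ' := by rw [hδ']; linarith
  have h3 : δ' < A - κ * η' := by
    have h4 : κ * (g / (2 * (κ + 1))) ≤ g / 2 := by
      rw [mul_div_assoc', div_le_div_iff₀ (by positivity) (by norm_num)]
      nlinarith
    rw [hδ', hη', mul_add]
    have : A - κ * η = g + δ / 2 := by rw [hg]; ring
    linarith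
  have hη'0 : 0 ≤ η' := by linarith
  have hbase := h η' δ' hη'0 h3
  -- the statement on the product
  have hpr : ∀ᵐ α : Fin s → ℝ, ∀ᵐ β : ℝ, (∀ i, 0 < α i) → 0 < β →
      Small (U b η (Fin.snoc α β)) δ := by
    filter_upwards [hbase] with α hα
    by_cases hpos : ∀ i, 0 < α i
    · have h5 := one_dim (U_meas _ _ _) (hα hpos) h2 hC
      filter_upwards [h5] with β hβ _ hβ0
      have hgap : ∀ᶠ t : ℝ in atTop, (2:ℝ) ^ η' ≤ t ^ (η' - η) := const_le (by linarith)
      obtain ⟨t₀, ht₀⟩ := eventually_atTop.mp hgap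
      refine Small_mono (t₀ := max t₀ 2) ?_ (hβ hβ0)
      rintro t ht ⟨ht1, ht2⟩ y hy1 hy2
      have hty := ht₀ t ((le_max_left _ _).trans ht)
      have ht3 : 2 ≤ t := (le_max_right _ _).trans ht
      have ht0 : 0 < t := by linarith
      set u : ℝ := t - β * b (Fin.last s) y with hu
      have hu1 : t / 2 ≤ u := by rw [hu]; linarith
      have hu0 : 0 < u := by linarith
      refine ⟨by linarith, fun x => ?_⟩
      have h6 := ht2 (Fin.snoc x y)
      rw [Fin.sum_univ_castSucc] at h6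
      simp only [Fin.snoc_castSucc, Fin.snoc_last] at h6
      have h7 : ∑ i, α i * b i.castSucc (x i) + β * b (Fin.last s) y - t =
          ∑ i, α i * b i.castSucc (x i) - u := by rw [hu]; ring
      rw [h7] at h6
      refine le_trans ?_ h6
      calc u ^ (-η') ≤ (t / 2) ^ (-η') :=
            Real.rpow_le_rpow_of_nonpos (by positivity) hu1 (by linarith)
        _ = 2 ^ η' * t ^ (-η') := by
          rw [Real.div_rpow ht0.le (by norm_num), Real.rpow_neg (by norm_num : (0:ℝ) ≤ 2),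
            div_inv_eq_mul]
          ring
        _ ≤ t ^ (η' - η) * t ^ (-η') := by gcongr
        _ = t ^ (-η) := by rw [← Real.rpow_add ht0]; congr 1; ring
    · exact Eventually.of_forall (fun β hp => absurd hp hpos)
  -- Fubini
  set e := MeasurableEquiv.piFinSuccAbove (fun _ : Fin (s+1) => ℝ) (Fin.last s) with he
  have hmp : MeasurePreserving e volume volume :=
    volume_preserving_piFinSuccAbove (fun _ : Fin (s+1) => ℝ) (Fin.last s)
  have hms : MeasurableSet {p : ℝ × (Fin s → ℝ) | (∀ i, 0 < p.2 i) → 0 < p.1 →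
      Small (U b η (Fin.snoc p.2 p.1)) δ} := by
    have hsn : Measurable (fun p : ℝ × (Fin s → ℝ) => (Fin.snoc p.2 p.1 : Fin (s+1) → ℝ)) := by
      rw [measurable_pi_iff]
      intro i
      refine Fin.lastCases ?_ (fun j => ?_) i
      · simp only [Fin.snoc_last]; exact measurable_fst
      · simp only [Fin.snoc_castSucc]; fun_prop
    have m1 : MeasurableSet {p : ℝ × (Fin s → ℝ) | ∀ i, 0 < p.2 i} := by
      have e1 : {p : ℝ × (Fin s → ℝ) | ∀ i, 0 < p.2 i} = ⋂ i, {p | 0 < p.2 i} := by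
        ext p; simp
      rw [e1]
      exact MeasurableSet.iInter (fun i => measurableSet_lt measurable_const (by fun_prop))
    have m2 : MeasurableSet {p : ℝ × (Fin s → ℝ) | 0 < p.1} :=
      measurableSet_lt measurable_const measurable_fst
    have m3 : MeasurableSet {p : ℝ × (Fin s → ℝ) | Small (U b η (Fin.snoc p.2 p.1)) δ} :=
      hsn (Small_meas b η δ)
    have e2 : {p : ℝ × (Fin s → ℝ) | (∀ i, 0 < p.2 i) → 0 < p.1 →
      Small (U b η (Fin.snoc p.2 p.1)) δ} = {p | ∀ i, 0 < p.2 i}ᶜ ∪ ({p | 0 < p.1}ᶜ ∪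
        {p | Small (U b η (Fin.snoc p.2 p.1)) δ}) := by
      ext p
      simp only [mem_ofPred_eq, mem_union, mem_compl_iff]
      tauto
    rw [e2]
    exact m1.compl.union (m2.compl.union m3)
  have hpr2 : ∀ᵐ p : ℝ × (Fin s → ℝ), (∀ i, 0 < p.2 i) → 0 < p.1 →
      Small (U b η (Fin.snoc p.2 p.1)) δ := by
    rw [Measure.volume_eq_prod]
    rw [Measure.ae_prod_iff_ae_ae hms]
    exact (Measure.ae_ae_comm (p := fun (β : ℝ) (α : Fin s → ℝ) => (∀ i, 0 < α i) → 0 < β →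
      Small (U b η (Fin.snoc α β)) δ) hms).mpr hpr
  have hpr3 := hmp.quasiMeasurePreserving.ae hpr2
  filter_upwards [hpr3] with γ hγ hpos
  have e3 : (Fin.snoc (e γ).2 (e γ).1 : Fin (s+1) → ℝ) = γ := by
    have e4 : (e γ).1 = γ (Fin.last s) := rfl
    have e5 : (e γ).2 = fun j => γ j.castSucc := by
      funext j
      show γ ((Fin.last s).succAbove j) = γ j.castSucc
      rw [Fin.succAbove_last]
    rw [e4, e5]
    funext i
    refine Fin.lastCases ?_ (fun j => ?_) i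
    · simp
    · simp
  have h8 := hγ (fun i => by
    show 0 < γ ((Fin.last s).succAbove i)
    exact hpos _) (hpos _)
  rwa [e3] at h8

/-- **The exceptional set with additional variables.** -/
theorem exceptional {s : ℕ} {c : Fin s → ℝ} (hc : ∀ i, 1 ≤ c i) (j : ℕ)
    (b : Fin (s + j) → ℕ → ℝ)
    (hb : ∀ (i : Fin s) (y : ℕ), (y:ℝ) ^ c i ≤ b (Fin.castAdd j i) y ∧
      b (Fin.castAdd j i) y ≤ ((y:ℝ) + 1) ^ c i)
    (hd : ∀ i : Fin j, ∃ C : ℝ, ∀ᶠ X : ℝ in atTop,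
      ∃ y, X ≤ b (Fin.natAdd s i) y ∧ b (Fin.natAdd s i) y ≤ C * X) :
    ∀ η δ : ℝ, 0 ≤ η → δ < 2 ^ j * ((∑ i, 1 / c i) - 1) - 2 ^ j * η →
      ∀ᵐ α : Fin (s + j) → ℝ, (∀ i, 0 < α i) → Small (U b η α) δ := by
  induction j with
  | zero =>
    intro η δ hη hδ
    refine base (c := c) hc (fun i y => hb i y) hη ?_
    rw [pow_zero, one_mul, one_mul] at hδ
    linarith
  | succ j ih =>
    obtain ⟨C, hC⟩ := hd (Fin.last j)
    have h1 := ih (fun i => b i.castSucc) (fun i y => hb i y) (fun i => hd i.castSucc)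
    intro η δ hη hδ
    refine step (s := s + j) (b := b) (C := C) hC (A := 2 ^ j * ((∑ i, 1 / c i) - 1))
      (κ := 2 ^ j) (by positivity) h1 η δ hη ?_
    rw [pow_succ] at hδ
    linarith

/-- if the saving is large then there is no exception -/
theorem none_of_small {s : ℕ} {b : Fin s → ℕ → ℝ} {η η' δ : ℝ} (hη : 0 ≤ η) (hη' : η < η')
    (hδ : 1 + η' < δ) {α : Fin s → ℝ} (h : Small (U b η' α) δ) :
    ∀ᶠ t : ℝ in atTop, ∃ x : Fin s → ℕ, |∑ i, α i * b i (x i) - t| < t ^ (-η) := by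
  obtain ⟨m1, hm1⟩ := eventually_atTop.mp h
  have hg1 : ∀ᶠ t : ℝ in atTop, 2 * (2:ℝ) ^ η' ≤ t ^ (η' - η) := const_le (by linarith)
  have hg2 : ∀ᶠ t : ℝ in atTop, (2:ℝ) ^ (δ - 1) * 2 + 1 ≤ t ^ (δ - 1 - η') := const_le (by linarith)
  have hg3 : ∀ᶠ t : ℝ in atTop, (2:ℝ) ^ m1 ≤ t := eventually_ge_atTop _
  filter_upwards [hg1, hg2, hg3, eventually_ge_atTop 4] with t h1 h2 h3 h4
  have ht0 : 0 < t := by linarith
  by_contra hcon
  push Not at hcon
  obtain ⟨m, hm, hm'⟩ := exists_nat_pow_near (x := t) (y := 2) (by linarith) one_lt_two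
  have hmm : m1 ≤ m := by
    by_contra hc
    push Not at hc
    have : (2:ℝ) ^ (m + 1) ≤ 2 ^ m1 := pow_le_pow_right₀ (by norm_num) hc
    linarith
  have h2m : (0:ℝ) < 2 ^ m := by positivity
  have hsm := hm1 m hmm
  -- an interval of exceptions
  set w : ℝ := (t:ℝ) ^ (-η') with hw
  have hw0 : 0 < w := Real.rpow_pos_of_pos ht0 _
  have hw1 : w ≤ 1 := Real.rpow_le_one_of_one_le_of_nonpos (by linarith) (by linarith)
  have hη'0 : 0 < η' := by linarith
  have hfar : ∀ u ∈ Icc (t / 2) (2 * t), |u - t| ≤ w → u ∈ U b η' α := by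
    intro u hu hut
    refine ⟨by linarith [hu.1], fun x => ?_⟩
    have hu0 : 0 < u := by linarith [hu.1]
    have h5 := hcon x
    have h6 : |∑ i, α i * b i (x i) - t| ≤ |∑ i, α i * b i (x i) - u| + |u - t| := by
      have e : ∑ i, α i * b i (x i) - t = (∑ i, α i * b i (x i) - u) + (u - t) := by ring
      rw [e]; exact abs_add_le _ _
    have h7 : u ^ (-η') ≤ 2 ^ η' * w := by
      calc u ^ (-η') ≤ (t / 2) ^ (-η') :=
            Real.rpow_le_rpow_of_nonpos (by positivity) hu.1 (by linarith)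
        _ = 2 ^ η' * w := by
          rw [Real.div_rpow ht0.le (by norm_num), Real.rpow_neg (by norm_num : (0:ℝ) ≤ 2),
            div_inv_eq_mul, hw]
          ring
    have h8 : 2 * 2 ^ η' * w ≤ t ^ (-η) := by
      calc 2 * 2 ^ η' * w ≤ t ^ (η' - η) * w := by gcongr
        _ = t ^ (-η) := by rw [hw, ← Real.rpow_add ht0]; congr 1; ring
    have h9 : 1 ≤ (2:ℝ) ^ η' := Real.one_le_rpow (by norm_num) hη'0.le
    nlinarith
  -- half of it lies in the dyadic interval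
  have hvol : ENNReal.ofReal (w / 2) ≤ volume (U b η' α ∩ Icc ((2:ℝ) ^ m) (2 ^ (m + 1))) := by
    rcases le_total (t + w / 2) (2 ^ (m + 1)) with h10 | h10
    · calc ENNReal.ofReal (w / 2) = volume (Icc t (t + w / 2)) := by
            rw [Real.volume_Icc]; congr 1; ring
        _ ≤ _ := by
          apply measure_mono
          rintro u ⟨hu1, hu2⟩
          refine ⟨hfar u ⟨by linarith, by linarith⟩ ?_, by linarith, by linarith⟩
          rw [abs_of_nonneg (by linarith)]; linarith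
    · calc ENNReal.ofReal (w / 2) = volume (Icc (t - w / 2) t) := by
            rw [Real.volume_Icc]; congr 1; ring
        _ ≤ _ := by
          apply measure_mono
          rintro u ⟨hu1, hu2⟩
          refine ⟨hfar u ⟨by linarith, by linarith⟩ ?_, ?_, by linarith⟩
          · rw [abs_of_nonpos (by linarith)]; linarith
          · have : (2:ℝ) ^ (m + 1) = 2 ^ m + 2 ^ m := by ring
            have h11 : (2:ℝ) ≤ 2 ^ m := by
              have : (4:ℝ) < 2 ^ (m + 1) := lt_of_le_of_lt h4 hm'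
              rw [pow_succ] at this; linarith
            linarith
  have h12 := hvol.trans hsm
  rw [ENNReal.ofReal_le_ofReal_iff (by positivity)] at h12
  -- contradiction
  have h13 : ((2:ℝ) ^ m) ^ (1 - δ) ≤ 2 ^ (δ - 1) * t ^ (1 - δ) := by
    have h14 : t / 2 ≤ 2 ^ m := by rw [pow_succ] at hm'; linarith
    calc ((2:ℝ) ^ m) ^ (1 - δ) ≤ (t / 2) ^ (1 - δ) :=
          Real.rpow_le_rpow_of_nonpos (by positivity) h14 (by linarith)
      _ = _ := by
        rw [Real.div_rpow ht0.le (by norm_num), div_eq_mul_inv,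
          ← Real.rpow_neg (by norm_num : (0:ℝ) ≤ 2), neg_sub]
        ring
  have h15 : t ^ (δ - 1 - η') * t ^ (1 - δ) = w := by
    rw [hw, ← Real.rpow_add ht0]; congr 1; ring
  have h16 : 0 < t ^ (1 - δ) := Real.rpow_pos_of_pos ht0 _
  have h17 : ((2:ℝ) ^ (δ - 1) * 2 + 1) * t ^ (1 - δ) ≤ w := by
    rw [← h15]; gcongr
  nlinarith

/-- **All large numbers.** -/
theorem all_large2 {s : ℕ} {c : Fin s → ℝ} (hc : ∀ i, 1 ≤ c i) (j : ℕ)
    (b : Fin (s + j) → ℕ → ℝ)
    (hb : ∀ (i : Fin s) (y : ℕ), (y:ℝ) ^ c i ≤ b (Fin.castAdd j i) y ∧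
      b (Fin.castAdd j i) y ≤ ((y:ℝ) + 1) ^ c i)
    (hd : ∀ i : Fin j, ∃ C : ℝ, ∀ᶠ X : ℝ in atTop,
      ∃ y, X ≤ b (Fin.natAdd s i) y ∧ b (Fin.natAdd s i) y ≤ C * X)
    {η : ℝ} (hη : 0 ≤ η) (hs : 1 + (2 ^ j + 1) * η < 2 ^ j * ((∑ i, 1 / c i) - 1)) :
    ∀ᵐ α : Fin (s + j) → ℝ, (∀ i, 0 < α i) →
      ∀ᶠ t : ℝ in atTop, ∃ x : Fin (s + j) → ℕ, |∑ i, α i * b i (x i) - t| < t ^ (-η) := by
  set D : ℝ := 2 ^ j * ((∑ i, 1 / c i) - 1) - (1 + (2 ^ j + 1) * η) with hD
  have hD0 : 0 < D := by rw [hD]; linarith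
  have hj : (0:ℝ) < 2 ^ j + 1 := by positivity
  set η' : ℝ := η + D / (2 * (2 ^ j + 1)) with hη'
  have h1 : η < η' := by
    rw [hη']
    have : 0 < D / (2 * (2 ^ j + 1)) := by positivity
    linarith
  set δ : ℝ := 1 + η' + D / 4 with hδ
  have h2 : δ < 2 ^ j * ((∑ i, 1 / c i) - 1) - 2 ^ j * η' := by
    have e : (2 ^ j + 1) * η' = (2 ^ j + 1) * η + D / 2 := by
      rw [hη']; field_simp
    have e2 : 2 ^ j * ((∑ i, 1 / c i) - 1) = D + (1 + (2 ^ j + 1) * η) := by rw [hD]; ring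
    rw [e2, hδ]
    linarith
  filter_upwards [exceptional hc j b hb hd η' δ (by linarith) h2] with α hα hpos
  exact none_of_small hη h1 (by linarith) (hα hpos)

end Pool.Agent.K7.H77.WG
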