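import Pool.Agent.K7.H77.WG.L2

/-! # Iterated errors, averaged over all dilations -/

set_option autoImplicit false

namespace Pool.Agent.K7.H77.WG

open MeasureTheory Set Filter

namespace Blk

/-- the mean square constant -/
noncomputable def Q (B : Blk) : ℝ := 48 * (B.G ^ 3 / B.g) * B.n * (1 + Real.log B.n)

end Blk

theorem D_cont {Γ : Type*} [TopologicalSpace Γ] [FirstCountableTopology Γ] [LocallyCompactSpace Γ]
    (B : Blk) {F : Γ → ℝ → ℝ} (hF : Continuous (fun p : Γ × ℝ => F p.1 p.2)) {τ : Γ → ℝ}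
    (hτ : Continuous τ) : Continuous (fun p : Γ × ℝ => B.D (τ p.1) (F p.1) p.2) := by
  unfold Blk.D Blk.Dc
  apply continuous_finsetSum
  intro y _
  apply intervalIntegral.continuous_parametric_intervalIntegral_of_continuous'
  show Continuous (fun r : (Γ × ℝ) × ℝ =>
    F r.1.1 (r.1.2 - τ r.1.1 * B.b y) - F r.1.1 (r.1.2 - τ r.1.1 * r.2))
  have h1 : Continuous (fun r : (Γ × ℝ) × ℝ => F r.1.1 (r.1.2 - τ r.1.1 * B.b y)) :=
    hF.comp (by fun_prop :
      Continuous (fun r : (Γ × ℝ) × ℝ => ((r.1.1, r.1.2 - τ r.1.1 * B.b y) : Γ × ℝ)))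
  have h2 : Continuous (fun r : (Γ × ℝ) × ℝ => F r.1.1 (r.1.2 - τ r.1.1 * r.2)) :=
    hF.comp (by fun_prop :
      Continuous (fun r : (Γ × ℝ) × ℝ => ((r.1.1, r.1.2 - τ r.1.1 * r.2) : Γ × ℝ)))
  exact h1.sub h2

theorem D_cont1 (B : Blk) {f : ℝ → ℝ} (hf : Continuous f) :
    Continuous (fun p : ℝ × ℝ => B.D p.1 f p.2) :=
  D_cont B (F := fun _ => f) (hf.comp continuous_snd) continuous_id

theorem D_supp (B : Blk) {f : ℝ → ℝ} {R₀ : ℝ} (hs : ∀ x, R₀ < |x| → f x = 0) {t : ℝ}
    (ht : t ∈ Icc (1:ℝ) 2) : ∀ x, R₀ + 2 * B.a B.n < |x| → B.D t f x = 0 := by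
  intro x hx
  have key : ∀ v, 0 ≤ v → v ≤ B.a B.n → f (x - t * v) = 0 := by
    intro v h0 h1
    apply hs
    have h1 : |t * v| ≤ 2 * B.a B.n := by
      rw [abs_of_nonneg (mul_nonneg (by linarith [ht.1]) h0)]
      nlinarith [ht.1, ht.2]
    have h2 := abs_sub_abs_le_abs_sub x (t * v)
    linarith
  unfold Blk.D
  apply Finset.sum_eq_zero
  intro y hy
  rw [Finset.mem_range] at hy
  unfold Blk.Dc
  rw [intervalIntegral.integral_congr (g := fun _ => (0:ℝ))]
  · simp
  · intro v hv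
    rw [uIcc_of_le (B.mono (Nat.le_succ y) hy)] at hv
    show f (x - t * B.b y) - f (x - t * v) = 0
    have hb := B.tag y hy
    rw [key _ ((B.nonneg hy.le).trans hb.1) (hb.2.trans (B.mono hy le_rfl)),
      key _ ((B.nonneg hy.le).trans hv.1) (hv.2.trans (B.mono hy le_rfl)), sub_zero]

theorem D_CB (B : Blk) {f : ℝ → ℝ} (hf : CB f) {t : ℝ} (ht : t ∈ Icc (1:ℝ) 2) : CB (B.D t f) := by
  obtain ⟨R₀, h0, hs⟩ := hf.supp
  refine ⟨(D_cont1 B hf.cont).comp (by fun_prop : Continuous (fun x : ℝ => ((t, x) : ℝ × ℝ))),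
    R₀ + 2 * B.a B.n, ?_, D_supp B hs ht⟩
  have := B.nonneg (y := B.n) le_rfl
  linarith

/-- the square of the `L²` norm -/
noncomputable def nsq (f : ℝ → ℝ) : ENNReal := ∫⁻ x, ENNReal.ofReal (f x ^ 2)

theorem nsq_eq {f : ℝ → ℝ} (hf : CB f) : nsq f = ENNReal.ofReal (∫ x, f x ^ 2) := by
  unfold nsq
  rw [ofReal_integral_eq_lintegral_ofReal hf.sq.integrable]
  exact Eventually.of_forall (fun x => sq_nonneg _)

theorem mean_sq (B : Blk) {f : ℝ → ℝ} (hf : CB f) :
    ∫⁻ t in Icc (1:ℝ) 2, nsq (B.D t f) ≤ ENNReal.ofReal B.Q * nsq f := by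
  obtain ⟨R₀, h0, hs⟩ := hf.supp
  set R := R₀ + 2 * B.a B.n with hR
  have hR0 : 0 ≤ R := by
    have := B.nonneg (y := B.n) le_rfl
    linarith
  have h1 := mean_sq_R B hf h0 hs (R := R) le_rfl
  have hc : Continuous (fun t => ∫ x in (-R)..R, B.D t f x ^ 2) := by
    apply intervalIntegral.continuous_parametric_intervalIntegral_of_continuous'
    exact (D_cont1 B hf.cont).pow 2
  have e1 : ∫⁻ t in Icc (1:ℝ) 2, nsq (B.D t f) =
      ∫⁻ t in Icc (1:ℝ) 2, ENNReal.ofReal (∫ x in (-R)..R, B.D t f x ^ 2) := by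
    apply setLIntegral_congr_fun measurableSet_Icc
    intro t ht
    show nsq (B.D t f) = _
    rw [nsq_eq (D_CB B hf ht), int_eq_interval hR0]
    intro x hx
    rw [D_supp B hs ht x hx]; norm_num
  rw [e1, ← ofReal_integral_eq_lintegral_ofReal]
  · rw [integral_Icc_eq_integral_Ioc, ← intervalIntegral.integral_of_le (by norm_num),
      nsq_eq hf, ← ENNReal.ofReal_mul']
    · exact ENNReal.ofReal_le_ofReal h1
    · exact integral_nonneg (fun x => sq_nonneg _)
  · exact hc.integrableOn_Icc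
  · refine Eventually.of_forall (fun t => ?_)
    apply intervalIntegral.integral_nonneg (by linarith)
    intro x _
    exact sq_nonneg _

/-- the iterated error -/
noncomputable def TD : (s : ℕ) → (Fin s → Blk) → (Fin s → ℝ) → (ℝ → ℝ) → ℝ → ℝ
  | 0, _, _, f => f
  | s+1, B, α, f => TD s (fun i => B i.succ) (fun i => α i.succ) ((B 0).D (α 0) f)

theorem TD_cont : ∀ (s : ℕ) (B : Fin s → Blk) {Γ : Type} [TopologicalSpace Γ]
    [FirstCountableTopology Γ] [LocallyCompactSpace Γ] {F : Γ → ℝ → ℝ}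
    (_ : Continuous (fun p : Γ × ℝ => F p.1 p.2)) {τ : Γ → Fin s → ℝ} (_ : Continuous τ),
    Continuous (fun p : Γ × ℝ => TD s B (τ p.1) (F p.1) p.2)
  | 0, _, _, _, _, _, _, hF, _, _ => hF
  | s+1, B, Γ, _, _, _, F, hF, τ, hτ => by
      simp only [TD]
      have h0 : Continuous (fun γ => τ γ 0) := (continuous_apply 0).comp hτ
      have h1 : Continuous (fun γ (i : Fin s) => τ γ i.succ) := by fun_prop
      exact TD_cont s (fun i => B i.succ) (F := fun γ => (B 0).D (τ γ 0) (F γ))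
        (D_cont (B 0) hF h0) (τ := fun γ i => τ γ i.succ) h1

/-- the measure on the box `[1, 2] ^ s` -/
noncomputable def box (s : ℕ) : Measure (Fin s → ℝ) :=
  Measure.pi (fun _ => volume.restrict (Icc (1:ℝ) 2))

instance (s : ℕ) : IsFiniteMeasure (box s) := by
  unfold box; infer_instance

theorem TD_mean : ∀ (s : ℕ) (B : Fin s → Blk) {f : ℝ → ℝ} (_ : CB f),
    ∫⁻ α, nsq (TD s B α f) ∂(box s) ≤ (∏ i, ENNReal.ofReal (B i).Q) * nsq f
  | 0, B, f, _ => by
      simp only [TD, box]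
      rw [lintegral_const]
      simp
  | s+1, B, f, hf => by
      have hmp := (measurePreserving_piFinSuccAbove
        (fun _ : Fin (s+1) => (volume.restrict (Icc (1:ℝ) 2) : Measure ℝ)) 0).symm
      have e1 : ∫⁻ α, nsq (TD (s+1) B α f) ∂(box (s+1)) =
          ∫⁻ p : ℝ × (Fin s → ℝ), nsq (TD s (fun i => B i.succ) p.2 ((B 0).D p.1 f))
            ∂((volume.restrict (Icc (1:ℝ) 2)).prod (box s)) := by
        rw [box, ← hmp.lintegral_comp_emb (MeasurableEquiv.measurableEmbedding _)]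
        apply lintegral_congr
        intro p
        simp only [TD, MeasurableEquiv.piFinSuccAbove_symm_apply, Fin.insertNthEquiv_apply,
          Fin.insertNth_zero, Fin.cons_zero, Fin.cons_succ]
        rfl
      rw [e1]
      have hm : Measurable (fun p : ℝ × (Fin s → ℝ) =>
          nsq (TD s (fun i => B i.succ) p.2 ((B 0).D p.1 f))) := by
        unfold nsq
        apply Measurable.lintegral_prod_right'
          (f := fun q : (ℝ × (Fin s → ℝ)) × ℝ =>
            ENNReal.ofReal (TD s (fun i => B i.succ) q.1.2 ((B 0).D q.1.1 f) q.2 ^ 2))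
        apply ENNReal.measurable_ofReal.comp
        apply Continuous.measurable
        apply Continuous.pow
        exact TD_cont s (fun i => B i.succ) (Γ := ℝ × (Fin s → ℝ))
          (F := fun γ => (B 0).D γ.1 f)
          (D_cont (B 0) (F := fun _ : ℝ × (Fin s → ℝ) => f) (hf.cont.comp continuous_snd)
            continuous_fst) (τ := fun γ => γ.2) continuous_snd
      rw [lintegral_prod _ hm.aemeasurable]
      calc _ ≤ ∫⁻ t in Icc (1:ℝ) 2, (∏ i : Fin s, ENNReal.ofReal (B i.succ).Q) *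
            nsq ((B 0).D t f) := by
            apply setLIntegral_mono_ae' measurableSet_Icc
            refine Eventually.of_forall (fun t ht => ?_)
            exact TD_mean s (fun i => B i.succ) (D_CB (B 0) hf ht)
        _ = (∏ i : Fin s, ENNReal.ofReal (B i.succ).Q) *
            ∫⁻ t in Icc (1:ℝ) 2, nsq ((B 0).D t f) := by
            rw [lintegral_const_mul']
            exact ENNReal.prod_ne_top (fun i _ => ENNReal.ofReal_ne_top)
        _ ≤ (∏ i : Fin s, ENNReal.ofReal (B i.succ).Q) *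
            (ENNReal.ofReal (B 0).Q * nsq f) := by
            gcongr
            exact mean_sq (B 0) hf
        _ = _ := by
            rw [Fin.prod_univ_succ]; ring

end Pool.Agent.K7.H77.WG
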