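import Pool.Agent.K7.H77.WG.Ac

/-! # The mean square over dilations of the error of a Riemann sum -/

set_option autoImplicit false

namespace Pool.Agent.K7.H77.WG

open MeasureTheory Set Filter

/-- nodes `a 0 < ... < a n` with gaps at most `G` and separation at least `g`, and tags -/
structure Blk where
  n : ℕ
  a : ℕ → ℝ
  b : ℕ → ℝ
  G : ℝ
  g : ℝ
  g_pos : 0 < g
  a0 : 0 ≤ a 0
  sep : ∀ z y : ℕ, z ≤ y → y ≤ n → g * ((y : ℝ) - z) ≤ a y - a z
  gap : ∀ y, y < n → a (y + 1) - a y ≤ G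
  tag : ∀ y, y < n → a y ≤ b y ∧ b y ≤ a (y + 1)

namespace Blk

variable (B : Blk)

theorem mono {z y : ℕ} (hzy : z ≤ y) (hy : y ≤ B.n) : B.a z ≤ B.a y := by
  have h1 := B.sep z y hzy hy
  have h2 : (0:ℝ) ≤ (y:ℝ) - z := by
    have : (z:ℝ) ≤ y := by exact_mod_cast hzy
    linarith
  have := mul_nonneg B.g_pos.le h2
  linarith

theorem step_nonneg {y : ℕ} (hy : y < B.n) : 0 ≤ B.a (y+1) - B.a y := by
  have := B.mono (Nat.le_succ y) hy
  linarith

theorem nonneg {y : ℕ} (hy : y ≤ B.n) : 0 ≤ B.a y := B.a0.trans (B.mono (Nat.zero_le y) hy)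

theorem g_le_G (h : 0 < B.n) : B.g ≤ B.G := by
  have h1 := B.sep 0 1 (by norm_num) h
  have h2 := B.gap 0 h
  norm_num at h1 h2
  linarith

theorem G_pos (h : 0 < B.n) : 0 < B.G := lt_of_lt_of_le B.g_pos (B.g_le_G h)

/-- one cell of the error -/
noncomputable def Dc (t : ℝ) (f : ℝ → ℝ) (y : ℕ) (x : ℝ) : ℝ :=
  ∫ v in (B.a y)..(B.a (y+1)), (f (x - t * B.b y) - f (x - t * v))

/-- the error of the Riemann sum -/
noncomputable def D (t : ℝ) (f : ℝ → ℝ) (x : ℝ) : ℝ :=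
  ∑ y ∈ Finset.range B.n, B.Dc t f y x

end Blk

theorem swap2 {F : ℝ → ℝ → ℝ} (hF : Continuous (fun p : ℝ × ℝ => F p.1 p.2)) (a b c d : ℝ) :
    ∫ x in a..b, ∫ y in c..d, F x y = ∫ y in c..d, ∫ x in a..b, F x y := by
  apply intervalIntegral_intervalIntegral_swap
  have h1 : IntegrableOn (Function.uncurry F) (uIcc a b ×ˢ uIcc c d) :=
    (hF.continuousOn).integrableOn_compact (isCompact_uIcc.prod isCompact_uIcc)
  exact h1.mono_set (Set.prod_mono uIoc_subset_uIcc uIoc_subset_uIcc)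

theorem bd {h : ℝ → ℝ → ℝ → ℝ} {k : ℝ → ℝ → ℝ}
    (hh : Continuous (fun p : ℝ × ℝ × ℝ => h p.1 p.2.1 p.2.2))
    (hk : Continuous (fun p : ℝ × ℝ => k p.1 p.2)) {p q R M : ℝ} (hpq : p ≤ q)
    (hM : ∀ v ∈ Icc p q, |∫ t in (1:ℝ)..2, ∫ x in (-R)..R, h v t x * k t x| ≤ M) :
    |∫ t in (1:ℝ)..2, ∫ x in (-R)..R, (∫ v in p..q, h v t x) * k t x| ≤ (q - p) * M := by
  have e1 : (∫ t in (1:ℝ)..2, ∫ x in (-R)..R, (∫ v in p..q, h v t x) * k t x)
      = ∫ v in p..q, ∫ t in (1:ℝ)..2, ∫ x in (-R)..R, h v t x * k t x := by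
    have hc : Continuous (fun p : ℝ × ℝ × ℝ => h p.1 p.2.1 p.2.2 * k p.2.1 p.2.2) :=
      hh.mul (hk.comp continuous_snd)
    rw [swap2 (F := fun v t => ∫ x in (-R)..R, h v t x * k t x)]
    · apply intervalIntegral.integral_congr
      intro t _
      show (∫ x in (-R)..R, (∫ v in p..q, h v t x) * k t x) =
        ∫ v in p..q, ∫ x in (-R)..R, h v t x * k t x
      rw [swap2 (F := fun v x => h v t x * k t x)]
      · apply intervalIntegral.integral_congr
        intro x _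
        show (∫ v in p..q, h v t x) * k t x = ∫ v in p..q, h v t x * k t x
        rw [intervalIntegral.integral_mul_const]
      · exact hc.comp (by fun_prop : Continuous (fun p : ℝ × ℝ => ((p.1, t, p.2) : ℝ × ℝ × ℝ)))
    · apply intervalIntegral.continuous_parametric_intervalIntegral_of_continuous'
      show Continuous (fun r : (ℝ × ℝ) × ℝ => h r.1.1 r.1.2 r.2 * k r.1.2 r.2)
      exact hc.comp (by fun_prop :
        Continuous (fun r : (ℝ × ℝ) × ℝ => ((r.1.1, r.1.2, r.2) : ℝ × ℝ × ℝ)))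
  rw [e1]
  have := intervalIntegral.norm_integral_le_of_norm_le_const (a := p) (b := q)
    (f := fun v => ∫ t in (1:ℝ)..2, ∫ x in (-R)..R, h v t x * k t x) (C := M) (fun v hv => by
      rw [Real.norm_eq_abs]
      apply hM
      rw [uIoc_of_le hpq] at hv
      exact ⟨hv.1.le, hv.2⟩)
  rw [Real.norm_eq_abs, abs_of_nonneg (by linarith : 0 ≤ q - p)] at this
  linarith

/-- the difference of two translates -/
def psi (f : ℝ → ℝ) (b v t x : ℝ) : ℝ := f (x - t * b) - f (x - t * v)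

theorem int_eq_interval {h : ℝ → ℝ} {R : ℝ} (hR0 : 0 ≤ R) (hR : ∀ x, R < |x| → h x = 0) :
    ∫ x, h x = ∫ x in (-R)..R, h x := by
  rw [intervalIntegral.integral_of_le (by linarith), ← integral_Icc_eq_integral_Ioc,
    setIntegral_eq_integral_of_forall_compl_eq_zero]
  intro x hx
  apply hR
  by_contra h2
  apply hx
  rw [mem_Icc, ← abs_le]; linarith

theorem gramR {f : ℝ → ℝ} {R₀ V R : ℝ} (hR₀ : 0 ≤ R₀) (hs : ∀ x, R₀ < |x| → f x = 0)
    (hV : 0 ≤ V) (hR : R₀ + 2 * V ≤ R) {a b t : ℝ} (ha0 : 0 ≤ a) (ha : a ≤ V)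
    (ht : t ∈ Icc (1:ℝ) 2) :
    ∫ x in (-R)..R, f (x - t * a) * f (x - t * b) = ac f (t * (a - b)) := by
  rw [← gram, int_eq_interval (R := R) (by linarith)]
  intro x hx
  have : R₀ < |x - t * a| := by
    have h1 : |t * a| ≤ 2 * V := by
      rw [abs_of_nonneg (mul_nonneg (by linarith [ht.1]) ha0)]
      nlinarith [ht.1, ht.2]
    have h2 := abs_sub_abs_le_abs_sub x (t * a)
    linarith
  rw [hs _ this]; ring

theorem psi_gram {f : ℝ → ℝ} (hf : CB f) {R₀ V R : ℝ} (hR₀ : 0 ≤ R₀)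
    (hs : ∀ x, R₀ < |x| → f x = 0)
    (hV : 0 ≤ V) (hR : R₀ + 2 * V ≤ R) {b v b' v' : ℝ} (hb : b ∈ Icc 0 V) (hv : v ∈ Icc 0 V) :
    ∫ t in (1:ℝ)..2, ∫ x in (-R)..R, psi f b v t x * psi f b' v' t x =
      ph f (b - b') - ph f (b - v') - ph f (v - b') + ph f (v - v') := by
  have e1 : ∀ t ∈ uIcc (1:ℝ) 2, (∫ x in (-R)..R, psi f b v t x * psi f b' v' t x) =
      ac f (t * (b - b')) - ac f (t * (b - v')) - ac f (t * (v - b')) + ac f (t * (v - v')) := by
    intro t ht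
    rw [uIcc_of_le (by norm_num)] at ht
    have hfc := hf.cont
    have c : ∀ a b : ℝ, IntervalIntegrable (fun x => f (x - t * a) * f (x - t * b)) volume (-R) R :=
      fun a b => (by fun_prop : Continuous (fun x => f (x - t * a) * f (x - t * b))).intervalIntegrable _ _
    rw [← gramR hR₀ hs hV hR hb.1 hb.2 ht, ← gramR hR₀ hs hV hR hb.1 hb.2 ht,
      ← gramR hR₀ hs hV hR hv.1 hv.2 ht, ← gramR hR₀ hs hV hR hv.1 hv.2 ht,
      ← intervalIntegral.integral_sub (c _ _) (c _ _),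
      ← intervalIntegral.integral_sub ((c _ _).sub (c _ _)) (c _ _),
      ← intervalIntegral.integral_add (((c _ _).sub (c _ _)).sub (c _ _)) (c _ _)]
    apply intervalIntegral.integral_congr
    intro x _
    simp only [psi]
    ring
  rw [intervalIntegral.integral_congr e1]
  have hac := ac_cont hf
  have c : ∀ a : ℝ, IntervalIntegrable (fun t => ac f (t * a)) volume 1 2 :=
    fun a => (by fun_prop : Continuous (fun t => ac f (t * a))).intervalIntegrable _ _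
  unfold ph
  rw [← intervalIntegral.integral_sub (c _) (c _),
      ← intervalIntegral.integral_sub ((c _).sub (c _)) (c _),
      ← intervalIntegral.integral_add (((c _).sub (c _)).sub (c _)) (c _)]

theorem psi_cont {f : ℝ → ℝ} (hf : Continuous f) (b : ℝ) :
    Continuous (fun p : ℝ × ℝ × ℝ => psi f b p.1 p.2.1 p.2.2) := by
  unfold psi
  fun_prop

theorem Dc_cont (B : Blk) {f : ℝ → ℝ} (hf : Continuous f) (y : ℕ) :
    Continuous (fun p : ℝ × ℝ => B.Dc p.1 f y p.2) := by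
  unfold Blk.Dc
  apply intervalIntegral.continuous_parametric_intervalIntegral_of_continuous'
  show Continuous (fun r : (ℝ × ℝ) × ℝ => f (r.1.2 - r.1.1 * B.b y) - f (r.1.2 - r.1.1 * r.2))
  fun_prop

theorem Dc_eq (B : Blk) (t : ℝ) (f : ℝ → ℝ) (y : ℕ) (x : ℝ) :
    B.Dc t f y x = ∫ v in (B.a y)..(B.a (y+1)), psi f (B.b y) v t x := rfl

/-- pairs of cells: from a bound for the kernel to a bound for the integral -/
theorem cellpair (B : Blk) {f : ℝ → ℝ} (hf : CB f) {R₀ R : ℝ} (hR₀ : 0 ≤ R₀)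
    (hs : ∀ x, R₀ < |x| → f x = 0) (hR : R₀ + 2 * B.a B.n ≤ R) {y z : ℕ} (hy : y < B.n)
    (hz : z < B.n) {M : ℝ}
    (hM : ∀ v ∈ Icc (B.a y) (B.a (y+1)), ∀ v' ∈ Icc (B.a z) (B.a (z+1)),
      |ph f (B.b y - B.b z) - ph f (B.b y - v') - ph f (v - B.b z) + ph f (v - v')| ≤ M) :
    |∫ t in (1:ℝ)..2, ∫ x in (-R)..R, B.Dc t f y x * B.Dc t f z x| ≤
      (B.a (y+1) - B.a y) * ((B.a (z+1) - B.a z) * M) := by
  have hV : 0 ≤ B.a B.n := B.nonneg le_rfl
  have hin : ∀ y, y < B.n → ∀ v ∈ Icc (B.a y) (B.a (y+1)), v ∈ Icc 0 (B.a B.n) := by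
    intro y hy v hv
    exact ⟨(B.nonneg hy.le).trans hv.1, hv.2.trans (B.mono hy le_rfl)⟩
  simp only [Dc_eq B _ f y]
  apply bd (psi_cont hf.cont _) (Dc_cont B hf.cont z) (B.mono (Nat.le_succ y) hy)
  intro v hv
  have e : (∫ t in (1:ℝ)..2, ∫ x in (-R)..R, psi f (B.b y) v t x * B.Dc t f z x) =
      ∫ t in (1:ℝ)..2, ∫ x in (-R)..R,
        (∫ v' in (B.a z)..(B.a (z+1)), psi f (B.b z) v' t x) * psi f (B.b y) v t x := by
    simp only [Dc_eq B _ f z]
    congr 1; funext t; congr 1; funext x; ring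
  rw [e]
  apply bd (psi_cont hf.cont _) ?_ (B.mono (Nat.le_succ z) hz)
  · intro v' hv'
    have e2 : (∫ t in (1:ℝ)..2, ∫ x in (-R)..R, psi f (B.b z) v' t x * psi f (B.b y) v t x) =
        ∫ t in (1:ℝ)..2, ∫ x in (-R)..R, psi f (B.b y) v t x * psi f (B.b z) v' t x := by
      congr 1; funext t; congr 1; funext x; ring
    rw [e2, psi_gram hf hR₀ hs hV hR (hin y hy _ (B.tag y hy)) (hin y hy _ hv)]
    exact hM v hv v' hv'
  · unfold psi
    have := hf.cont
    fun_prop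

theorem kernel_near {f : ℝ → ℝ} (hf : CB f) (p q r s : ℝ) :
    |ph f p - ph f q - ph f r + ph f s| ≤ 4 * ∫ x, f x ^ 2 := by
  have h1 := abs_ph_le hf p
  have h2 := abs_ph_le hf q
  have h3 := abs_ph_le hf r
  have h4 := abs_ph_le hf s
  rw [abs_le] at *
  constructor <;> linarith [h1.1, h1.2, h2.1, h2.2, h3.1, h3.2, h4.1, h4.2]

theorem cell_near (B : Blk) {f : ℝ → ℝ} (hf : CB f) {R₀ R : ℝ} (hR₀ : 0 ≤ R₀)
    (hs : ∀ x, R₀ < |x| → f x = 0) (hR : R₀ + 2 * B.a B.n ≤ R) {y z : ℕ} (hy : y < B.n)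
    (hz : z < B.n) :
    |∫ t in (1:ℝ)..2, ∫ x in (-R)..R, B.Dc t f y x * B.Dc t f z x| ≤
      4 * (∫ x, f x ^ 2) * B.G ^ 2 := by
  have hA : 0 ≤ ∫ x, f x ^ 2 := integral_nonneg (fun x => sq_nonneg _)
  refine (cellpair B hf hR₀ hs hR hy hz (M := 4 * ∫ x, f x ^ 2)
    (fun v _ v' _ => kernel_near hf _ _ _ _)).trans ?_
  have h1 := B.gap y hy
  have h2 := B.gap z hz
  have h3 := B.step_nonneg hy
  have h4 := B.step_nonneg hz
  calc _ ≤ B.G * (B.G * (4 * ∫ x, f x ^ 2)) := by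
        apply mul_le_mul h1 (mul_le_mul_of_nonneg_right h2 (by positivity))
          (mul_nonneg h4 (by positivity)) (h3.trans h1)
    _ = _ := by ring

theorem cell_far (B : Blk) {f : ℝ → ℝ} (hf : CB f) {R₀ R : ℝ} (hR₀ : 0 ≤ R₀)
    (hs : ∀ x, R₀ < |x| → f x = 0) (hR : R₀ + 2 * B.a B.n ≤ R) {y z : ℕ} (hy : y < B.n)
    (hz : z + 2 ≤ y) :
    |∫ t in (1:ℝ)..2, ∫ x in (-R)..R, B.Dc t f y x * B.Dc t f z x| ≤
      8 * (∫ x, f x ^ 2) * B.G ^ 3 / (B.g * ((y:ℝ) - z - 1)) := by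
  have hA : 0 ≤ ∫ x, f x ^ 2 := integral_nonneg (fun x => sq_nonneg _)
  have hzn : z < B.n := by omega
  have hd : (1:ℝ) ≤ (y:ℝ) - z - 1 := by
    have : ((z + 2 : ℕ) : ℝ) ≤ y := by exact_mod_cast hz
    push_cast at this
    linarith
  have hm : 0 < B.g * ((y:ℝ) - z - 1) := mul_pos B.g_pos (by linarith)
  have hsep := B.sep (z+1) y (by omega) hy.le
  push_cast at hsep
  have hsep' : B.g * ((y:ℝ) - z - 1) ≤ B.a y - B.a (z+1) := by
    have : (y:ℝ) - (z + 1) = (y:ℝ) - z - 1 := by ring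
    rwa [this] at hsep
  have hG : 0 ≤ B.G := (B.G_pos (by omega)).le
  have key : ∀ v ∈ Icc (B.a y) (B.a (y+1)), ∀ v' ∈ Icc (B.a z) (B.a (z+1)),
      |ph f (B.b y - B.b z) - ph f (B.b y - v') - ph f (v - B.b z) + ph f (v - v')| ≤
        8 * (∫ x, f x ^ 2) * B.G / (B.g * ((y:ℝ) - z - 1)) := by
    intro v hv v' hv'
    have ty := B.tag y hy
    have tz := B.tag z hzn
    have gz := B.gap z hzn
    have l1 := ph_lip' hf (p := B.b y - B.b z) (q := B.b y - v') hm (by linarith [hv'.2])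
      (by linarith [hv'.2])
    have l2 := ph_lip' hf (p := v - B.b z) (q := v - v') hm (by linarith [hv.1, hv'.2])
      (by linarith [hv.1, hv'.2])
    have d1 : |B.b y - B.b z - (B.b y - v')| ≤ B.G := by
      rw [abs_le]; constructor <;> linarith [hv'.1, hv'.2]
    have d2 : |v - B.b z - (v - v')| ≤ B.G := by
      rw [abs_le]; constructor <;> linarith [hv'.1, hv'.2]
    have m1 : 4 * (∫ x, f x ^ 2) * |B.b y - B.b z - (B.b y - v')| / (B.g * ((y:ℝ) - z - 1)) ≤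
        4 * (∫ x, f x ^ 2) * B.G / (B.g * ((y:ℝ) - z - 1)) := by gcongr
    have m2 : 4 * (∫ x, f x ^ 2) * |v - B.b z - (v - v')| / (B.g * ((y:ℝ) - z - 1)) ≤
        4 * (∫ x, f x ^ 2) * B.G / (B.g * ((y:ℝ) - z - 1)) := by gcongr
    have e : ph f (B.b y - B.b z) - ph f (B.b y - v') - ph f (v - B.b z) + ph f (v - v') =
      (ph f (B.b y - B.b z) - ph f (B.b y - v')) - (ph f (v - B.b z) - ph f (v - v')) := by ring
    rw [e]
    refine (abs_sub _ _).trans ?_
    calc _ ≤ 4 * (∫ x, f x ^ 2) * B.G / (B.g * ((y:ℝ) - z - 1)) +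
          4 * (∫ x, f x ^ 2) * B.G / (B.g * ((y:ℝ) - z - 1)) :=
          add_le_add (l1.trans m1) (l2.trans m2)
      _ = _ := by ring
  refine (cellpair B hf hR₀ hs hR hy hzn key).trans ?_
  have h1 := B.gap y hy
  have h2 := B.gap z hzn
  have h3 := B.step_nonneg hy
  have h4 := B.step_nonneg hzn
  have hM : 0 ≤ 8 * (∫ x, f x ^ 2) * B.G / (B.g * ((y:ℝ) - z - 1)) := by positivity
  calc _ ≤ B.G * (B.G * (8 * (∫ x, f x ^ 2) * B.G / (B.g * ((y:ℝ) - z - 1)))) := by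
        apply mul_le_mul h1 (mul_le_mul_of_nonneg_right h2 hM) (mul_nonneg h4 hM) (h3.trans h1)
    _ = _ := by ring

/-- a uniform form of the two bounds -/
theorem cell_le (B : Blk) {f : ℝ → ℝ} (hf : CB f) {R₀ R : ℝ} (hR₀ : 0 ≤ R₀)
    (hs : ∀ x, R₀ < |x| → f x = 0) (hR : R₀ + 2 * B.a B.n ≤ R) {y z : ℕ} (hy : y < B.n)
    (hzy : z ≤ y) :
    |∫ t in (1:ℝ)..2, ∫ x in (-R)..R, B.Dc t f y x * B.Dc t f z x| ≤
      24 * (∫ x, f x ^ 2) * (B.G ^ 3 / B.g) * (1 / ((y:ℝ) - z + 1)) := by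
  have hA : 0 ≤ ∫ x, f x ^ 2 := integral_nonneg (fun x => sq_nonneg _)
  have hG : 0 < B.G := B.G_pos (by omega)
  have hg := B.g_pos
  have hgG := B.g_le_G (by omega)
  have hyz : (z:ℝ) ≤ y := by exact_mod_cast hzy
  rcases Nat.lt_or_ge y (z + 2) with h | h
  · refine (cell_near B hf hR₀ hs hR hy (by omega)).trans ?_
    have h1 : (y:ℝ) - z + 1 ≤ 2 := by
      have : (y:ℝ) < z + 2 := by exact_mod_cast h
      have : (y:ℝ) ≤ z + 1 := by exact_mod_cast (by omega : y ≤ z + 1)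
      linarith
    have h2 : (1:ℝ) / 2 ≤ 1 / ((y:ℝ) - z + 1) := by
      apply one_div_le_one_div_of_le (by linarith) h1
    have h3 : B.G ^ 2 ≤ B.G ^ 3 / B.g := by
      rw [le_div_iff₀ hg]
      nlinarith [sq_nonneg B.G]
    calc 4 * (∫ x, f x ^ 2) * B.G ^ 2 ≤ 24 * (∫ x, f x ^ 2) * (B.G ^ 3 / B.g) * (1/2) := by
          have : (∫ x, f x ^ 2) * B.G ^ 2 ≤ (∫ x, f x ^ 2) * (B.G ^ 3 / B.g) :=
            mul_le_mul_of_nonneg_left h3 hA
          have h5 : 0 ≤ (∫ x, f x ^ 2) * B.G ^ 2 := by positivity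
          nlinarith
      _ ≤ _ := by gcongr
  · refine (cell_far B hf hR₀ hs hR hy h).trans ?_
    have hd : (1:ℝ) ≤ (y:ℝ) - z - 1 := by
      have : ((z + 2 : ℕ) : ℝ) ≤ y := by exact_mod_cast h
      push_cast at this
      linarith
    have h1 : (1:ℝ) / ((y:ℝ) - z - 1) ≤ 3 * (1 / ((y:ℝ) - z + 1)) := by
      rw [mul_one_div, div_le_div_iff₀ (by linarith) (by linarith)]
      linarith
    calc 8 * (∫ x, f x ^ 2) * B.G ^ 3 / (B.g * ((y:ℝ) - z - 1))
        = 8 * (∫ x, f x ^ 2) * (B.G ^ 3 / B.g) * (1 / ((y:ℝ) - z - 1)) := by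
          field_simp
      _ ≤ 8 * (∫ x, f x ^ 2) * (B.G ^ 3 / B.g) * (3 * (1 / ((y:ℝ) - z + 1))) := by gcongr
      _ = _ := by ring

theorem sum_inv_le (n y : ℕ) (hy : y < n) :
    ∑ z ∈ Finset.range n, (1:ℝ) / (|(y:ℝ) - z| + 1) ≤ 2 * (1 + Real.log n) := by
  have hH : (∑ d ∈ Finset.range n, (1:ℝ) / ((d:ℝ) + 1)) ≤ 1 + Real.log n := by
    have := harmonic_le_one_add_log n
    have e : ((harmonic n : ℚ) : ℝ) = ∑ d ∈ Finset.range n, (1:ℝ) / ((d:ℝ) + 1) := by
      unfold harmonic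
      push_cast
      apply Finset.sum_congr rfl
      intro d _
      rw [one_div]
    rwa [e] at this
  have h0 : ∀ d ∈ Finset.range n, (0:ℝ) ≤ (1:ℝ) / ((d:ℝ) + 1) := fun d _ => by positivity
  have e : Finset.range n = Finset.range (y+1) ∪ Finset.Ico (y+1) n := by
    ext d; simp only [Finset.mem_range, Finset.mem_union, Finset.mem_Ico]; omega
  have hdis : Disjoint (Finset.range (y+1)) (Finset.Ico (y+1) n) := by
    rw [Finset.disjoint_left]; intro d; simp only [Finset.mem_range, Finset.mem_Ico]; omega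
  have s1 : ∑ z ∈ Finset.range (y+1), (1:ℝ) / (|(y:ℝ) - z| + 1) ≤ 1 + Real.log n := by
    rw [← Finset.sum_range_reflect]
    refine le_trans ?_ ((Finset.sum_le_sum_of_subset_of_nonneg (s := Finset.range (y+1))
      (by intro d; simp only [Finset.mem_range]; omega) (fun d h _ => h0 d h)).trans hH)
    apply Finset.sum_le_sum
    intro d hd
    rw [Finset.mem_range] at hd
    have : ((y + 1 - 1 - d : ℕ) : ℝ) = (y:ℝ) - d := by
      rw [Nat.add_sub_cancel, Nat.cast_sub (by omega)]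
    rw [this, show (y:ℝ) - ((y:ℝ) - d) = d by ring, abs_of_nonneg (by positivity)]
  have s2 : ∑ z ∈ Finset.Ico (y+1) n, (1:ℝ) / (|(y:ℝ) - z| + 1) ≤ 1 + Real.log n := by
    rw [Finset.sum_Ico_eq_sum_range]
    refine le_trans ?_ ((Finset.sum_le_sum_of_subset_of_nonneg (s := Finset.range (n - (y+1)))
      (by intro d; simp only [Finset.mem_range]; omega) (fun d h _ => h0 d h)).trans hH)
    apply Finset.sum_le_sum
    intro d hd
    push_cast
    rw [show (y:ℝ) - ((y:ℝ) + 1 + d) = -(d + 1) by ring, abs_neg, abs_of_nonneg (by positivity)]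
    apply one_div_le_one_div_of_le (by positivity)
    linarith
  rw [e, Finset.sum_union hdis]
  linarith

/-- **The mean square of the error of a Riemann sum over dilations.** -/
theorem mean_sq_R (B : Blk) {f : ℝ → ℝ} (hf : CB f) {R₀ R : ℝ} (hR₀ : 0 ≤ R₀)
    (hs : ∀ x, R₀ < |x| → f x = 0) (hR : R₀ + 2 * B.a B.n ≤ R) :
    ∫ t in (1:ℝ)..2, ∫ x in (-R)..R, B.D t f x ^ 2 ≤
      48 * (B.G ^ 3 / B.g) * B.n * (1 + Real.log B.n) * (∫ x, f x ^ 2) := by
  have hA : 0 ≤ ∫ x, f x ^ 2 := integral_nonneg (fun x => sq_nonneg _)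
  have hg := B.g_pos
  have e1 : (∫ t in (1:ℝ)..2, ∫ x in (-R)..R, B.D t f x ^ 2) =
      ∑ y ∈ Finset.range B.n, ∑ z ∈ Finset.range B.n,
        ∫ t in (1:ℝ)..2, ∫ x in (-R)..R, B.Dc t f y x * B.Dc t f z x := by
    have c2 : ∀ y z, Continuous (fun p : ℝ × ℝ => B.Dc p.1 f y p.2 * B.Dc p.1 f z p.2) :=
      fun y z => (Dc_cont B hf.cont y).mul (Dc_cont B hf.cont z)
    have c1 : ∀ y z, Continuous (fun t => ∫ x in (-R)..R, B.Dc t f y x * B.Dc t f z x) := by
      intro y z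
      apply intervalIntegral.continuous_parametric_intervalIntegral_of_continuous'
      exact c2 y z
    have c3 : ∀ t y z, IntervalIntegrable (fun x => B.Dc t f y x * B.Dc t f z x) volume (-R) R := by
      intro t y z
      apply Continuous.intervalIntegrable
      exact (c2 y z).comp (by fun_prop : Continuous (fun x : ℝ => ((t, x) : ℝ × ℝ)))
    have e2 : ∀ t, (∫ x in (-R)..R, B.D t f x ^ 2) = ∑ y ∈ Finset.range B.n,
        ∑ z ∈ Finset.range B.n, ∫ x in (-R)..R, B.Dc t f y x * B.Dc t f z x := by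
      intro t
      have : ∀ x, B.D t f x ^ 2 = ∑ y ∈ Finset.range B.n, ∑ z ∈ Finset.range B.n,
          B.Dc t f y x * B.Dc t f z x := by
        intro x
        rw [sq, Blk.D, Finset.sum_mul_sum]
      simp only [this]
      rw [intervalIntegral.integral_finsetSum]
      · apply Finset.sum_congr rfl
        intro y _
        rw [intervalIntegral.integral_finsetSum]
        intro z _
        exact c3 t y z
      · intro y _
        apply Continuous.intervalIntegrable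
        apply continuous_finsetSum
        intro z _
        exact (c2 y z).comp (by fun_prop : Continuous (fun x : ℝ => ((t, x) : ℝ × ℝ)))
    simp only [e2]
    rw [intervalIntegral.integral_finsetSum]
    · apply Finset.sum_congr rfl
      intro y _
      rw [intervalIntegral.integral_finsetSum]
      intro z _
      exact (c1 y z).intervalIntegrable _ _
    · intro y _
      apply Continuous.intervalIntegrable
      apply continuous_finsetSum
      intro z _
      exact c1 y z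
  rw [e1]
  have hterm : ∀ y ∈ Finset.range B.n, ∀ z ∈ Finset.range B.n,
      (∫ t in (1:ℝ)..2, ∫ x in (-R)..R, B.Dc t f y x * B.Dc t f z x) ≤
        24 * (∫ x, f x ^ 2) * (B.G ^ 3 / B.g) * (1 / (|(y:ℝ) - z| + 1)) := by
    intro y hy z hz
    rw [Finset.mem_range] at hy hz
    rcases le_total z y with h | h
    · have hyz : (z:ℝ) ≤ y := by exact_mod_cast h
      have := cell_le B hf hR₀ hs hR hy h
      rw [abs_of_nonneg (by linarith : (0:ℝ) ≤ (y:ℝ) - z)]
      exact (le_abs_self _).trans this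
    · have hyz : (y:ℝ) ≤ z := by exact_mod_cast h
      have := cell_le B hf hR₀ hs hR hz h
      rw [abs_sub_comm, abs_of_nonneg (by linarith : (0:ℝ) ≤ (z:ℝ) - y)]
      refine (le_abs_self _).trans (le_trans (le_of_eq ?_) this)
      congr 2; funext t; congr 1; funext x; ring
  calc _ ≤ ∑ y ∈ Finset.range B.n, ∑ z ∈ Finset.range B.n,
        24 * (∫ x, f x ^ 2) * (B.G ^ 3 / B.g) * (1 / (|(y:ℝ) - z| + 1)) :=
        Finset.sum_le_sum fun y hy => Finset.sum_le_sum fun z hz => hterm y hy z hz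
    _ ≤ ∑ y ∈ Finset.range B.n,
        24 * (∫ x, f x ^ 2) * (B.G ^ 3 / B.g) * (2 * (1 + Real.log B.n)) := by
        apply Finset.sum_le_sum
        intro y hy
        rw [← Finset.mul_sum]
        have hy' := Finset.mem_range.mp hy
        have hG := B.G_pos (by omega)
        apply mul_le_mul_of_nonneg_left (sum_inv_le B.n y hy')
        positivity
    _ = _ := by
        rw [Finset.sum_const, Finset.card_range, nsmul_eq_mul]; ring

end Pool.Agent.K7.H77.WG
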