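import Pool.Agent.K7.H77.WG.Bad

/-! # Almost all dilations -/

set_option autoImplicit false

namespace Pool.Agent.K7.H77.WG

open MeasureTheory Set Filter Topology

theorem box_eq (s : ℕ) : box s =
    (volume : Measure (Fin s → ℝ)).restrict (Set.pi univ (fun _ => Icc (1:ℝ) 2)) := by
  unfold box
  rw [volume_pi, Measure.restrict_pi_pi]

theorem box_mem (s : ℕ) : ∀ᵐ α ∂(box s), ∀ i, α i ∈ Icc (1:ℝ) 2 := by
  rw [box_eq]
  have := ae_restrict_mem (μ := (volume : Measure (Fin s → ℝ)))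
    (MeasurableSet.univ_pi (fun _ : Fin s => measurableSet_Icc (a := (1:ℝ)) (b := 2)))
  filter_upwards [this] with α hα i
  exact hα i (mem_univ i)

/-- Borel–Cantelli along a geometric progression -/
theorem bc {Ω : Type*} [MeasurableSpace Ω] (μ : Measure Ω) (T : ℝ → Set Ω) {C q ρ : ℝ}
    (hq : 0 < q) (hρ : 1 < ρ)
    (h : ∀ᶠ X in atTop, μ (T X) ≤ ENNReal.ofReal (C * X ^ (-q))) :
    ∀ᵐ ω ∂μ, ∀ᶠ m : ℕ in atTop, ω ∉ T (ρ ^ m) := by
  have ht : Tendsto (fun m : ℕ => ρ ^ m) atTop atTop := tendsto_pow_atTop_atTop_of_one_lt hρ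
  obtain ⟨m0, hm0⟩ := eventually_atTop.mp (ht.eventually h)
  have hρ0 : 0 < ρ := by linarith
  have hr1 : ρ ^ (-q) < 1 := Real.rpow_lt_one_of_one_lt_of_neg hρ (by linarith)
  have hr0 : 0 ≤ ρ ^ (-q) := by positivity
  have e : ∀ m : ℕ, ((ρ ^ m : ℝ)) ^ (-q) = (ρ ^ (-q)) ^ m := by
    intro m
    rw [← Real.rpow_natCast ρ m, ← Real.rpow_mul hρ0.le, ← Real.rpow_natCast (ρ ^ (-q)) m,
      ← Real.rpow_mul hρ0.le]
    congr 1; ring
  have hsum : ∑' m : ℕ, μ (T (ρ ^ (m + m0))) ≠ ⊤ := by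
    have h1 : ∀ m : ℕ, μ (T (ρ ^ (m + m0))) ≤
        ENNReal.ofReal (|C| * (ρ ^ (-q)) ^ m0 * (ρ ^ (-q)) ^ m) := by
      intro m
      refine (hm0 (m + m0) (by omega)).trans (ENNReal.ofReal_le_ofReal ?_)
      rw [e, pow_add]
      calc C * ((ρ ^ (-q)) ^ m * (ρ ^ (-q)) ^ m0) ≤ |C| * ((ρ ^ (-q)) ^ m * (ρ ^ (-q)) ^ m0) := by
            gcongr; exact le_abs_self C
        _ = _ := by ring
    refine ne_top_of_le_ne_top ?_ (ENNReal.tsum_le_tsum h1)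
    have hs : Summable (fun m : ℕ => |C| * (ρ ^ (-q)) ^ m0 * (ρ ^ (-q)) ^ m) :=
      (summable_geometric_of_lt_one hr0 hr1).mul_left _
    exact hs.tsum_ofReal_ne_top
  filter_upwards [ae_eventually_notMem hsum] with ω hω
  obtain ⟨m1, hm1⟩ := eventually_atTop.mp hω
  refine eventually_atTop.mpr ⟨m1 + m0, fun m hm => ?_⟩
  have := hm1 (m - m0) (by omega)
  rwa [Nat.sub_add_cancel (by omega)] at this

/-- all large numbers are close to one of the sums -/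
def Hits {s : ℕ} (b : Fin s → ℕ → ℝ) (η : ℝ) (α : Fin s → ℝ) : Prop :=
  ∀ᶠ t : ℝ in atTop, ∃ x : Fin s → ℕ, |∑ i, α i * b i (x i) - t| < t ^ (-η)

theorem hits_of_notMem {s : ℕ} {b : Fin s → ℕ → ℝ} {η η' : ℝ} (hη : 0 ≤ η) (hη' : η < η')
    {α : Fin s → ℝ} (hα : ∀ i, α i ∈ Icc (1:ℝ) 2)
    (h : ∀ᶠ m : ℕ in atTop, α ∉ Bad b η' ((1 + 1 / (8 * (s:ℝ) + 2)) ^ m)) : Hits b η α := by
  obtain ⟨m1, hm1⟩ := eventually_atTop.mp h
  set ρ : ℝ := 1 + 1 / (8 * (s:ℝ) + 2) with hρ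
  have hs0 : (0:ℝ) ≤ s := Nat.cast_nonneg s
  have hρ1 : 1 < ρ := by
    have : 0 < 1 / (8 * (s:ℝ) + 2) := by positivity
    linarith
  have hη0 : 0 < η' := by linarith
  set σ : ℝ := ∑ i, α i with hσ
  have hσ0 : 0 ≤ σ := Finset.sum_nonneg (fun i _ => by linarith [(hα i).1])
  have hσ1 : σ ≤ 2 * s := by
    calc σ ≤ ∑ _i : Fin s, (2:ℝ) := Finset.sum_le_sum (fun i _ => (hα i).2)
      _ = _ := by simp; ring
  have hρσ : ρ * (σ + 1 / 2) ≤ σ + 3 / 4 := by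
    have h1 : 1 / (8 * (s:ℝ) + 2) * (σ + 1 / 2) ≤ 1 / 4 := by
      rw [div_mul_eq_mul_div, div_le_div_iff₀ (by positivity) (by norm_num)]
      linarith
    rw [hρ, add_mul]
    linarith
  have hM : (0:ℝ) < 2 * s + 1 := by positivity
  have hgap : ∀ᶠ t : ℝ in atTop, 2 * (2 * (s:ℝ) + 1) ^ η' ≤ t ^ (η' - η) := const_le (by linarith)
  filter_upwards [hgap, eventually_gt_atTop 0, eventually_ge_atTop (σ + 1 / 2),
    eventually_ge_atTop (ρ ^ m1 * (σ + 1 / 2))] with t ht1 ht0 ht2 ht3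
  obtain ⟨m, hm, hm'⟩ := exists_nat_pow_near (x := t / (σ + 1 / 2)) (y := ρ)
    (by rw [one_le_div (by positivity)]; exact ht2) hρ1
  have hmm : m1 ≤ m := by
    by_contra hcon
    push Not at hcon
    have h1 : ρ ^ (m + 1) ≤ ρ ^ m1 := pow_le_pow_right₀ hρ1.le hcon
    have h2 : t / (σ + 1 / 2) < ρ ^ m1 := lt_of_lt_of_le hm' h1
    rw [div_lt_iff₀ (by positivity)] at h2
    linarith
  have hb := hm1 m hmm
  set X : ℝ := ρ ^ m with hX
  have hX0 : 0 < X := by positivity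
  rw [le_div_iff₀ (by positivity)] at hm
  rw [div_lt_iff₀ (by positivity), pow_succ] at hm'
  have ht4 : t ≤ X * (σ + 3 / 4) := by
    calc t ≤ X * ρ * (σ + 1 / 2) := hm'.le
      _ = X * (ρ * (σ + 1 / 2)) := by ring
      _ ≤ _ := by gcongr
  have hex : ∃ x : Fin s → ℕ, |t - ∑ i, α i * b i (x i)| < 2 * X ^ (-η') := by
    by_contra hcon
    push Not at hcon
    exact hb ⟨hα, t, hm, ht4, hcon⟩
  obtain ⟨x, hx⟩ := hex
  refine ⟨x, ?_⟩
  rw [abs_sub_comm]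
  refine lt_of_lt_of_le hx ?_
  have hXt : t / (2 * s + 1) ≤ X := by
    rw [div_le_iff₀ hM]
    calc t ≤ X * (σ + 3 / 4) := ht4
      _ ≤ X * (2 * s + 1) := by
        apply mul_le_mul_of_nonneg_left _ hX0.le
        linarith
  calc 2 * X ^ (-η') ≤ 2 * (t / (2 * s + 1)) ^ (-η') := by
        gcongr 2 * ?_
        exact Real.rpow_le_rpow_of_nonpos (by positivity) hXt (by linarith)
    _ = 2 * (2 * (s:ℝ) + 1) ^ η' * t ^ (-η') := by
      rw [Real.div_rpow ht0.le hM.le, Real.rpow_neg hM.le, div_inv_eq_mul]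
      ring
    _ ≤ t ^ (η' - η) * t ^ (-η') := by gcongr
    _ = t ^ (-η) := by rw [← Real.rpow_add ht0]; congr 1; ring

theorem box_hits {s : ℕ} {c l : Fin (s+1) → ℝ} {b : Fin (s+1) → ℕ → ℝ}
    (hc : ∀ i, 1 ≤ c i) (hl : ∀ i, 0 < l i)
    (hb : ∀ i, ∀ y : ℕ, l i * (y:ℝ) ^ c i ≤ b i y ∧ b i y ≤ l i * ((y:ℝ) + 1) ^ c i)
    {η : ℝ} (hη : 0 ≤ η) (hs : 2 + 2 * η < ∑ i, 1 / c i) :
    ∀ᵐ α ∂(box (s+1)), Hits b η α := by
  set η' : ℝ := η + ((∑ i, 1 / c i) - 2 - 2 * η) / 4 with hη'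
  have h1 : η < η' := by rw [hη']; linarith
  have h2 : 2 + 2 * η' < ∑ i, 1 / c i := by rw [hη']; linarith
  obtain ⟨C, hC⟩ := bad_le hc hl hb (by linarith : 0 ≤ η') h2
  have hρ1 : (1:ℝ) < 1 + 1 / (8 * ((s + 1 : ℕ):ℝ) + 2) := by
    have : (0:ℝ) < 1 / (8 * ((s + 1 : ℕ):ℝ) + 2) := by positivity
    linarith
  have h3 := bc (box (s+1)) (Bad b η') (q := ((∑ i, 1 / c i) - 2 - 2 * η') / 2)
    (by linarith) hρ1 hC
  filter_upwards [h3, box_mem (s+1)] with α hα1 hα2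
  exact hits_of_notMem hη h1 hα2 hα1

/-- from the unit box to all positive vectors -/
theorem transfer {s : ℕ} {b : Fin s → ℕ → ℝ} {R : ((Fin s → ℕ → ℝ)) → (Fin s → ℝ) → Prop}
    (hR : ∀ (l α : Fin s → ℝ), R (fun i y => l i * b i y) α → R b (fun i => l i * α i))
    (h : ∀ l : Fin s → ℝ, (∀ i, 0 < l i) → ∀ᵐ α ∂(box s), R (fun i y => l i * b i y) α) :
    ∀ᵐ α : Fin s → ℝ, (∀ i, 0 < α i) → R b α := by
  have hm : ∀ m : Fin s → ℤ, ∀ᵐ α : Fin s → ℝ,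
      (∀ i, α i ∈ Icc ((2:ℝ) ^ m i) (2 ^ (m i + 1))) → R b α := by
    intro m
    set l : Fin s → ℝ := fun i => (2:ℝ) ^ m i with hl
    have hl0 : ∀ i, 0 < l i := fun i => by simp only [hl]; positivity
    have h1 := h l hl0
    rw [box_eq, ae_restrict_iff' (MeasurableSet.univ_pi (fun _ => measurableSet_Icc))] at h1
    set f : (Fin s → ℝ) →ₗ[ℝ] (Fin s → ℝ) := Matrix.toLin' (Matrix.diagonal (fun i => (l i)⁻¹))
      with hf
    have hfa : ∀ α i, f α i = (l i)⁻¹ * α i := by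
      intro α i
      rw [hf, Matrix.toLin'_apply, Matrix.mulVec_diagonal]
    have hdet : LinearMap.det f ≠ 0 := by
      rw [hf, LinearMap.det_toLin', Matrix.det_diagonal]
      exact Finset.prod_ne_zero_iff.mpr (fun i _ => inv_ne_zero (hl0 i).ne')
    have h2 := Measure.addHaar_preimage_linearMap (volume : Measure (Fin s → ℝ)) hdet
      {β | ¬ (β ∈ Set.pi univ (fun _ => Icc (1:ℝ) 2) → R (fun i y => l i * b i y) β)}
    rw [show (volume : Measure (Fin s → ℝ)) {β | ¬ (β ∈ Set.pi univ (fun _ => Icc (1:ℝ) 2) →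
      R (fun i y => l i * b i y) β)} = 0 from h1, mul_zero] at h2
    have h3 : ∀ᵐ α : Fin s → ℝ, f α ∈ Set.pi univ (fun _ => Icc (1:ℝ) 2) →
        R (fun i y => l i * b i y) (f α) := h2
    filter_upwards [h3] with α hα hαm
    have h4 : f α ∈ Set.pi univ (fun _ => Icc (1:ℝ) 2) := by
      intro i _
      rw [hfa]
      have h5 := hαm i
      rw [zpow_add_one₀ (by norm_num)] at h5
      have h6 := hl0 i
      constructor
      · rw [inv_mul_eq_div, le_div_iff₀ h6, one_mul]; exact h5.1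
      · rw [inv_mul_eq_div, div_le_iff₀ h6]
        have := h5.2
        simp only [hl]
        linarith
    have h7 := hR l (f α) (hα h4)
    have h8 : (fun i => l i * f α i) = α := by
      funext i
      rw [hfa, mul_inv_cancel_left₀ (hl0 i).ne']
    rwa [h8] at h7
  have hall := ae_all_iff.mpr hm
  filter_upwards [hall] with α hα hpos
  choose m hm' using fun i => exists_mem_Ico_zpow (hpos i) (one_lt_two (α := ℝ))
  exact hα m (fun i => ⟨(hm' i).1, (hm' i).2.le⟩)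

/-- **All large numbers.** -/
theorem all_large {s : ℕ} {c : Fin s → ℝ} {b : Fin s → ℕ → ℝ} (hc : ∀ i, 1 ≤ c i)
    (hb : ∀ i, ∀ y : ℕ, (y:ℝ) ^ c i ≤ b i y ∧ b i y ≤ ((y:ℝ) + 1) ^ c i)
    {η : ℝ} (hη : 0 ≤ η) (hs : 2 + 2 * η < ∑ i, 1 / c i) :
    ∀ᵐ α : Fin s → ℝ, (∀ i, 0 < α i) → Hits b η α := by
  rcases s with _ | s
  · exfalso
    simp at hs
    linarith
  refine transfer (R := fun b α => Hits b η α) ?_ ?_
  · intro l α h
    unfold Hits at h ⊢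
    filter_upwards [h] with t ht
    obtain ⟨x, hx⟩ := ht
    refine ⟨x, ?_⟩
    have e : ∑ i, l i * α i * b i (x i) = ∑ i, α i * (l i * b i (x i)) :=
      Finset.sum_congr rfl (fun i _ => by ring)
    rwa [e]
  · intro l hl
    refine box_hits (c := c) (l := l) hc hl (fun i y => ?_) hη hs
    have h1 := hb i y
    have h2 := (hl i).le
    exact ⟨mul_le_mul_of_nonneg_left h1.1 h2, mul_le_mul_of_nonneg_left h1.2 h2⟩

end Pool.Agent.K7.H77.WG
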