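import Pool.Agent.K7.H77.WG.Iter

/-! # Pointwise bounds for Riemann sums of Riemann sums -/

set_option autoImplicit false

namespace Pool.Agent.K7.H77.WG

open MeasureTheory Set Filter

namespace Blk

variable (B : Blk)

/-- the Riemann sum -/
noncomputable def S (t : ℝ) (f : ℝ → ℝ) (x : ℝ) : ℝ :=
  ∑ y ∈ Finset.range B.n, (B.a (y+1) - B.a y) * f (x - t * B.b y)

/-- the integral -/
noncomputable def I (t : ℝ) (f : ℝ → ℝ) (x : ℝ) : ℝ :=
  ∫ v in (B.a 0)..(B.a B.n), f (x - t * v)

theorem S_eq {f : ℝ → ℝ} (hf : Continuous f) (t x : ℝ) : B.S t f x = B.D t f x + B.I t f x := by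
  unfold S D I Dc
  have hi : ∀ a b, IntervalIntegrable (fun v => f (x - t * v)) volume a b :=
    fun a b => (by fun_prop : Continuous (fun v => f (x - t * v))).intervalIntegrable _ _
  rw [← intervalIntegral.sum_integral_adjacent_intervals (a := B.a) (n := B.n)
    (fun k _ => hi _ _), ← Finset.sum_add_distrib]
  apply Finset.sum_congr rfl
  intro y _
  rw [intervalIntegral.integral_sub intervalIntegrable_const (hi _ _),
    intervalIntegral.integral_const, smul_eq_mul]
  ring

/-- length -/
noncomputable def len : ℝ := B.a B.n - B.a 0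

theorem len_nonneg : 0 ≤ B.len := by
  have := B.mono (Nat.zero_le B.n) le_rfl
  unfold len; linarith

theorem sum_steps : ∑ y ∈ Finset.range B.n, (B.a (y+1) - B.a y) = B.len := by
  rw [Finset.sum_range_sub]; rfl

theorem S_bd {f : ℝ → ℝ} {C : ℝ} (hC : ∀ x, |f x| ≤ C) (t x : ℝ) :
    |B.S t f x| ≤ B.len * C := by
  unfold S
  rw [← sum_steps, Finset.sum_mul]
  refine (Finset.abs_sum_le_sum_abs _ _).trans ?_
  apply Finset.sum_le_sum
  intro y hy
  have h := B.step_nonneg (Finset.mem_range.mp hy)
  rw [abs_mul, abs_of_nonneg h]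
  exact mul_le_mul_of_nonneg_left (hC _) h

theorem D_bd {f : ℝ → ℝ} {C : ℝ} (hC : ∀ x, |f x| ≤ C) (t x : ℝ) :
    |B.D t f x| ≤ B.len * (2 * C) := by
  unfold D
  rw [← sum_steps, Finset.sum_mul]
  refine (Finset.abs_sum_le_sum_abs _ _).trans ?_
  apply Finset.sum_le_sum
  intro y hy
  have h := B.step_nonneg (Finset.mem_range.mp hy)
  unfold Dc
  have := intervalIntegral.norm_integral_le_of_norm_le_const (a := B.a y) (b := B.a (y+1))
    (f := fun v => f (x - t * B.b y) - f (x - t * v)) (C := 2 * C) (fun v _ => by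
      rw [Real.norm_eq_abs]
      have h1 := hC (x - t * B.b y)
      have h2 := hC (x - t * v)
      refine (abs_sub _ _).trans ?_
      linarith)
  rw [Real.norm_eq_abs, abs_of_nonneg h] at this
  linarith

theorem I_cont {f : ℝ → ℝ} (hf : Continuous f) (t : ℝ) : Continuous (B.I t f) := by
  unfold I
  apply intervalIntegral.continuous_parametric_intervalIntegral_of_continuous'
  show Continuous (fun r : ℝ × ℝ => f (r.1 - t * r.2))
  fun_prop

theorem D_cont' {f : ℝ → ℝ} (hf : Continuous f) (t : ℝ) : Continuous (B.D t f) :=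
  (D_cont1 B hf).comp (by fun_prop : Continuous (fun x : ℝ => ((t, x) : ℝ × ℝ)))

/-- integral and error commute -/
theorem comm (B' : Blk) {f : ℝ → ℝ} (hf : Continuous f) (t u x : ℝ) :
    B'.I u (B.D t f) x = B.D t (B'.I u f) x := by
  unfold I D Dc
  rw [intervalIntegral.integral_finsetSum]
  · apply Finset.sum_congr rfl
    intro y _
    rw [swap2 (F := fun v' v => f (x - u * v' - t * B.b y) - f (x - u * v' - t * v))]
    · apply intervalIntegral.integral_congr
      intro v _
      show (∫ v' in (B'.a 0)..(B'.a B'.n), (f (x - u * v' - t * B.b y) - f (x - u * v' - t * v))) =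
        (∫ v' in (B'.a 0)..(B'.a B'.n), f (x - t * B.b y - u * v')) -
          ∫ v' in (B'.a 0)..(B'.a B'.n), f (x - t * v - u * v')
      rw [← intervalIntegral.integral_sub]
      · congr 1; funext v'; congr 2 <;> ring
      · exact (by fun_prop : Continuous (fun v' => f (x - t * B.b y - u * v'))).intervalIntegrable _ _
      · exact (by fun_prop : Continuous (fun v' => f (x - t * v - u * v'))).intervalIntegrable _ _
    · show Continuous (fun p : ℝ × ℝ => f (x - u * p.1 - t * B.b y) - f (x - u * p.1 - t * p.2))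
      fun_prop
  · intro y _
    apply Continuous.intervalIntegrable
    apply intervalIntegral.continuous_parametric_intervalIntegral_of_continuous'
    show Continuous (fun p : ℝ × ℝ => f (x - u * p.1 - t * B.b y) - f (x - u * p.1 - t * p.2))
    fun_prop

end Blk

/-- iterated sums -/
noncomputable def SS : (s : ℕ) → (Fin s → Blk) → (Fin s → ℝ) → (ℝ → ℝ) → ℝ → ℝ
  | 0, _, _, f => f
  | s+1, B, α, f => SS s (fun i => B i.succ) (fun i => α i.succ) ((B 0).S (α 0) f)

theorem SS_add : ∀ (s : ℕ) (B : Fin s → Blk) (α : Fin s → ℝ) (f h : ℝ → ℝ) (x : ℝ),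
    SS s B α (fun x => f x + h x) x = SS s B α f x + SS s B α h x
  | 0, _, _, _, _, _ => rfl
  | s+1, B, α, f, h, x => by
      simp only [SS]
      rw [← SS_add s]
      congr 1
      funext x
      unfold Blk.S
      rw [← Finset.sum_add_distrib]
      apply Finset.sum_congr rfl
      intro y _
      ring

theorem SS_bd : ∀ (s : ℕ) (B : Fin s → Blk) (α : Fin s → ℝ) {H C : ℝ} (_ : 0 ≤ H)
    (_ : ∀ i, (B i).len ≤ H) {f : ℝ → ℝ} (_ : ∀ x, |f x| ≤ C) (x : ℝ),
    |SS s B α f x| ≤ H ^ s * C
  | 0, _, _, H, C, _, _, f, hf, x => by simpa [SS] using hf x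
  | s+1, B, α, H, C, hH, hB, f, hf, x => by
      simp only [SS]
      have hC : 0 ≤ C := (abs_nonneg _).trans (hf 0)
      have := SS_bd s (fun i => B i.succ) (fun i => α i.succ) (C := H * C) hH (fun i => hB i.succ)
        (f := (B 0).S (α 0) f) (fun x => ((B 0).S_bd hf _ _).trans
          (mul_le_mul_of_nonneg_right (hB 0) hC)) x
      calc _ ≤ H ^ s * (H * C) := this
        _ = _ := by ring

/-- **Sums against errors.** -/
theorem SS_TD : ∀ (s : ℕ) (B : Fin s → Blk) (α : Fin s → ℝ) (_ : ∀ i, α i ∈ Icc (1:ℝ) 2)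
    {H C : ℝ} (_ : 0 ≤ H) (_ : ∀ i, (B i).len ≤ H) {g : ℝ → ℝ} (_ : Continuous g)
    (_ : ∀ i, ∀ u ∈ Icc (1:ℝ) 2, ∀ x, |(B i).I u g x| ≤ C) (x : ℝ),
    |SS s B α g x - TD s B α g x| * (2 * H) ≤ s * (2 * H) ^ s * C
  | 0, _, _, _, _, _, _, _, g, _, _, x => by simp [SS, TD]
  | s+1, B, α, hα, H, C, hH, hB, g, hg, hC, x => by
      simp only [SS, TD]
      have hC0 : 0 ≤ C := (abs_nonneg _).trans (hC 0 1 (by norm_num) 0)
      have e : (B 0).S (α 0) g = fun x => (B 0).D (α 0) g x + (B 0).I (α 0) g x := by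
        funext x; exact (B 0).S_eq hg _ _
      rw [e, SS_add]
      have h1 := SS_TD s (fun i => B i.succ) (fun i => α i.succ) (fun i => hα i.succ)
        (C := 2 * H * C) hH (fun i => hB i.succ) (g := (B 0).D (α 0) g)
        ((B 0).D_cont' hg _) (fun i u hu x => by
          rw [(B 0).comm (B i.succ) hg]
          refine ((B 0).D_bd (hC i.succ u hu) _ _).trans ?_
          have := hB 0
          nlinarith) x
      have h2 := SS_bd s (fun i => B i.succ) (fun i => α i.succ) hH (fun i => hB i.succ)
        (f := (B 0).I (α 0) g) (hC 0 _ (hα 0)) x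
      have h3 : H ^ s * C * (2 * H) ≤ (2 * H) ^ (s + 1) * C := by
        have : H ^ s ≤ (2 * H) ^ s := pow_le_pow_left₀ hH (by linarith) s
        calc H ^ s * C * (2 * H) ≤ (2 * H) ^ s * C * (2 * H) := by gcongr
          _ = _ := by ring
      calc _ = |(SS s (fun i => B i.succ) (fun i => α i.succ) ((B 0).D (α 0) g) x -
            TD s (fun i => B i.succ) (fun i => α i.succ) ((B 0).D (α 0) g) x) +
            SS s (fun i => B i.succ) (fun i => α i.succ) ((B 0).I (α 0) g) x| * (2 * H) := by
              congr 2; ring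
        _ ≤ (|SS s (fun i => B i.succ) (fun i => α i.succ) ((B 0).D (α 0) g) x -
            TD s (fun i => B i.succ) (fun i => α i.succ) ((B 0).D (α 0) g) x| +
            |SS s (fun i => B i.succ) (fun i => α i.succ) ((B 0).I (α 0) g) x|) * (2 * H) := by
              gcongr; exact abs_add_le _ _
        _ ≤ s * (2 * H) ^ s * (2 * H * C) + H ^ s * C * (2 * H) := by
              rw [add_mul]
              apply add_le_add h1
              gcongr
        _ ≤ s * (2 * H) ^ s * (2 * H * C) + (2 * H) ^ (s + 1) * C := by linarith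
        _ = _ := by push_cast; ring

/-- a lower bound for iterated sums of nonnegative functions -/
theorem SS_lower : ∀ (s : ℕ) (B : Fin s → Blk) (n' : Fin s → ℕ) (_ : ∀ i, n' i ≤ (B i).n)
    (α : Fin s → ℝ) (_ : ∀ i, α i ∈ Icc (1:ℝ) 2) {p q c : ℝ} (_ : 0 ≤ c) {h : ℝ → ℝ}
    (_ : ∀ x, 0 ≤ h x) (_ : ∀ x ∈ Icc p q, c ≤ h x) (x : ℝ)
    (_ : x ∈ Icc (p + ∑ i, α i * (B i).a (n' i)) (q + ∑ i, α i * (B i).a 0)),
    (∏ i, ((B i).a (n' i) - (B i).a 0)) * c ≤ SS s B α h x
  | 0, _, _, _, _, _, p, q, c, _, h, _, hc, x, hx => by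
      simp only [Finset.univ_eq_empty, Finset.sum_empty, add_zero] at hx
      simpa [SS] using hc x hx
  | s+1, B, n', hn, α, hα, p, q, c, hc0, h, h0, hc, x, hx => by
      simp only [SS]
      rw [Fin.sum_univ_succ, Fin.sum_univ_succ] at hx
      have hL : 0 ≤ (B 0).a (n' 0) - (B 0).a 0 := by
        have := (B 0).mono (Nat.zero_le (n' 0)) (hn 0); linarith
      have := SS_lower s (fun i => B i.succ) (fun i => n' i.succ) (fun i => hn i.succ)
        (fun i => α i.succ) (fun i => hα i.succ) (p := p + α 0 * (B 0).a (n' 0))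
        (q := q + α 0 * (B 0).a 0) (c := ((B 0).a (n' 0) - (B 0).a 0) * c)
        (mul_nonneg hL hc0) (h := (B 0).S (α 0) h) ?_ ?_ x ?_
      · rw [Fin.prod_univ_succ]
        calc _ = (∏ i : Fin s, ((B i.succ).a (n' i.succ) - (B i.succ).a 0)) *
            (((B 0).a (n' 0) - (B 0).a 0) * c) := by ring
          _ ≤ _ := this
      · intro x
        unfold Blk.S
        apply Finset.sum_nonneg
        intro y hy
        exact mul_nonneg ((B 0).step_nonneg (Finset.mem_range.mp hy)) (h0 _)
      · intro x hx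
        unfold Blk.S
        have e : (B 0).a (n' 0) - (B 0).a 0 =
            ∑ y ∈ Finset.range (n' 0), ((B 0).a (y+1) - (B 0).a y) := by
          rw [Finset.sum_range_sub]
        rw [e, Finset.sum_mul]
        refine le_trans (Finset.sum_le_sum (g := fun y => ((B 0).a (y+1) - (B 0).a y) *
            h (x - α 0 * (B 0).b y)) ?_)
          (Finset.sum_le_sum_of_subset_of_nonneg
            (by intro y; simp only [Finset.mem_range]; have := hn 0; omega) ?_)
        · intro y hy
          rw [Finset.mem_range] at hy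
          have hyn : y < (B 0).n := lt_of_lt_of_le hy (hn 0)
          apply mul_le_mul_of_nonneg_left _ ((B 0).step_nonneg hyn)
          apply hc
          have ht := (B 0).tag y hyn
          have ha := (B 0).mono (Nat.zero_le y) hyn.le
          have hb := (B 0).mono (show y + 1 ≤ n' 0 from hy) (hn 0)
          have hα0 := (hα 0).1
          constructor
          · have : α 0 * (B 0).b y ≤ α 0 * (B 0).a (n' 0) :=
              mul_le_mul_of_nonneg_left (ht.2.trans hb) (by linarith)
            linarith [hx.1]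
          · have : α 0 * (B 0).a 0 ≤ α 0 * (B 0).b y :=
              mul_le_mul_of_nonneg_left (ha.trans ht.1) (by linarith)
            linarith [hx.2]
        · intro y hy _
          exact mul_nonneg ((B 0).step_nonneg (Finset.mem_range.mp hy)) (h0 _)
      · constructor <;> linarith [hx.1, hx.2]

theorem SS_zero : ∀ (s : ℕ) (B : Fin s → Blk) (α : Fin s → ℝ) {h : ℝ → ℝ} (x : ℝ)
    (_ : ∀ y : Fin s → ℕ, (∀ i, y i < (B i).n) → h (x - ∑ i, α i * (B i).b (y i)) = 0),
    SS s B α h x = 0
  | 0, _, _, h, x, hz => by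
      simpa [SS] using hz (fun i => i.elim0) (fun i => i.elim0)
  | s+1, B, α, h, x, hz => by
      simp only [SS]
      apply SS_zero
      intro y hy
      unfold Blk.S
      apply Finset.sum_eq_zero
      intro y0 hy0
      have := hz (Fin.cons y0 y) (by
        intro i
        refine Fin.cases ?_ (fun j => ?_) i
        · simpa using Finset.mem_range.mp hy0
        · simpa using hy j)
      rw [Fin.sum_univ_succ] at this
      simp only [Fin.cons_zero, Fin.cons_succ] at this
      rw [show x - ∑ i : Fin s, α i.succ * (B i.succ).b (y i) - α 0 * (B 0).b y0 =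
        x - (α 0 * (B 0).b y0 + ∑ i : Fin s, α i.succ * (B i.succ).b (y i)) by ring, this, mul_zero]

end Pool.Agent.K7.H77.WG
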