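import Pool.Agent.K7.H77.WG.Fix

/-! # Blocks of sequences which grow like a power -/

set_option autoImplicit false

namespace Pool.Agent.K7.H77.WG

open MeasureTheory Set Filter

theorem rpow_lower {c x y : ℝ} (hc : 1 ≤ c) (hx : 0 < x) (hxy : x ≤ y) :
    c * x ^ (c - 1) * (y - x) ≤ y ^ c - x ^ c := by
  have hy : 0 < y := lt_of_lt_of_le hx hxy
  have h1 := one_add_mul_self_le_rpow_one_add (s := (y - x) / x) (p := c)
    (by have : 0 ≤ (y - x) / x := div_nonneg (by linarith) hx.le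
        linarith) hc
  have e : 1 + (y - x) / x = y / x := by field_simp; ring
  rw [e, Real.div_rpow hy.le hx.le, le_div_iff₀ (Real.rpow_pos_of_pos hx c)] at h1
  have e2 : x ^ c = x ^ (c - 1) * x := by
    rw [← Real.rpow_add_one hx.ne']; congr 1; ring
  have e3 : (1 + c * ((y - x) / x)) * x ^ c = x ^ c + c * x ^ (c - 1) * (y - x) := by
    rw [e2]; field_simp
  linarith

theorem rpow_upper {c x y : ℝ} (hc : 1 ≤ c) (hx : 0 < x) (hxy : x ≤ y) :
    y ^ c - x ^ c ≤ c * y ^ (c - 1) * (y - x) := by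
  have hy : 0 < y := lt_of_lt_of_le hx hxy
  have h0 : -1 ≤ (x - y) / y := by
    rw [le_div_iff₀ hy]; linarith
  have h1 := one_add_mul_self_le_rpow_one_add (s := (x - y) / y) (p := c) h0 hc
  have e : 1 + (x - y) / y = x / y := by field_simp; ring
  rw [e, Real.div_rpow hx.le hy.le, le_div_iff₀ (Real.rpow_pos_of_pos hy c)] at h1
  have e2 : y ^ c = y ^ (c - 1) * y := by
    rw [← Real.rpow_add_one hy.ne']; congr 1; ring
  have e3 : (1 + c * ((x - y) / y)) * y ^ c = y ^ c + c * y ^ (c - 1) * (x - y) := by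
    rw [e2]; field_simp
  linarith

/-- the block of the terms with the indices from `P` to `2 P` -/
noncomputable def pblk (c l : ℝ) (b : ℕ → ℝ) (hc : 1 ≤ c) (hl : 0 < l)
    (hb : ∀ y : ℕ, l * (y:ℝ) ^ c ≤ b y ∧ b y ≤ l * ((y:ℝ) + 1) ^ c) (P : ℕ) (hP : 1 ≤ P) : Blk where
  n := P
  a := fun y => l * ((P:ℝ) + y) ^ c
  b := fun y => b (P + y)
  G := l * (c * (2 * (P:ℝ)) ^ (c - 1))
  g := l * (c * (P:ℝ) ^ (c - 1))
  g_pos := by
    have : (0:ℝ) < P := by exact_mod_cast hP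
    have := Real.rpow_pos_of_pos this (c - 1)
    positivity
  a0 := by positivity
  sep := by
    intro z y hzy _
    have hP' : (0:ℝ) < P := by exact_mod_cast hP
    have hzy' : (z:ℝ) ≤ y := by exact_mod_cast hzy
    have h1 := rpow_lower hc (x := (P:ℝ) + z) (y := (P:ℝ) + y) (by positivity) (by linarith)
    have h2 : (P:ℝ) ^ (c - 1) ≤ ((P:ℝ) + z) ^ (c - 1) :=
      Real.rpow_le_rpow hP'.le (by linarith [(Nat.cast_nonneg z : (0:ℝ) ≤ z)]) (by linarith)
    have h3 : c * (P:ℝ) ^ (c - 1) * ((y:ℝ) - z) ≤ ((P:ℝ) + y) ^ c - ((P:ℝ) + z) ^ c := by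
      refine le_trans ?_ h1
      have : (P:ℝ) + y - (P + z) = (y:ℝ) - z := by ring
      rw [this]
      have h4 : 0 ≤ (y:ℝ) - z := by linarith
      gcongr
    calc l * (c * (P:ℝ) ^ (c - 1)) * ((y:ℝ) - z) = l * (c * (P:ℝ) ^ (c - 1) * ((y:ℝ) - z)) := by ring
      _ ≤ l * (((P:ℝ) + y) ^ c - ((P:ℝ) + z) ^ c) := by gcongr
      _ = _ := by ring
  gap := by
    intro y hy
    have hP' : (0:ℝ) < P := by exact_mod_cast hP
    have hy0 : (0:ℝ) ≤ y := Nat.cast_nonneg y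
    have hy' : (y:ℝ) + 1 ≤ P := by exact_mod_cast hy
    have h1 := rpow_upper hc (x := (P:ℝ) + y) (y := (P:ℝ) + (y + 1)) (by positivity) (by linarith)
    have h2 : ((P:ℝ) + (y + 1)) ^ (c - 1) ≤ (2 * (P:ℝ)) ^ (c - 1) :=
      Real.rpow_le_rpow (by positivity) (by linarith) (by linarith)
    have h3 : ((P:ℝ) + (y + 1)) ^ c - ((P:ℝ) + y) ^ c ≤ c * (2 * (P:ℝ)) ^ (c - 1) := by
      refine h1.trans ?_
      have : (P:ℝ) + (y + 1) - (P + y) = 1 := by ring
      rw [this, mul_one]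
      gcongr
    push_cast
    calc l * ((P:ℝ) + (y + 1)) ^ c - l * ((P:ℝ) + y) ^ c
        = l * (((P:ℝ) + (y + 1)) ^ c - ((P:ℝ) + y) ^ c) := by ring
      _ ≤ _ := by gcongr
  tag := by
    intro y _
    have := hb (P + y)
    push_cast at this ⊢
    refine ⟨this.1, this.2.trans (le_of_eq ?_)⟩
    congr 2; ring

end Pool.Agent.K7.H77.WG
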