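import Pool.Agent.K7.H77.WG.Base

/-! # One more variable doubles the saving -/

set_option autoImplicit false

namespace Pool.Agent.K7.H77.WG

open MeasureTheory Set Filter Topology

/-- two shifted copies of a set -/
theorem two_shifts {V : Set ℝ} (hV : MeasurableSet V) {p q : ℝ} (hpq : p < q) :
    ∫⁻ β, volume {t : ℝ | t - β * p ∈ V ∧ t - β * q ∈ V} =
      volume V * volume V * ENNReal.ofReal (1 / (q - p)) := by
  have hh : 0 < q - p := by linarith
  have h1 : ∀ β : ℝ, volume {t : ℝ | t - β * p ∈ V ∧ t - β * q ∈ V} =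
      ∫⁻ t, V.indicator (fun _ => (1:ENNReal)) t *
        V.indicator (fun _ => (1:ENNReal)) (t - β * (q - p)) := by
    intro β
    have hm : MeasurableSet {t : ℝ | t - β * p ∈ V ∧ t - β * q ∈ V} :=
      ((measurable_id.sub_const (β * p)) hV).inter ((measurable_id.sub_const (β * q)) hV)
    rw [← lintegral_indicator_one hm, ← lintegral_sub_right_eq_self
      (fun t => V.indicator (fun _ => (1:ENNReal)) t *
        V.indicator (fun _ => (1:ENNReal)) (t - β * (q - p))) (β * p)]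
    apply lintegral_congr
    intro t
    have e : t - β * p - β * (q - p) = t - β * q := by ring
    rw [e]
    by_cases ha : t - β * p ∈ V <;> by_cases hb : t - β * q ∈ V <;>
      simp [Set.indicator, ha, hb]
  simp_rw [h1]
  have hind : Measurable (V.indicator (fun _ => (1:ENNReal))) := measurable_one.indicator hV
  rw [lintegral_lintegral_swap]
  · have h2 : ∀ t : ℝ, ∫⁻ β, V.indicator (fun _ => (1:ENNReal)) t *
        V.indicator (fun _ => (1:ENNReal)) (t - β * (q - p)) =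
        V.indicator (fun _ => (1:ENNReal)) t * (volume V * ENNReal.ofReal (1 / (q - p))) := by
      intro t
      have hcomp : Measurable (fun β : ℝ =>
          V.indicator (fun _ => (1:ENNReal)) (t - β * (q - p))) :=
        hind.comp (by fun_prop : Measurable (fun β : ℝ => t - β * (q - p)))
      rw [lintegral_const_mul _ hcomp]
      congr 1
      have h3 : (fun β : ℝ => V.indicator (fun _ => (1:ENNReal)) (t - β * (q - p))) =
          ((fun β => (q - p) * β) ⁻¹' ((fun u => t - u) ⁻¹' V)).indicator 1 := by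
        funext β
        by_cases ha : t - β * (q - p) ∈ V
        · have hb : β ∈ ((fun β => (q - p) * β) ⁻¹' ((fun u => t - u) ⁻¹' V)) := by
            show t - (q - p) * β ∈ V
            rwa [mul_comm (q - p) β]
          rw [indicator_of_mem ha, indicator_of_mem hb]; rfl
        · have hb : β ∉ ((fun β => (q - p) * β) ⁻¹' ((fun u => t - u) ⁻¹' V)) := by
            show ¬ (t - (q - p) * β ∈ V)
            rwa [mul_comm (q - p) β]
          rw [indicator_of_notMem ha, indicator_of_notMem hb]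
      rw [h3, lintegral_indicator_one]
      · have e4 := Real.volume_preimage_mul_left hh.ne' ((fun u => t - u) ⁻¹' V)
        rw [e4]
        have e5 : volume ((fun u => t - u) ⁻¹' V) = volume V :=
          (volume.measurePreserving_sub_left t).measure_preimage hV.nullMeasurableSet
        rw [e5, mul_comm]
        congr 2
        rw [abs_of_pos (inv_pos.mpr hh), one_div]
      · exact (measurable_const.mul measurable_id) ((measurable_const.sub measurable_id) hV)
    simp_rw [h2]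
    have hVint : ∫⁻ a, V.indicator (fun _ => (1:ENNReal)) a = volume V := by
      rw [lintegral_indicator hV, setLIntegral_const, one_mul]
    rw [lintegral_mul_const _ hind, hVint, mul_assoc]
  · apply Measurable.aemeasurable
    exact (hind.comp measurable_snd).mul
      (hind.comp (by fun_prop : Measurable (fun z : ℝ × ℝ => z.2 - z.1 * (q - p))))

/-- the numbers `t` for which all `t - β d(y)`, if they are at least `t / 2`, lie in `V` -/
def Vst (V : Set ℝ) (d : ℕ → ℝ) (β : ℝ) : Set ℝ :=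
  {t | ∀ y : ℕ, 0 ≤ d y → β * d y ≤ t / 2 → t - β * d y ∈ V}

theorem one_dim {V : Set ℝ} (hV : MeasurableSet V) {δ' δ : ℝ} (hS : Small V δ') (hδ : δ < 2 * δ')
    {d : ℕ → ℝ} {C : ℝ} (hC : ∀ᶠ X : ℝ in atTop, ∃ y, X ≤ d y ∧ d y ≤ C * X) :
    ∀ᵐ β : ℝ, 0 < β → Small (Vst V d β) δ := by
  -- we may take `C ≥ 1`
  have hC1 : 1 ≤ C := by
    obtain ⟨X, ⟨y, h1, h2⟩, hX⟩ := (hC.and (eventually_gt_atTop 0)).exists
    by_contra hcon
    push Not at hcon
    nlinarith
  have hC0 : 0 < C := by linarith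
  have hmain : ∀ K : ℕ, ∀ᵐ β : ℝ, 0 < β → β ≤ K + 1 → Small (Vst V d β) δ := by
    intro K
    have hK : (0:ℝ) < K + 1 := by positivity
    set τ : ℝ := 1 / (4 * (K + 1) * C ^ 2) with hτ
    have hτ0 : 0 < τ := by positivity
    -- choice of the two terms
    have hch : ∀ᶠ m : ℕ in atTop, ∃ p : ℕ × ℕ, 0 ≤ d p.1 ∧ 0 ≤ d p.2 ∧
        τ * 2 ^ m ≤ d p.2 - d p.1 ∧
        (K + 1) * d p.1 ≤ 2 ^ m / 2 ∧ (K + 1) * d p.2 ≤ 2 ^ m / 2 := by
      have ht : Tendsto (fun m : ℕ => τ * (2:ℝ) ^ m) atTop atTop :=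
        (tendsto_pow_atTop_atTop_of_one_lt (one_lt_two (α := ℝ))).const_mul_atTop hτ0
      have ht2 : Tendsto (fun m : ℕ => (2 * C * τ) * (2:ℝ) ^ m) atTop atTop :=
        (tendsto_pow_atTop_atTop_of_one_lt (one_lt_two (α := ℝ))).const_mul_atTop (by positivity)
      filter_upwards [ht.eventually hC, ht2.eventually hC] with m h1 h2
      obtain ⟨y, hy1, hy2⟩ := h1
      obtain ⟨z, hz1, hz2⟩ := h2
      have h2m : (0:ℝ) < 2 ^ m := by positivity
      have hτm : 0 < τ * 2 ^ m := by positivity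
      have hCC : C ≤ C ^ 2 := by nlinarith
      have e1 : (K + 1) * (C * (2 * C * τ * 2 ^ m)) = 2 ^ m / 2 := by
        rw [hτ]; field_simp; ring
      refine ⟨(y, z), ?_, ?_, ?_, ?_, ?_⟩
      · show 0 ≤ d y
        linarith
      · show 0 ≤ d z
        nlinarith
      · show τ * 2 ^ m ≤ d z - d y
        have : τ * 2 ^ m ≤ C * (τ * 2 ^ m) := le_mul_of_one_le_left hτm.le hC1
        have e2 : 2 * C * τ * 2 ^ m = 2 * (C * (τ * 2 ^ m)) := by ring
        linarith
      · calc ((K:ℝ) + 1) * d y ≤ (K + 1) * (C * (τ * 2 ^ m)) := by gcongr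
          _ ≤ (K + 1) * (C * (2 * C * τ * 2 ^ m)) := by
            gcongr
            nlinarith
          _ = _ := e1
      · calc ((K:ℝ) + 1) * d z ≤ (K + 1) * (C * (2 * C * τ * 2 ^ m)) := by gcongr
          _ = _ := e1
    obtain ⟨pp, hpp⟩ := hch.choice
    -- the set at one scale
    set C₁ : ℝ := ((1:ℝ) / 2) ^ (1 - δ') + 1 with hC₁
    have hC₁0 : 0 < C₁ := by positivity
    have hVm : ∀ᶠ m : ℕ in atTop, volume (V ∩ Icc ((2:ℝ) ^ m / 2) (2 ^ (m + 1))) ≤
        ENNReal.ofReal (C₁ * ((2:ℝ) ^ m) ^ (1 - δ')) := by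
      have h' : ∀ᶠ m : ℕ in atTop, volume (V ∩ Icc ((2:ℝ) ^ (m-1)) (2 ^ (m - 1 + 1))) ≤
          ENNReal.ofReal (((2:ℝ) ^ (m-1)) ^ (1 - δ')) :=
        (tendsto_sub_atTop_nat 1).eventually hS
      filter_upwards [hS, h', eventually_ge_atTop 1] with m h1 h2 h3
      have e1 : m - 1 + 1 = m := by omega
      rw [e1] at h2
      have e2 : (2:ℝ) ^ (m - 1) = 2 ^ m / 2 := by
        rw [← e1, pow_succ, Nat.add_sub_cancel]; ring
      rw [e2] at h2
      have hsub : V ∩ Icc ((2:ℝ) ^ m / 2) (2 ^ (m + 1)) ⊆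
          (V ∩ Icc ((2:ℝ) ^ m / 2) (2 ^ m)) ∪ (V ∩ Icc ((2:ℝ) ^ m) (2 ^ (m + 1))) := by
        rintro t ⟨ht, ht1, ht2⟩
        rcases le_total t (2 ^ m) with h | h
        · exact Or.inl ⟨ht, ht1, h⟩
        · exact Or.inr ⟨ht, h, ht2⟩
      refine (measure_mono hsub).trans ((measure_union_le _ _).trans ((add_le_add h2 h1).trans ?_))
      rw [← ENNReal.ofReal_add (by positivity) (by positivity)]
      apply ENNReal.ofReal_le_ofReal
      rw [hC₁, add_mul, one_mul]
      apply add_le_add _ le_rfl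
      rw [← Real.mul_rpow (by norm_num) (by positivity)]
      apply le_of_eq
      congr 1; ring
    -- the bad dilations
    set e : ℝ := 2 * δ' - δ with he
    have he0 : 0 < e := by linarith
    set d1 : ℕ → ℝ := fun m => d (pp m).1 with hd1
    set d2 : ℕ → ℝ := fun m => d (pp m).2 with hd2
    set Vm : ℕ → Set ℝ := fun m => V ∩ Icc ((2:ℝ) ^ m / 2) (2 ^ (m + 1)) with hVmdef
    have hVmm : ∀ m, MeasurableSet (Vm m) := fun m => hV.inter measurableSet_Icc
    set F : ℕ → ℝ → ENNReal := fun m β =>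
      volume {t : ℝ | t - β * d1 m ∈ Vm m ∧ t - β * d2 m ∈ Vm m} with hF
    have hFm : ∀ m, Measurable (F m) := by
      intro m
      have : MeasurableSet {p : ℝ × ℝ | p.2 - p.1 * d1 m ∈ Vm m ∧ p.2 - p.1 * d2 m ∈ Vm m} :=
        ((by fun_prop : Measurable (fun p : ℝ × ℝ => p.2 - p.1 * d1 m)) (hVmm m)).inter
          ((by fun_prop : Measurable (fun p : ℝ × ℝ => p.2 - p.1 * d2 m)) (hVmm m))
      exact measurable_measure_prodMk_left this
    have hbad : ∀ᶠ m : ℕ in atTop, volume {β : ℝ | ENNReal.ofReal (((2:ℝ) ^ m) ^ (1 - δ)) ≤ F m β} ≤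
        ENNReal.ofReal (C₁ ^ 2 / τ * ((2:ℝ) ^ m) ^ (-e)) := by
      filter_upwards [hpp, hVm] with m h1 h2
      obtain ⟨g1, g2, g3, g4, g5⟩ := h1
      change τ * 2 ^ m ≤ d2 m - d1 m at g3
      have h2m : (0:ℝ) < 2 ^ m := by positivity
      have hlam : 0 < ((2:ℝ) ^ m) ^ (1 - δ) := Real.rpow_pos_of_pos h2m _
      have hτm : 0 < τ * 2 ^ m := by positivity
      have hne : ENNReal.ofReal (((2:ℝ) ^ m) ^ (1 - δ)) ≠ 0 := (ENNReal.ofReal_pos.mpr hlam).ne'
      refine (meas_ge_le_lintegral_div (hFm m).aemeasurable hne ENNReal.ofReal_ne_top).trans ?_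
      rw [ENNReal.div_le_iff hne ENNReal.ofReal_ne_top]
      simp only [hF]
      rw [two_shifts (hVmm m) (by linarith : d1 m < d2 m)]
      calc volume (Vm m) * volume (Vm m) * ENNReal.ofReal (1 / (d2 m - d1 m))
          ≤ ENNReal.ofReal (C₁ * ((2:ℝ) ^ m) ^ (1 - δ')) *
            ENNReal.ofReal (C₁ * ((2:ℝ) ^ m) ^ (1 - δ')) * ENNReal.ofReal (1 / (τ * 2 ^ m)) := by
            gcongr
        _ = ENNReal.ofReal (C₁ * ((2:ℝ) ^ m) ^ (1 - δ') * (C₁ * ((2:ℝ) ^ m) ^ (1 - δ')) *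
            (1 / (τ * 2 ^ m))) := by
            rw [← ENNReal.ofReal_mul (by positivity), ← ENNReal.ofReal_mul (by positivity)]
        _ = ENNReal.ofReal (C₁ ^ 2 / τ * ((2:ℝ) ^ m) ^ (-e) * ((2:ℝ) ^ m) ^ (1 - δ)) := by
            congr 1
            have e1 : ((2:ℝ) ^ m) ^ (1 - δ') * ((2:ℝ) ^ m) ^ (1 - δ') =
                ((2:ℝ) ^ m) ^ (-e) * ((2:ℝ) ^ m) ^ (1 - δ) * 2 ^ m := by
              rw [← Real.rpow_add h2m, ← Real.rpow_add h2m]
              nth_rewrite 3 [← Real.rpow_one ((2:ℝ) ^ m)]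
              rw [← Real.rpow_add h2m]
              congr 1
              rw [he]; ring
            calc C₁ * ((2:ℝ) ^ m) ^ (1 - δ') * (C₁ * ((2:ℝ) ^ m) ^ (1 - δ')) * (1 / (τ * 2 ^ m))
                = C₁ ^ 2 * (((2:ℝ) ^ m) ^ (1 - δ') * ((2:ℝ) ^ m) ^ (1 - δ')) *
                  (1 / (τ * 2 ^ m)) := by ring
              _ = _ := by rw [e1]; field_simp
        _ = _ := by rw [ENNReal.ofReal_mul (by positivity)]
    -- Borel–Cantelli
    have hsum : ∃ m0 : ℕ, ∑' m : ℕ, volume {β : ℝ |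
        ENNReal.ofReal (((2:ℝ) ^ (m + m0)) ^ (1 - δ)) ≤ F (m + m0) β} ≠ ⊤ := by
      obtain ⟨m0, hm0⟩ := eventually_atTop.mp hbad
      refine ⟨m0, ?_⟩
      have h1 : ∀ m : ℕ, volume {β : ℝ |
          ENNReal.ofReal (((2:ℝ) ^ (m + m0)) ^ (1 - δ)) ≤ F (m + m0) β} ≤
          ENNReal.ofReal (C₁ ^ 2 / τ * ((2:ℝ) ^ (-e)) ^ m0 * ((2:ℝ) ^ (-e)) ^ m) := by
        intro m
        refine (hm0 (m + m0) (by omega)).trans (le_of_eq ?_)
        congr 1
        have e1 : ((2:ℝ) ^ (m + m0)) ^ (-e) = ((2:ℝ) ^ (-e)) ^ (m + m0) := by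
          rw [← Real.rpow_natCast 2 (m + m0), ← Real.rpow_mul (by norm_num),
            ← Real.rpow_natCast ((2:ℝ) ^ (-e)) (m + m0), ← Real.rpow_mul (by norm_num)]
          congr 1; ring
        rw [e1, pow_add]; ring
      refine ne_top_of_le_ne_top ?_ (ENNReal.tsum_le_tsum h1)
      have hr1 : (2:ℝ) ^ (-e) < 1 := Real.rpow_lt_one_of_one_lt_of_neg one_lt_two (by linarith)
      have hs : Summable (fun m : ℕ => C₁ ^ 2 / τ * ((2:ℝ) ^ (-e)) ^ m0 * ((2:ℝ) ^ (-e)) ^ m) :=
        (summable_geometric_of_lt_one (by positivity) hr1).mul_left _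
      exact hs.tsum_ofReal_ne_top
    obtain ⟨m0, hm0⟩ := hsum
    filter_upwards [ae_eventually_notMem hm0] with β hβ hβ0 hβK
    obtain ⟨m1, hm1⟩ := eventually_atTop.mp hβ
    filter_upwards [hpp, eventually_ge_atTop (m1 + m0)] with m h1 hm
    have h3 := hm1 (m - m0) (by omega)
    rw [Nat.sub_add_cancel (by omega)] at h3
    have h4 : F m β < ENNReal.ofReal (((2:ℝ) ^ m) ^ (1 - δ)) := by
      by_contra hcon
      push Not at hcon
      exact h3 hcon
    refine le_trans (measure_mono ?_) h4.le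
    obtain ⟨g1, g2, g3, g4, g5⟩ := h1
    have h2m : (0:ℝ) < 2 ^ m := by positivity
    rintro t ⟨ht, ht1, ht2⟩
    have key : ∀ y : ℕ, 0 ≤ d y → ((K:ℝ) + 1) * d y ≤ 2 ^ m / 2 → t - β * d y ∈ Vm m := by
      intro y hy1 hy2
      have h5 : β * d y ≤ 2 ^ m / 2 := by
        calc β * d y ≤ (K + 1) * d y := by gcongr
          _ ≤ _ := hy2
      have h6 : 0 ≤ β * d y := by positivity
      exact ⟨ht y hy1 (by linarith), by constructor <;> linarith⟩
    show t - β * d1 m ∈ Vm m ∧ t - β * d2 m ∈ Vm m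
    exact ⟨key _ g1 g4, key _ g2 g5⟩
  filter_upwards [ae_all_iff.mpr hmain] with β hβ hβ0
  obtain ⟨K, hK⟩ := exists_nat_ge β
  exact hβ K hβ0 (by linarith)

end Pool.Agent.K7.H77.WG
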